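import Mathlib

/-!
# The definitions used in the statement of the result

Homogeneous cochains of a group, the graded cohomology ring, and very strongly quasi-regular
systems of parameters.
-/

set_option autoImplicit false

namespace VSQR

open Finset

section Cochains

variable {X k : Type} [CommRing k]

/-- the cup product `(f ∪ g)(x_0,…,x_n) = ∑ i, f (x_0,…,x_i) g (x_i,…,x_n)` -/
def cup (f g : List X → k) : List X → k :=
  fun l => ∑ i ∈ range l.length, f (l.take (i + 1)) * g (l.drop i)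

/-- the differential `(d f)(x_0,…,x_n) = ∑ i, (-1)^i f (x_0,…,x_{i-1},x_{i+1},…,x_n)` -/
def del (f : List X → k) : List X → k :=
  fun l => ∑ i ∈ range l.length, (-1) ^ i * f (l.eraseIdx i)

/-- the unit: the constant function `1` of one variable -/
def uno : List X → k := fun l => if l.length = 1 then 1 else 0

end Cochains

/-- The (finite sums of) homogeneous cochains of the group `G` with values in `k`: functions `f` on
the finite sequences `(x_0,…,x_n)` of elements of `G`, `n ≥ 0`, vanishing on all long sequences,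
with `f (g x_0,…,g x_n) = f (x_0,…,x_n)`. -/
def IsCochain {G k : Type} [Group G] [CommRing k] (f : List G → k) : Prop :=
  f [] = 0 ∧ (∃ N : ℕ, ∀ l : List G, N ≤ l.length → f l = 0) ∧
    ∀ (g : G) (l : List G), f (l.map fun x => g * x) = f l

/-- The cocycles. -/
def IsCocycle {G k : Type} [Group G] [CommRing k] (f : List G → k) : Prop :=
  IsCochain f ∧ del f = 0

/-- `A` with the submodules `𝒜 n` is the graded ring `H^*(G, k) = ⊕ H^n(G, k)`, and `cl` maps a cocycle
to its cohomology class: on cocycles `cl` is `k`-linear, takes cup products to products and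
`1` to `1`, its kernel consists of the coboundaries, it is onto `A`, and `𝒜 n` is the set of
the classes of the cocycles of degree `n`. -/
def IsCohomologyRing (k G : Type) {A : Type} [Field k] [Group G] [CommRing A] [Algebra k A]
    (𝒜 : ℕ → Submodule k A) (cl : (List G → k) → A) : Prop :=
  (∀ f g : List G → k, IsCocycle f → IsCocycle g →
    cl (fun l => f l + g l) = cl f + cl g ∧ cl (cup f g) = cl f * cl g) ∧
  (∀ (c : k) (f : List G → k), IsCocycle f → cl (fun l => c * f l) = c • cl f) ∧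
  cl uno = 1 ∧
  (∀ f : List G → k, IsCocycle f → (cl f = 0 ↔ ∃ b : List G → k, IsCochain b ∧ del b = f)) ∧
  (∀ a : A, ∃ f : List G → k, IsCocycle f ∧ cl f = a) ∧
  ∀ (n : ℕ) (a : A), a ∈ 𝒜 n ↔
    ∃ f : List G → k, IsCocycle f ∧ (∀ l : List G, l.length ≠ n + 1 → f l = 0) ∧ cl f = a

section Parameters

variable {A : Type} [CommRing A]

/-- The ideal `(h_1,…,h_i)`; the sequence is `h_1 = h 0, h_2 = h 1, …`. -/
def sp (h : ℕ → A) (i : ℕ) : Ideal A := Ideal.span {x | ∃ j < i, h j = x}

variable (k : Type) [Field k] [Algebra k A]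

/-- `h_1 = h 0, …, h_r = h (r-1)`, of degrees `|h_1| = e 0, …, |h_r| = e (r-1)`, is a homogeneous
system of parameters of the `k`-algebra `A` graded by `𝒜`: the number `r` is the Krull
dimension of `A`, the `h_i` are homogeneous of positive degree, and `A/(h_1,…,h_r)` is
finite-dimensional over `k`. -/
def IsHSOP (𝒜 : ℕ → Submodule k A) (r : ℕ) (h : ℕ → A) (e : ℕ → ℕ) : Prop :=
  ringKrullDim A = r ∧ (∀ i < r, 0 < e i ∧ h i ∈ 𝒜 (e i)) ∧ FiniteDimensional k (A ⧸ sp h r)

/-- `h_1, …, h_r` is filter-regular: for `1 ≤ i ≤ r` the annihilator of `h_i` in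
`A/(h_1,…,h_{i-1})` is finite-dimensional over `k`. -/
def IsFilterRegular (r : ℕ) (h : ℕ → A) : Prop :=
  ∀ i < r, FiniteDimensional k
    (LinearMap.ker (LinearMap.mulLeft k (Ideal.Quotient.mk (sp h i) (h i))))

/-- The system `h_1, …, h_r` has type `(d_0,…,d_r)`: `d_0 ≥ -1`, `d_{i-1} - 1 ≤ d_i ≤ d_{i-1}` for
`1 ≤ i ≤ r` and, with `h_{r+1} = 0`, for `0 ≤ i ≤ r` the annihilator of `h_{i+1}` in
`A/(h_1,…,h_i)` is concentrated in degrees `≤ d_i + |h_1| + … + |h_i|`. -/
def HasType (𝒜 : ℕ → Submodule k A) (r : ℕ) (h : ℕ → A) (e : ℕ → ℕ) (dd : ℕ → ℤ) : Prop :=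
  -1 ≤ dd 0 ∧ (∀ i < r, dd i - 1 ≤ dd (i + 1) ∧ dd (i + 1) ≤ dd i) ∧
    ∀ i ≤ r, ∀ n : ℕ, ∀ a ∈ 𝒜 n, (if i < r then h i else 0) * a ∈ sp h i → a ∉ sp h i →
      (n : ℤ) ≤ dd i + ∑ j ∈ range i, (e j : ℤ)

/-- Very strongly quasi-regular system of parameters: a filter-regular homogeneous system of
parameters of type `(-1,-2,…,-r,-r)`. -/
def IsVSQR (𝒜 : ℕ → Submodule k A) (r : ℕ) (h : ℕ → A) (e : ℕ → ℕ) : Prop :=
  IsHSOP k 𝒜 r h e ∧ IsFilterRegular k r h ∧
    HasType k 𝒜 r h e (fun i => if i < r then -(i : ℤ) - 1 else -(r : ℤ))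

end Parameters

end VSQR
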