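import Mathlib
import Pool.Agent.H41.VSQ.Stmt

set_option autoImplicit false

/-! Very strongly quasi-regular parameters, part Coh: this file joins several modules to save build time. -/

section S_Raw

/-!
# Homogeneous cochains: raw operations on functions on finite sequences

A cochain of degree `n` is a function of `n + 1` variables; all cochains together are functions on
lists. `cup` is the Alexander-Whitney product, `del` the differential, `uno` the unit.
-/

set_option autoImplicit false

namespace VSQR

open Finset

variable {X k : Type} [CommRing k]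

theorem cup_nil (f g : List X → k) : cup f g [] = 0 := by simp [cup]

theorem cup_cons (f g : List X → k) (x : X) (l : List X) :
    cup f g (x :: l) = f [x] * g (x :: l) + cup (fun m => f (x :: m)) g l := by
  simp only [cup, List.length_cons]
  rw [Finset.sum_range_succ']
  simp only [List.take_succ_cons, List.drop_succ_cons, List.drop_zero, zero_add, List.take_zero]
  rw [add_comm]

theorem del_nil (f : List X → k) : del f [] = 0 := by simp [del]

theorem del_cons (f : List X → k) (x : X) (l : List X) :
    del f (x :: l) = f l - del (fun m => f (x :: m)) l := by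
  simp only [del, List.length_cons]
  rw [Finset.sum_range_succ']
  simp only [List.eraseIdx_cons_succ, List.eraseIdx_cons_zero, pow_zero, one_mul]
  rw [sub_eq_neg_add, ← Finset.sum_neg_distrib]
  congr 1
  refine Finset.sum_congr rfl fun i _ => ?_
  rw [pow_succ]
  ring

theorem cup_add_left (f f' g : List X → k) : cup (f + f') g = cup f g + cup f' g := by
  funext l
  simp only [cup, Pi.add_apply, add_mul, Finset.sum_add_distrib]

theorem cup_add_right (f g g' : List X → k) : cup f (g + g') = cup f g + cup f g' := by
  funext l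
  simp only [cup, Pi.add_apply, mul_add, Finset.sum_add_distrib]

theorem cup_smul_left (c : k) (f g : List X → k) : cup (c • f) g = c • cup f g := by
  funext l
  simp only [cup, Pi.smul_apply, smul_eq_mul, Finset.mul_sum, mul_assoc]

theorem cup_smul_right (c : k) (f g : List X → k) : cup f (c • g) = c • cup f g := by
  funext l
  simp only [cup, Pi.smul_apply, smul_eq_mul, Finset.mul_sum]
  refine Finset.sum_congr rfl fun i _ => ?_
  ring

theorem cup_assoc (f g h : List X → k) : cup (cup f g) h = cup f (cup g h) := by
  funext l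
  induction l generalizing f with
  | nil => rw [cup_nil, cup_nil]
  | cons x l ih =>
    rw [cup_cons (cup f g) h, cup_cons f (cup g h), ← ih]
    have h1 : (fun m => cup f g (x :: m)) =
        f [x] • (fun m => g (x :: m)) + cup (fun m => f (x :: m)) g := by
      funext m
      rw [cup_cons]
      rfl
    rw [h1, cup_add_left, cup_smul_left]
    rw [cup_cons f g, cup_nil, cup_cons g h]
    simp only [Pi.add_apply, Pi.smul_apply, smul_eq_mul]
    ring

theorem uno_cup (g : List X → k) (hg : g [] = 0) : cup uno g = g := by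
  funext l
  cases l with
  | nil => rw [cup_nil, hg]
  | cons x l =>
    rw [cup_cons]
    have h1 : ∀ m : List X, cup (fun m => uno (k := k) (x :: m)) g m = 0 := by
      intro m
      unfold cup
      refine Finset.sum_eq_zero fun i hi => ?_
      have : uno (k := k) (x :: m.take (i + 1)) = 0 := by
        unfold uno
        rw [if_neg]
        rw [Finset.mem_range] at hi
        simp only [List.length_cons, List.length_take]
        omega
      change uno (k := k) (x :: m.take (i + 1)) * g (List.drop i m) = 0
      rw [this, zero_mul]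
    rw [h1]
    simp [uno]

theorem cup_uno (f : List X → k) (hf : f [] = 0) : cup f uno = f := by
  have key : ∀ (l : List X) (f : List X → k), l ≠ [] → cup f uno l = f l := by
    intro l
    induction l with
    | nil => intro f h; exact absurd rfl h
    | cons x l ih =>
      intro f _
      rw [cup_cons]
      cases l with
      | nil => simp [cup_nil, uno]
      | cons y l =>
        rw [ih _ (by simp)]
        simp [uno]
  funext l
  cases l with
  | nil => rw [cup_nil, hf]
  | cons x l => exact key _ _ (by simp)

theorem del_add (f g : List X → k) : del (f + g) = del f + del g := by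
  funext l
  simp only [del, Pi.add_apply, mul_add, Finset.sum_add_distrib]

theorem del_smul (c : k) (f : List X → k) : del (c • f) = c • del f := by
  funext l
  simp only [del, Pi.smul_apply, smul_eq_mul, Finset.mul_sum]
  refine Finset.sum_congr rfl fun i _ => ?_
  ring

theorem del_del (f : List X → k) : del (del f) = 0 := by
  funext l
  induction l generalizing f with
  | nil => rw [del_nil]; rfl
  | cons x l ih =>
    rw [del_cons]
    have h1 : (fun m => del f (x :: m)) = f + (-1 : k) • del (fun m => f (x :: m)) := by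
      funext m
      rw [del_cons]
      simp only [Pi.add_apply, Pi.smul_apply, smul_eq_mul]
      ring
    rw [h1, del_add, del_smul]
    have h2 := ih (fun m => f (x :: m))
    simp only [Pi.add_apply, Pi.smul_apply, smul_eq_mul, Pi.zero_apply] at h2 ⊢
    rw [h2]
    ring

end VSQR

end S_Raw

section S_Raw2

/-!
# Characteristic 2: Leibniz rule, the cup-one product
-/

set_option autoImplicit false

namespace VSQR

open Finset

variable {X k : Type} [CommRing k]

/-- Steenrod's cup-one product, by recursion -/
def cupOne : (List X → k) → (List X → k) → List X → k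
  | _, _, [] => 0
  | f, g, x :: l => cup (fun m => g (x :: m)) (fun m => f (x :: m)) l +
      cupOne (fun m => f (x :: m)) g l

theorem cupOne_nil (f g : List X → k) : cupOne f g [] = 0 := by simp [cupOne]

theorem cupOne_cons (f g : List X → k) (x : X) (l : List X) :
    cupOne f g (x :: l) = cup (fun m => g (x :: m)) (fun m => f (x :: m)) l +
      cupOne (fun m => f (x :: m)) g l := by
  rw [cupOne]

theorem cupOne_add_left (f f' g : List X → k) :
    cupOne (f + f') g = cupOne f g + cupOne f' g := by
  funext l
  induction l generalizing f f' with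
  | nil => simp [cupOne_nil]
  | cons x l ih =>
    have h1 : (fun m => (f + f') (x :: m)) = (fun m => f (x :: m)) + (fun m => f' (x :: m)) := rfl
    rw [Pi.add_apply, cupOne_cons, cupOne_cons, cupOne_cons, h1, ih, cup_add_right]
    simp only [Pi.add_apply]
    ring

theorem cupOne_add_right (f g g' : List X → k) :
    cupOne f (g + g') = cupOne f g + cupOne f g' := by
  funext l
  induction l generalizing f with
  | nil => simp [cupOne_nil]
  | cons x l ih =>
    have h1 : (fun m => (g + g') (x :: m)) = (fun m => g (x :: m)) + (fun m => g' (x :: m)) := rfl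
    rw [Pi.add_apply, cupOne_cons, cupOne_cons, cupOne_cons, h1, ih, cup_add_left]
    simp only [Pi.add_apply]
    ring

variable [CharP k 2]

theorem two_zero (a : k) : a + a = 0 := CharTwo.add_self_eq_zero a

theorem del_cons' (f : List X → k) (x : X) (l : List X) :
    del f (x :: l) = f l + del (fun m => f (x :: m)) l := by
  rw [del_cons, CharTwo.sub_eq_add]

theorem del_cup (f g : List X → k) :
    del (cup f g) = cup (del f) g + cup f (del g) + f [] • g + g [] • f := by
  have h2 : (2 : k) = 0 := CharTwo.two_eq_zero
  funext l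
  induction l generalizing f with
  | nil =>
    simp only [Pi.add_apply, Pi.smul_apply, smul_eq_mul, del_nil, cup_nil]
    linear_combination (-(f [] * g [])) * h2
  | cons x l ih =>
    have e1 : (fun m => cup f g (x :: m)) =
        f [x] • (fun m => g (x :: m)) + cup (fun m => f (x :: m)) g := by
      funext m
      rw [cup_cons]
      rfl
    have e2 : (fun m => del f (x :: m)) = f + del (fun m => f (x :: m)) := by
      funext m
      rw [del_cons']
      rfl
    have e3 := ih (fun m => f (x :: m))
    simp only [Pi.add_apply, Pi.smul_apply, smul_eq_mul] at e3 ⊢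
    rw [del_cons', e1, del_add, del_smul, cup_cons (del f) g, e2, cup_add_left, del_cons' f x [],
      del_nil, cup_cons f (del g), del_cons' g x l]
    simp only [Pi.add_apply, Pi.smul_apply, smul_eq_mul]
    rw [e3]
    linear_combination (-(f [] * g (x :: l))) * h2

theorem del_cupOne (f g : List X → k) :
    del (cupOne f g) = cupOne (del f) g + cupOne f (del g) + cup f g + cup g f := by
  have h2 : (2 : k) = 0 := CharTwo.two_eq_zero
  funext l
  induction l generalizing f with
  | nil => simp only [Pi.add_apply, del_nil, cup_nil, cupOne_nil, add_zero]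
  | cons x l ih =>
    have e1 : (fun m => cupOne f g (x :: m)) =
        cup (fun m => g (x :: m)) (fun m => f (x :: m)) + cupOne (fun m => f (x :: m)) g := by
      funext m
      rw [cupOne_cons]
      rfl
    have e2 : (fun m => del f (x :: m)) = f + del (fun m => f (x :: m)) := by
      funext m
      rw [del_cons']
      rfl
    have e2' : (fun m => del g (x :: m)) = g + del (fun m => g (x :: m)) := by
      funext m
      rw [del_cons']
      rfl
    have e3 := ih (fun m => f (x :: m))
    have e4 := congrFun (del_cup (fun m => g (x :: m)) (fun m => f (x :: m))) l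
    simp only [Pi.add_apply, Pi.smul_apply, smul_eq_mul] at e3 e4 ⊢
    rw [del_cons', e1, del_add, cupOne_cons (del f) g, e2, cup_add_right, cupOne_add_left,
      cupOne_cons f (del g), e2', cup_add_left, cup_cons f g, cup_cons g f]
    simp only [Pi.add_apply]
    rw [e3, e4]
    linear_combination (-(cup (fun m => g (x :: m)) f l)) * h2

end VSQR

end S_Raw2

section S_Coch

/-!
# The ring of homogeneous cochains, group actions, cocycles and the cohomology ring
-/

set_option autoImplicit false

namespace VSQR

open Finset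

/-- The homogeneous cochains of the set `X` with values in `k`: functions on finite sequences
`(x_0,…,x_n)`, `n ≥ 0`, which vanish on all long sequences (finite sums of homogeneous ones). -/
def Coch (X k : Type) [CommRing k] : Submodule k (List X → k) where
  carrier := {f | f [] = 0 ∧ ∃ N : ℕ, ∀ l : List X, N ≤ l.length → f l = 0}
  add_mem' := by
    rintro f g ⟨hf, N, hN⟩ ⟨hg, M, hM⟩
    refine ⟨by simp [hf, hg], max N M, fun l hl => ?_⟩
    rw [Pi.add_apply, hN l (le_trans (le_max_left _ _) hl), hM l (le_trans (le_max_right _ _) hl),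
      add_zero]
  zero_mem' := ⟨rfl, 0, fun _ _ => rfl⟩
  smul_mem' := by
    rintro c f ⟨hf, N, hN⟩
    exact ⟨by simp [hf], N, fun l hl => by rw [Pi.smul_apply, hN l hl, smul_zero]⟩

variable {X k : Type} [CommRing k]

theorem cup_mem (f g : Coch X k) : cup (f : List X → k) g ∈ Coch X k := by
  obtain ⟨f, hf, N, hN⟩ := f
  obtain ⟨g, hg, M, hM⟩ := g
  refine ⟨cup_nil _ _, N + M, fun l hl => ?_⟩
  refine Finset.sum_eq_zero fun i hi => ?_
  rw [Finset.mem_range] at hi
  by_cases h : N ≤ i + 1
  · have : f (l.take (i + 1)) = 0 := hN _ (by rw [List.length_take]; omega)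
    change f (l.take (i + 1)) * g (l.drop i) = 0
    rw [this, zero_mul]
  · have : g (l.drop i) = 0 := hM _ (by rw [List.length_drop]; omega)
    change f (l.take (i + 1)) * g (l.drop i) = 0
    rw [this, mul_zero]

theorem uno_mem : (uno : List X → k) ∈ Coch X k := by
  refine ⟨by simp [uno], 2, fun l hl => ?_⟩
  unfold uno
  rw [if_neg (by omega)]

theorem del_mem (f : Coch X k) : del (f : List X → k) ∈ Coch X k := by
  obtain ⟨f, hf, N, hN⟩ := f
  refine ⟨del_nil _, N + 1, fun l hl => ?_⟩
  refine Finset.sum_eq_zero fun i hi => ?_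
  rw [Finset.mem_range] at hi
  change (-1) ^ i * f (l.eraseIdx i) = 0
  rw [hN _ (by rw [List.length_eraseIdx_of_lt hi]; omega), mul_zero]

instance instRingCoch : Ring (Coch X k) :=
  { (inferInstance : AddCommGroup (Coch X k)) with
    mul := fun f g => ⟨cup f g, cup_mem f g⟩
    one := ⟨uno, uno_mem⟩
    left_distrib := fun _ _ _ => Subtype.ext (cup_add_right _ _ _)
    right_distrib := fun _ _ _ => Subtype.ext (cup_add_left _ _ _)
    zero_mul := fun f => Subtype.ext (by
      funext l
      change cup 0 (f : List X → k) l = 0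
      simp [cup])
    mul_zero := fun f => Subtype.ext (by
      funext l
      change cup (f : List X → k) 0 l = 0
      simp [cup])
    mul_assoc := fun _ _ _ => Subtype.ext (cup_assoc _ _ _)
    one_mul := fun f => Subtype.ext (uno_cup _ f.2.1)
    mul_one := fun f => Subtype.ext (cup_uno _ f.2.1) }

theorem coe_mul (f g : Coch X k) : ((f * g : Coch X k) : List X → k) = cup f g := rfl

theorem coe_one : ((1 : Coch X k) : List X → k) = uno := rfl

instance instAlgebraCoch : Algebra k (Coch X k) :=
  Algebra.ofModule (fun c _ _ => Subtype.ext (cup_smul_left c _ _))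
    (fun c _ _ => Subtype.ext (cup_smul_right c _ _))

/-- the differential -/
def d : Coch X k →ₗ[k] Coch X k where
  toFun f := ⟨del f, del_mem f⟩
  map_add' _ _ := Subtype.ext (del_add _ _)
  map_smul' _ _ := Subtype.ext (del_smul _ _)

theorem coe_d (f : Coch X k) : ((d f : Coch X k) : List X → k) = del f := rfl

theorem d_d (f : Coch X k) : d (d f) = 0 := Subtype.ext (del_del _)

theorem d_one : d (1 : Coch X k) = 0 := by
  apply Subtype.ext
  funext l
  change del uno l = 0
  cases l with
  | nil => exact del_nil _
  | cons x l =>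
    rw [del_cons]
    cases l with
    | nil => simp [del_nil, uno]
    | cons y l =>
      rw [del_cons]
      cases l with
      | nil => simp [del_nil, uno]
      | cons z l =>
        have : del (fun m => uno (k := k) (x :: y :: m)) (z :: l) = 0 := by
          refine Finset.sum_eq_zero fun i _ => ?_
          simp [uno]
        rw [this]
        simp [uno]

section Action

variable {G : Type} [Group G]

/-- translation of functions on sequences of elements of `G` -/
def trans (g : G) (f : List G → k) : List G → k := fun l => f (l.map (fun x => g⁻¹ * x))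

theorem trans_mem (g : G) (f : Coch G k) : trans g (f : List G → k) ∈ Coch G k := by
  obtain ⟨f, hf, N, hN⟩ := f
  exact ⟨hf, N, fun l hl => hN _ (by rw [List.length_map]; exact hl)⟩

theorem trans_cup (g : G) (f f' : List G → k) :
    trans g (cup f f') = cup (trans g f) (trans g f') := by
  funext l
  simp only [trans, cup, List.length_map, List.map_take, List.map_drop]

theorem trans_del (g : G) (f : List G → k) : trans g (del f) = del (trans g f) := by
  funext l
  simp only [trans, del, List.length_map, List.eraseIdx_map]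

theorem trans_uno (g : G) : trans g (uno : List G → k) = uno := by
  funext l
  simp [trans, uno]

/-- the action of `g ∈ G` on cochains: `(g f)(x_0,…,x_n) = f (g⁻¹x_0,…,g⁻¹x_n)` -/
def act (g : G) : Coch G k →ₐ[k] Coch G k where
  toFun f := ⟨trans g f, trans_mem g f⟩
  map_one' := Subtype.ext (trans_uno g)
  map_mul' _ _ := Subtype.ext (trans_cup g _ _)
  map_zero' := rfl
  map_add' _ _ := rfl
  commutes' c := by
    apply Subtype.ext
    rw [Algebra.algebraMap_eq_smul_one]
    change trans g (c • uno) = c • uno
    conv_rhs => rw [← trans_uno g]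
    rfl

theorem coe_act (g : G) (f : Coch G k) (l : List G) :
    ((act g f : Coch G k) : List G → k) l = (f : List G → k) (l.map (fun x => g⁻¹ * x)) := rfl

theorem act_d (g : G) (f : Coch G k) : act g (d f) = d (act g f) :=
  Subtype.ext (trans_del g _)

theorem act_one (f : Coch G k) : act (1 : G) f = f := by
  apply Subtype.ext
  funext l
  rw [coe_act]
  simp

theorem act_mul (g h : G) (f : Coch G k) : act (g * h) f = act g (act h f) := by
  apply Subtype.ext
  funext l
  rw [coe_act, coe_act, coe_act, List.map_map]
  have h1 : (fun x : G => (g * h)⁻¹ * x) = ((fun x => h⁻¹ * x) ∘ fun x => g⁻¹ * x) := by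
    funext x
    simp [mul_assoc]
  rw [h1]

/-- the `H`-invariant cochains -/
def Inv (k : Type) [CommRing k] (H : Subgroup G) : Subalgebra k (Coch G k) where
  carrier := {f | ∀ h ∈ H, act h f = f}
  mul_mem' := by
    intro f f' hf hf' h hh
    rw [map_mul, hf h hh, hf' h hh]
  add_mem' := by
    intro f f' hf hf' h hh
    rw [map_add, hf h hh, hf' h hh]
  algebraMap_mem' := by
    intro c h _
    exact (act h).commutes c

end Action

section CupOne

theorem cupOne_zero_left (g : List X → k) : cupOne 0 g = 0 := by
  funext l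
  induction l with
  | nil => exact cupOne_nil _ _
  | cons x l ih =>
    rw [cupOne_cons]
    have h1 : (fun m => (0 : List X → k) (x :: m)) = 0 := rfl
    rw [h1, ih]
    simp [cup]

theorem cupOne_zero_right (f : List X → k) : cupOne f 0 = 0 := by
  funext l
  induction l generalizing f with
  | nil => exact cupOne_nil _ _
  | cons x l ih =>
    rw [cupOne_cons, ih]
    have h1 : (fun m => (0 : List X → k) (x :: m)) = 0 := rfl
    rw [h1]
    simp [cup]

theorem cupOne_bdd (g : List X → k) (M : ℕ) (hg : ∀ m : List X, M ≤ m.length → g m = 0) :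
    ∀ (l : List X) (f : List X → k) (N : ℕ), (∀ m : List X, N ≤ m.length → f m = 0) →
      N + M ≤ l.length → cupOne f g l = 0 := by
  intro l
  induction l with
  | nil => intro f N _ _; exact cupOne_nil _ _
  | cons x l ih =>
    intro f N hf hl
    rw [List.length_cons] at hl
    cases N with
    | zero =>
      have : f = 0 := by
        funext m
        exact hf m (Nat.zero_le _)
      rw [this, cupOne_zero_left]
      rfl
    | succ N =>
      rw [cupOne_cons, ih (fun m => f (x :: m)) N (fun m hm => hf _ (by
        rw [List.length_cons]; omega)) (by omega), add_zero]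
      refine Finset.sum_eq_zero fun i hi => ?_
      rw [Finset.mem_range] at hi
      by_cases h : M ≤ i + 2
      · have : g (x :: l.take (i + 1)) = 0 := hg _ (by
          rw [List.length_cons, List.length_take]; omega)
        change g (x :: l.take (i + 1)) * f (x :: l.drop i) = 0
        rw [this, zero_mul]
      · have : f (x :: l.drop i) = 0 := hf _ (by
          rw [List.length_cons, List.length_drop]; omega)
        change g (x :: l.take (i + 1)) * f (x :: l.drop i) = 0
        rw [this, mul_zero]

theorem cupOne_mem (f g : Coch X k) : cupOne (f : List X → k) g ∈ Coch X k := by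
  obtain ⟨f, hf, N, hN⟩ := f
  obtain ⟨g, hg, M, hM⟩ := g
  exact ⟨cupOne_nil _ _, N + M, fun l hl => cupOne_bdd g M hM l f N hN hl⟩

theorem trans_cupOne {G : Type} [Group G] (g : G) (f f' : List G → k) :
    trans g (cupOne f f') = cupOne (trans g f) (trans g f') := by
  funext l
  induction l generalizing f with
  | nil => exact (cupOne_nil f f').trans (cupOne_nil _ _).symm
  | cons x l ih =>
    have h1 : trans g (cupOne f f') (x :: l) =
        cupOne f f' ((g⁻¹ * x) :: l.map (fun x => g⁻¹ * x)) := rfl
    rw [h1, cupOne_cons, cupOne_cons]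
    have h2 := ih (fun m => f ((g⁻¹ * x) :: m))
    have h3 : cupOne (fun m => f ((g⁻¹ * x) :: m)) f' (l.map (fun x => g⁻¹ * x)) =
        trans g (cupOne (fun m => f ((g⁻¹ * x) :: m)) f') l := rfl
    rw [h3, h2]
    have h4 : cup (fun m => f' ((g⁻¹ * x) :: m)) (fun m => f ((g⁻¹ * x) :: m))
        (l.map (fun x => g⁻¹ * x)) =
        trans g (cup (fun m => f' ((g⁻¹ * x) :: m)) (fun m => f ((g⁻¹ * x) :: m))) l := rfl
    rw [h4, trans_cup]
    rfl

end CupOne

section CharTwo

variable [CharP k 2]

theorem d_mul (f g : Coch X k) : d (f * g) = d f * g + f * d g := by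
  apply Subtype.ext
  change del (cup (f : List X → k) g) = cup (del (f : List X → k)) g + cup f (del (g : List X → k))
  rw [del_cup, f.2.1, g.2.1, zero_smul, zero_smul, add_zero, add_zero]

theorem add_self_zero (f : Coch X k) : f + f = 0 := by
  apply Subtype.ext
  funext l
  exact two_zero _

variable {G : Type} [Group G]

/-- the invariant cocycles -/
def Zc (k : Type) [CommRing k] [CharP k 2] (H : Subgroup G) : Subalgebra k (Coch G k) where
  carrier := {f | f ∈ Inv k H ∧ d f = 0}
  mul_mem' := by
    rintro f f' ⟨hf, hf0⟩ ⟨hf', hf0'⟩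
    refine ⟨mul_mem hf hf', ?_⟩
    rw [d_mul, hf0, hf0', zero_mul, mul_zero, add_zero]
  add_mem' := by
    rintro f f' ⟨hf, hf0⟩ ⟨hf', hf0'⟩
    refine ⟨add_mem hf hf', ?_⟩
    rw [map_add, hf0, hf0', add_zero]
  algebraMap_mem' := by
    intro c
    refine ⟨(Inv k H).algebraMap_mem c, ?_⟩
    rw [Algebra.algebraMap_eq_smul_one, map_smul, d_one, smul_zero]

/-- the ideal of the coboundaries of invariant cochains -/
def Bc (k : Type) [CommRing k] [CharP k 2] (H : Subgroup G) : Ideal (Zc k H) where
  carrier := {z | ∃ b ∈ Inv k H, d b = (z : Coch G k)}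
  add_mem' := by
    rintro z z' ⟨b, hb, hz⟩ ⟨b', hb', hz'⟩
    exact ⟨b + b', add_mem hb hb', by rw [map_add, hz, hz']; rfl⟩
  zero_mem' := ⟨0, zero_mem _, by rw [map_zero]; rfl⟩
  smul_mem' := by
    rintro c z ⟨b, hb, hz⟩
    refine ⟨(c : Coch G k) * b, mul_mem c.2.1 hb, ?_⟩
    rw [d_mul, c.2.2, zero_mul, zero_add, hz]
    rfl

instance instTwoSidedBc (H : Subgroup G) : (Bc k H).IsTwoSided where
  mul_mem_of_left := by
    rintro z c ⟨b, hb, hz⟩
    refine ⟨b * (c : Coch G k), mul_mem hb c.2.1, ?_⟩
    rw [d_mul, c.2.2, mul_zero, add_zero, hz]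
    rfl

/-- The cohomology ring `H^*(H, k)`, computed with the cochains of `G`. -/
def Coh (k : Type) [CommRing k] [CharP k 2] (H : Subgroup G) : Type := Zc k H ⧸ Bc k H

instance instRingCoh (H : Subgroup G) : Ring (Coh k H) :=
  inferInstanceAs (Ring (Zc k H ⧸ Bc k H))

/-- the class of a cocycle -/
def cls (k : Type) [CommRing k] [CharP k 2] (H : Subgroup G) : Zc k H →+* Coh k H :=
  Ideal.Quotient.mk (Bc k H)

theorem cls_surj (H : Subgroup G) : Function.Surjective (cls k H) :=
  Ideal.Quotient.mk_surjective

theorem cls_eq_zero (H : Subgroup G) (z : Zc k H) :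
    cls k H z = 0 ↔ ∃ b ∈ Inv k H, d b = (z : Coch G k) :=
  Ideal.Quotient.eq_zero_iff_mem

theorem coh_comm (H : Subgroup G) (a b : Coh k H) : a * b = b * a := by
  obtain ⟨a, rfl⟩ := cls_surj H a
  obtain ⟨b, rfl⟩ := cls_surj H b
  rw [← sub_eq_zero, ← map_mul, ← map_mul, ← map_sub, cls_eq_zero]
  obtain ⟨a, ha, ha0⟩ := a
  obtain ⟨b, hb, hb0⟩ := b
  refine ⟨⟨cupOne (a : List G → k) b, cupOne_mem a b⟩, ?_, ?_⟩
  · intro h hh
    apply Subtype.ext
    change trans h (cupOne (a : List G → k) b) = cupOne (a : List G → k) b
    rw [trans_cupOne]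
    have e1 : trans h (a : List G → k) = a := congrArg Subtype.val (ha h hh)
    have e2 : trans h (b : List G → k) = b := congrArg Subtype.val (hb h hh)
    rw [e1, e2]
  · apply Subtype.ext
    change del (cupOne (a : List G → k) b) = cup (a : List G → k) b - cup (b : List G → k) a
    have e1 : del (a : List G → k) = 0 := congrArg Subtype.val ha0
    have e2 : del (b : List G → k) = 0 := congrArg Subtype.val hb0
    rw [del_cupOne, e1, e2, cupOne_zero_left, cupOne_zero_right]
    funext l
    simp only [Pi.add_apply, Pi.sub_apply, Pi.zero_apply]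
    rw [CharTwo.sub_eq_add]
    ring

instance instCommRingCoh (H : Subgroup G) : CommRing (Coh k H) :=
  { instRingCoh H with mul_comm := coh_comm H }

instance instAlgebraCoh (H : Subgroup G) : Algebra k (Coh k H) :=
  inferInstanceAs (Algebra k (Zc k H ⧸ Bc k H))

end CharTwo

end VSQR

end S_Coch

section S_Coh

/-!
# Restriction, transfer, conjugation and the grading on the cohomology rings
-/

set_option autoImplicit false

namespace VSQR

open Finset

variable {G k : Type} [Group G] [CommRing k] [CharP k 2]

omit [CharP k 2] in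
theorem Inv_mono {H H' : Subgroup G} (hle : H ≤ H') : Inv k H' ≤ Inv k H :=
  fun _ hf h hh => hf h (hle hh)

theorem Zc_mono {H H' : Subgroup G} (hle : H ≤ H') : Zc k H' ≤ Zc k H :=
  fun _ hf => ⟨Inv_mono hle hf.1, hf.2⟩

/-- restriction of classes to a subgroup -/
def resC {H H' : Subgroup G} (hle : H ≤ H') : Coh k H' →+* Coh k H :=
  Ideal.Quotient.lift (Bc k H') ((cls k H).comp (Subalgebra.inclusion (Zc_mono hle)).toRingHom) (by
    rintro z ⟨b, hb, hz⟩
    exact (cls_eq_zero H _).2 ⟨b, Inv_mono hle hb, hz⟩)

theorem resC_cls {H H' : Subgroup G} (hle : H ≤ H') (z : Zc k H') :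
    resC hle (cls k H' z) = cls k H ⟨z, Zc_mono hle z.2⟩ := rfl

theorem resC_smul {H H' : Subgroup G} (hle : H ≤ H') (c : k) (a : Coh k H') :
    resC hle (c • a) = c • resC hle a := by
  obtain ⟨z, rfl⟩ := cls_surj H' a
  rfl

/-- the transfer with respect to a finite set of representatives `T` -/
def trC {H H' : Subgroup G} (T : Finset G)
    (hT : ∀ b ∈ Inv k H, ∑ g ∈ T, act g b ∈ Inv k H') : Coh k H →+ Coh k H' :=
  QuotientAddGroup.lift (Bc k H).toAddSubgroup
    { toFun := fun z => cls k H' ⟨∑ g ∈ T, act g (z : Coch G k), hT _ z.2.1, by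
        rw [map_sum]
        refine Finset.sum_eq_zero fun g _ => ?_
        rw [← act_d, z.2.2, map_zero]⟩
      map_zero' := by
        rw [cls_eq_zero]
        refine ⟨0, zero_mem _, ?_⟩
        rw [map_zero]
        symm
        refine Finset.sum_eq_zero fun g _ => ?_
        exact map_zero (act g)
      map_add' := by
        intro z z'
        rw [← map_add]
        congr 1
        apply Subtype.ext
        change ∑ g ∈ T, act g ((z : Coch G k) + (z' : Coch G k)) =
          ∑ g ∈ T, act g (z : Coch G k) + ∑ g ∈ T, act g (z' : Coch G k)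
        rw [← Finset.sum_add_distrib]
        exact Finset.sum_congr rfl fun g _ => map_add _ _ _ }
    (by
      rintro z ⟨b, hb, hz⟩
      change cls k H' _ = 0
      rw [cls_eq_zero]
      refine ⟨∑ g ∈ T, act g b, hT _ hb, ?_⟩
      rw [map_sum]
      refine Finset.sum_congr rfl fun g _ => ?_
      rw [← act_d, hz])

theorem trC_cls {H H' : Subgroup G} (T : Finset G)
    (hT : ∀ b ∈ Inv k H, ∑ g ∈ T, act g b ∈ Inv k H') (z : Zc k H)
    (hz : ∑ g ∈ T, act g (z : Coch G k) ∈ Zc k H') :
    trC T hT (cls k H z) = cls k H' ⟨∑ g ∈ T, act g (z : Coch G k), hz⟩ := rfl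

/-- the projection formula -/
theorem trC_res_mul {H H' : Subgroup G} (hle : H ≤ H') (T : Finset G) (hTH : ∀ g ∈ T, g ∈ H')
    (hT : ∀ b ∈ Inv k H, ∑ g ∈ T, act g b ∈ Inv k H') (a : Coh k H') (s : Coh k H) :
    trC T hT (resC hle a * s) = a * trC T hT s := by
  obtain ⟨a, rfl⟩ := cls_surj H' a
  obtain ⟨s, rfl⟩ := cls_surj H s
  have hz : ∑ g ∈ T, act g (s : Coch G k) ∈ Zc k H' := by
    refine ⟨hT _ s.2.1, ?_⟩
    rw [map_sum]
    refine Finset.sum_eq_zero fun g _ => ?_
    rw [← act_d, s.2.2, map_zero]
  rw [resC_cls, ← map_mul, trC_cls T hT s hz, ← map_mul]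
  have h2 : ∑ g ∈ T, act g ((a : Coch G k) * (s : Coch G k)) =
      (a : Coch G k) * ∑ g ∈ T, act g (s : Coch G k) := by
    rw [Finset.mul_sum]
    refine Finset.sum_congr rfl fun g hg => ?_
    rw [map_mul, a.2.1 g (hTH g hg)]
  have h3 : ∑ g ∈ T, act g ((⟨(a : Coch G k), Zc_mono hle a.2⟩ * s : Zc k H) : Coch G k) ∈
      Zc k H' := by
    change ∑ g ∈ T, act g ((a : Coch G k) * (s : Coch G k)) ∈ Zc k H'
    rw [h2]
    exact mul_mem a.2 hz
  rw [trC_cls T hT _ h3]
  congr 1
  exact Subtype.ext h2

/-- conjugation on the cohomology of a normal subgroup -/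
def conjC (H : Subgroup G) [hN : H.Normal] (g : G) : Coh k H →+* Coh k H :=
  Ideal.Quotient.lift (Bc k H) ((cls k H).comp
    ({ toFun := fun z => ⟨act g (z : Coch G k), by
        refine ⟨?_, ?_⟩
        · intro h hh
          have h1 : h * g = g * (g⁻¹ * h * g) := by group
          rw [← act_mul, h1, act_mul]
          congr 1
          refine z.2.1 _ ?_
          have := hN.conj_mem h hh g⁻¹
          rwa [inv_inv] at this
        · rw [← act_d, z.2.2, map_zero]⟩
       map_one' := Subtype.ext (map_one (act g))
       map_mul' := fun z z' => Subtype.ext (map_mul (act g) _ _)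
       map_zero' := Subtype.ext (map_zero (act g))
       map_add' := fun z z' => Subtype.ext (map_add (act g) _ _) } : Zc k H →+* Zc k H)) (by
    rintro z ⟨b, hb, hz⟩
    refine (cls_eq_zero H _).2 ⟨act g b, ?_, ?_⟩
    · intro h hh
      have h1 : h * g = g * (g⁻¹ * h * g) := by group
      rw [← act_mul, h1, act_mul]
      congr 1
      refine hb _ ?_
      have := hN.conj_mem h hh g⁻¹
      rwa [inv_inv] at this
    · rw [← act_d, hz]
      rfl)

theorem conjC_cls (H : Subgroup G) [H.Normal] (g : G) (z : Zc k H)
    (hz : act g (z : Coch G k) ∈ Zc k H) :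
    conjC H g (cls k H z) = cls k H ⟨act g (z : Coch G k), hz⟩ := rfl

theorem res_trC {H H' : Subgroup G} [hN : H.Normal] (hle : H ≤ H') (T : Finset G)
    (hT : ∀ b ∈ Inv k H, ∑ g ∈ T, act g b ∈ Inv k H') (s : Coh k H) :
    resC hle (trC T hT s) = ∑ g ∈ T, conjC H g s := by
  obtain ⟨s, rfl⟩ := cls_surj H s
  have hz : ∑ g ∈ T, act g (s : Coch G k) ∈ Zc k H' := by
    refine ⟨hT _ s.2.1, ?_⟩
    rw [map_sum]
    refine Finset.sum_eq_zero fun g _ => ?_
    rw [← act_d, s.2.2, map_zero]
  rw [trC_cls T hT s hz, resC_cls]
  have hg : ∀ g : G, act g (s : Coch G k) ∈ Zc k H := by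
    intro g
    refine ⟨?_, ?_⟩
    · intro h hh
      have h1 : h * g = g * (g⁻¹ * h * g) := by group
      rw [← act_mul, h1, act_mul]
      congr 1
      refine s.2.1 _ ?_
      have := hN.conj_mem h hh g⁻¹
      rwa [inv_inv] at this
    · rw [← act_d, s.2.2, map_zero]
  have h1 : ∀ g, conjC H g (cls k H s) = cls k H ⟨act g (s : Coch G k), hg g⟩ := fun g => rfl
  rw [Finset.sum_congr rfl fun g _ => h1 g, ← map_sum]
  congr 1
  apply Subtype.ext
  rw [AddSubmonoidClass.coe_finsetSum]

/-- restriction of an element of the big group is invariant under conjugation -/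
theorem conjC_resC {H H' : Subgroup G} [hN : H.Normal] (hle : H ≤ H') (g : G) (hg : g ∈ H')
    (a : Coh k H') : conjC H g (resC hle a) = resC hle a := by
  obtain ⟨a, rfl⟩ := cls_surj H' a
  rw [resC_cls]
  have h1 : act g (a : Coch G k) = a := a.2.1 g hg
  have hz : act g (a : Coch G k) ∈ Zc k H := by
    rw [h1]
    exact Zc_mono hle a.2
  rw [conjC_cls H g _ hz]
  congr 1
  exact Subtype.ext h1

end VSQR

end S_Coh

section S_Defs

/-!
# Definitions: graded pieces of the cohomology ring, very strongly quasi-regular systems of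
parameters, the group `GG` of order `2 ^ 11`
-/

set_option autoImplicit false

namespace VSQR

open Finset

section Grading

variable {G : Type} [Group G]

/-- `Hgr k H n` is `H^n(H, k)`: the classes of the invariant cocycles which vanish on all the
sequences `(x_0,…,x_m)` with `m ≠ n`. -/
def Hgr (k : Type) [CommRing k] [CharP k 2] (H : Subgroup G) (n : ℕ) :
    Submodule k (Coh k H) where
  carrier := {a | ∃ z : Zc k H,
    (∀ l : List G, l.length ≠ n + 1 → ((z : Coch G k) : List G → k) l = 0) ∧ cls k H z = a}
  add_mem' := by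
    rintro _ _ ⟨z, hz, rfl⟩ ⟨z', hz', rfl⟩
    refine ⟨z + z', fun l hl => ?_, map_add _ _ _⟩
    change ((z : Coch G k) : List G → k) l + ((z' : Coch G k) : List G → k) l = 0
    rw [hz l hl, hz' l hl, add_zero]
  zero_mem' := ⟨0, fun _ _ => rfl, map_zero _⟩
  smul_mem' := by
    rintro c _ ⟨z, hz, rfl⟩
    refine ⟨c • z, fun l hl => ?_, rfl⟩
    change c * ((z : Coch G k) : List G → k) l = 0
    rw [hz l hl, mul_zero]

end Grading

section TheGroup

/-- The group `GG` of order `2 ^ 11`: triples `(t, r, c)` with `t ∈ F_2^2`, `r ∈ F_2^3` and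
`c ∈ M_{2,3}(F_2)`; product `(t, r, c)(t', r', c') = (t + t', r + r', c + c' + t ⊗ r')`. -/
@[ext] structure GG where
  t : Fin 2 → ZMod 2
  r : Fin 3 → ZMod 2
  c : Fin 2 → Fin 3 → ZMod 2

namespace GG

theorem tw (a : ZMod 2) : a + a = 0 := CharTwo.add_self_eq_zero a

instance : Mul GG := ⟨fun x y => ⟨x.t + y.t, x.r + y.r, fun i j => x.c i j + y.c i j + x.t i * y.r j⟩⟩
instance : One GG := ⟨⟨0, 0, fun _ _ => 0⟩⟩
instance : _root_.Inv GG := ⟨fun x => ⟨x.t, x.r, fun i j => x.c i j + x.t i * x.r j⟩⟩

@[simp] theorem mul_t (x y : GG) : (x * y).t = x.t + y.t := rfl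
@[simp] theorem mul_r (x y : GG) : (x * y).r = x.r + y.r := rfl
@[simp] theorem mul_c (x y : GG) (i : Fin 2) (j : Fin 3) :
    (x * y).c i j = x.c i j + y.c i j + x.t i * y.r j := rfl
@[simp] theorem one_t : (1 : GG).t = 0 := rfl
@[simp] theorem one_r : (1 : GG).r = 0 := rfl
@[simp] theorem one_c (i : Fin 2) (j : Fin 3) : (1 : GG).c i j = 0 := rfl
@[simp] theorem inv_t (x : GG) : x⁻¹.t = x.t := rfl
@[simp] theorem inv_r (x : GG) : x⁻¹.r = x.r := rfl
@[simp] theorem inv_c (x : GG) (i : Fin 2) (j : Fin 3) :
    x⁻¹.c i j = x.c i j + x.t i * x.r j := rfl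

instance : Group GG where
  mul_assoc x y z := by
    ext i j
    · simp [add_assoc]
    · simp [add_assoc]
    · simp only [mul_c, mul_t, mul_r, Pi.add_apply]
      ring
  one_mul x := by
    ext i j <;> simp
  mul_one x := by
    ext i j <;> simp
  inv_mul_cancel x := by
    ext i j
    · simp [tw]
    · simp [tw]
    · simp only [mul_c, inv_c, inv_t, one_c]
      have h1 := tw (x.c i j)
      have h2 := tw (x.t i * x.r j)
      linear_combination h1 + h2

end GG

end TheGroup

/-- index set of the variables `t_i`, `y_ij` -/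
abbrev I := Fin 2 ⊕ (Fin 2 × Fin 3)

/-- index set of the variables `r_j`, `c_ij` -/
abbrev I' := Fin 3 ⊕ (Fin 2 × Fin 3)

/-- the embedding of `F_2` in a ring of characteristic two -/
def cz (k : Type) [CommRing k] [CharP k 2] : ZMod 2 →+* k := ZMod.castHom (dvd_refl 2) k

open MvPolynomial in
/-- the automorphisms `α_r` of `k[t_i, y_ij]`: `t_i ↦ t_i`, `y_ij ↦ y_ij + r_j t_i` -/
noncomputable def al {k : Type} [CommRing k] [CharP k 2] (r : Fin 3 → ZMod 2) :
    MvPolynomial I k →ₐ[k] MvPolynomial I k :=
  aeval (Sum.elim (fun i => X (Sum.inl i))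
    (fun p => X (Sum.inr p) + C (cz k (r p.2)) * X (Sum.inl p.1)))

/-- What the algebra half needs to know about the cohomology ring `A = H^*(GG, k)`:
the restriction `rho` to `H^*(V, k) = k[t_i, y_ij]`, the transfer `tau` back, and the
restriction `rho'` to `H^*(U, k) = k[r_j, c_ij]`. -/
structure Pack (k A : Type) [Field k] [CharP k 2] [CommRing A] [Algebra k A]
    (𝒜 : ℕ → Submodule k A) where
  rho : A →ₐ[k] MvPolynomial I k
  tau : MvPolynomial I k →+ A
  rho' : A →ₐ[k] MvPolynomial I' k
  rho_deg : ∀ n, ∀ a ∈ 𝒜 n, (rho a).IsHomogeneous n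
  tau_deg : ∀ n, ∀ s : MvPolynomial I k, s.IsHomogeneous n → tau s ∈ 𝒜 n
  proj : ∀ a s, tau (rho a * s) = a * tau s
  rho_tau : ∀ s, rho (tau s) = ∑ r : Fin 3 → ZMod 2, al r s
  al_rho : ∀ r a, al r (rho a) = rho a
  fin : IsNoetherianRing A → rho.toRingHom.Finite
  fin' : IsNoetherianRing A → rho'.toRingHom.Finite
  zero : ∀ a ∈ 𝒜 0, ∃ c : k, a = algebraMap k A c

section Coordinates

variable {G : Type} [Group G]

/-- the cochain of degree `0` of a function on `G` -/
def zc {k : Type} [CommRing k] (f : G → k) : Coch G k :=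
  ⟨fun l => match l with
    | [x] => f x
    | _ => 0, rfl, 2, fun l hl => by
      match l, hl with
      | _ :: _ :: _, _ => rfl⟩

/-- the cochain of degree `0` of an `F_2`-valued function -/
def th (k : Type) [CommRing k] [CharP k 2] (θ : G → ZMod 2) : Coch G k := zc fun x => cz k (θ x)

/-- `θ` is additive with respect to left multiplication by elements of `H` -/
def Addi (H : Subgroup G) (θ : G → ZMod 2) : Prop := ∀ h ∈ H, ∀ x, θ (h * x) = θ h + θ x

end Coordinates

end VSQR

end S_Defs

section S_Chi

/-!
# The degree one classes `chi` of the coordinates, and basic facts on `zc`, `th`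
-/

set_option autoImplicit false

namespace VSQR

open Finset

variable {G : Type} [Group G] {k : Type} [CommRing k]

theorem act_zc (g : G) (f : G → k) : act g (zc f) = zc fun x => f (g⁻¹ * x) := by
  apply Subtype.ext
  funext l
  rw [coe_act]
  match l with
  | [] => rfl
  | [x] => rfl
  | _ :: _ :: _ => rfl

omit [Group G] in
theorem zc_add (f f' : G → k) : zc (fun x => f x + f' x) = zc f + zc f' := by
  apply Subtype.ext
  funext l
  match l with
  | [] => exact (add_zero (0 : k)).symm
  | [x] => rfl
  | _ :: _ :: _ => exact (add_zero (0 : k)).symm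

omit [Group G] in
theorem zc_const (c : k) : zc (fun _ : G => c) = c • (1 : Coch G k) := by
  apply Subtype.ext
  funext l
  change _ = c * (uno : List G → k) l
  match l with
  | [] => simp [uno, zc]
  | [x] => simp [uno, zc]
  | _ :: _ :: _ => simp [uno, zc]

omit [Group G] in
theorem zc_smul (c : k) (f : G → k) : zc (fun x => c * f x) = c • zc f := by
  apply Subtype.ext
  funext l
  match l with
  | [] => exact (mul_zero c).symm
  | [x] => rfl
  | _ :: _ :: _ => exact (mul_zero c).symm

variable [CharP k 2]

theorem Addi.one {H : Subgroup G} {θ : G → ZMod 2} (h : Addi H θ) : θ 1 = 0 := by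
  have := h 1 H.one_mem 1
  rw [mul_one] at this
  exact left_eq_add.mp this

theorem Addi.inv {H : Subgroup G} {θ : G → ZMod 2} (h : Addi H θ) {g : G} (hg : g ∈ H) :
    θ g⁻¹ = θ g := by
  have h1 := h g hg g⁻¹
  rw [mul_inv_cancel, h.one] at h1
  exact (CharTwo.add_eq_zero.mp h1.symm).symm

theorem Addi.mono {H H' : Subgroup G} (hle : H' ≤ H) {θ : G → ZMod 2} (h : Addi H θ) :
    Addi H' θ := fun g hg x => h g (hle hg) x

theorem act_th (g : G) (θ : G → ZMod 2) : act g (th k θ) = th k fun x => θ (g⁻¹ * x) :=
  act_zc _ _

/-- the translate of a coordinate -/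
theorem act_th_of_mem {H : Subgroup G} {θ : G → ZMod 2} (h : Addi H θ) {g : G} (hg : g ∈ H) :
    act g (th k θ) = th k θ + cz k (θ g) • 1 := by
  rw [act_th, ← zc_const, th, th, ← zc_add]
  congr 1
  funext x
  rw [h g⁻¹ (H.inv_mem hg), h.inv hg, map_add, add_comm]

theorem d_th_mem {H : Subgroup G} {θ : G → ZMod 2} (h : Addi H θ) : d (th k θ) ∈ Zc k H := by
  refine ⟨fun g hg => ?_, d_d _⟩
  rw [act_d, act_th_of_mem h hg, map_add, map_smul, d_one, smul_zero, add_zero]

/-- the degree one class of a coordinate -/
def chi (k : Type) [CommRing k] [CharP k 2] (H : Subgroup G) (θ : G → ZMod 2) (h : Addi H θ) :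
    Coh k H := cls k H ⟨d (th k θ), d_th_mem h⟩

theorem resC_chi {H H' : Subgroup G} (hle : H' ≤ H) (θ : G → ZMod 2) (h : Addi H θ) :
    resC hle (chi k H θ h) = chi k H' θ (h.mono hle) := rfl

/-- the restriction as a homomorphism of `k`-algebras -/
def resA (k : Type) [CommRing k] [CharP k 2] {H H' : Subgroup G} (hle : H' ≤ H) :
    Coh k H →ₐ[k] Coh k H' :=
  { resC hle with
    commutes' := fun c => by
      change resC hle (algebraMap k _ c) = _
      rw [Algebra.algebraMap_eq_smul_one, resC_smul, map_one, Algebra.algebraMap_eq_smul_one] }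

theorem resA_apply {H H' : Subgroup G} (hle : H' ≤ H) (a : Coh k H) :
    resA k hle a = resC hle a := rfl

end VSQR

end S_Chi
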