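import Mathlib
import Pool.Agent.H41.VSQ.Coh

set_option autoImplicit false

/-! Very strongly quasi-regular parameters, part Alg: this file joins several modules to save build time. -/

section S_NOETH

/-!
# NOETH: a graded algebra, finite-dimensional modulo homogeneous elements of positive degree, is
Noetherian

Choose finitely many elements of `A` spanning `A` modulo `sp h r` over `k`; replace them by their
homogeneous components `w_1, …, w_m` (`w_j ∈ 𝒜 (n_j)`), which still span modulo `sp h r`.  Let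
`B = Algebra.adjoin k ({h_i | i < r} ∪ {w_j})`.  Claim: `𝒜 n ≤ B` for all `n`, by strong induction:
for `a ∈ 𝒜 n` write `a = ∑ c_j w_j + ∑_{i<r} h_i a_i` and take the component of degree `n`:
`a = ∑_{n_j = n} c_j w_j + ∑_i h_i (a_i)_{n - e i}` (the terms with `e i ≤ n`), where the
`(a_i)_{n - e i} ∈ 𝒜 (n - e i)` are in `B` by induction as `e i > 0`.  So `B = ⊤`, `A` is of
finite type over the field `k`, hence Noetherian (`Algebra.FiniteType.isNoetherianRing`).
-/

set_option autoImplicit false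

namespace VSQR

open Finset

variable {k A : Type} [Field k] [CommRing A] [Algebra k A] (𝒜 : ℕ → Submodule k A)
  [GradedAlgebra 𝒜]

theorem noeth (r : ℕ) (h : ℕ → A) (e : ℕ → ℕ) (he : ∀ i < r, 0 < e i ∧ h i ∈ 𝒜 (e i))
    (hfin : FiniteDimensional k (A ⧸ sp h r)) : IsNoetherianRing A := by
  classical
  obtain ⟨S, hS⟩ := (Module.Finite.fg_top : (⊤ : Submodule k (A ⧸ sp h r)).FG)
  obtain ⟨g, hg⟩ : ∃ g : (A ⧸ sp h r) → A, ∀ x, Ideal.Quotient.mk (sp h r) (g x) = x :=
    ⟨fun x => (Ideal.Quotient.mk_surjective x).choose,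
      fun x => (Ideal.Quotient.mk_surjective x).choose_spec⟩
  have hsp : sp h r = Ideal.span (Set.range fun i : Fin r => h i) := by
    unfold sp
    congr 1
    ext x
    constructor
    · rintro ⟨j, hj, rfl⟩
      exact ⟨⟨j, hj⟩, rfl⟩
    · rintro ⟨i, rfl⟩
      exact ⟨i, i.2, rfl⟩
  -- the generators
  let W : Finset A := (S.image g).biUnion fun t =>
    (DirectSum.decompose 𝒜 t).support.image fun n => (DirectSum.decompose 𝒜 t n : A)
  let T : Finset A := (Finset.univ.image fun i : Fin r => h i) ∪ W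
  have hhT : ∀ i : Fin r, h i ∈ Algebra.adjoin k (T : Set A) := fun i =>
    Algebra.subset_adjoin (by
      rw [Finset.mem_coe]
      exact Finset.mem_union_left _ (Finset.mem_image_of_mem _ (Finset.mem_univ _)))
  have hwT : ∀ x ∈ S, ∀ n, (DirectSum.decompose 𝒜 (g x) n : A) ∈ Algebra.adjoin k (T : Set A) := by
    intro x hx n
    by_cases h0 : DirectSum.decompose 𝒜 (g x) n = 0
    · rw [h0]
      exact Subalgebra.zero_mem _
    · refine Algebra.subset_adjoin ?_
      rw [Finset.mem_coe]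
      refine Finset.mem_union_right _ (Finset.mem_biUnion.2 ⟨g x, Finset.mem_image_of_mem _ hx, ?_⟩)
      exact Finset.mem_image.2 ⟨n, DFinsupp.mem_support_iff.2 h0, rfl⟩
  have hproj_add : ∀ (a b : A) (n : ℕ), (DirectSum.decompose 𝒜 (a + b) n : A) =
      (DirectSum.decompose 𝒜 a n : A) + (DirectSum.decompose 𝒜 b n : A) := by
    intro a b n
    rw [DirectSum.decompose_add]
    rfl
  have hproj_sum : ∀ {ι : Type} (s : Finset ι) (f : ι → A) (n : ℕ),
      (DirectSum.decompose 𝒜 (∑ i ∈ s, f i) n : A) =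
        ∑ i ∈ s, (DirectSum.decompose 𝒜 (f i) n : A) := by
    intro ι s f n
    exact map_sum (GradedRing.proj 𝒜 n) f s
  have key : ∀ n, ∀ a ∈ 𝒜 n, a ∈ Algebra.adjoin k (T : Set A) := by
    intro n
    induction n using Nat.strong_induction_on with
    | _ n ih =>
      intro a ha
      -- an element of the span of the lifts
      have h1 : Ideal.Quotient.mk (sp h r) a ∈ Submodule.span k (S : Set (A ⧸ sp h r)) := by
        rw [hS]
        trivial
      have h1' : Ideal.Quotient.mk (sp h r) a ∈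
          Submodule.span k (Set.range fun x : S => (x : A ⧸ sp h r)) := by
        have h5 : (Set.range fun x : S => (x : A ⧸ sp h r)) = (S : Set (A ⧸ sp h r)) :=
          Subtype.range_coe
        rw [h5]
        exact h1
      obtain ⟨c, hc⟩ := (Submodule.mem_span_range_iff_exists_fun k).1 h1'
      let w : A := ∑ x : S, c x • g x
      have hw : Ideal.Quotient.mk (sp h r) w = Ideal.Quotient.mk (sp h r) a := by
        rw [← hc, map_sum]
        refine Finset.sum_congr rfl fun x _ => ?_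
        have h2 : Ideal.Quotient.mk (sp h r) (c x • g x) =
            c x • Ideal.Quotient.mk (sp h r) (g x) := rfl
        rw [h2, hg]
      have hz : a - w ∈ sp h r := by
        rw [← Ideal.Quotient.eq_zero_iff_mem, map_sub, hw, sub_self]
      rw [hsp] at hz
      obtain ⟨b, hb⟩ := Ideal.mem_span_range_iff_exists_fun.1 hz
      have ha2 : a = w + ∑ i : Fin r, b i * h i := by
        rw [hb]
        ring
      have ha3 : a = (DirectSum.decompose 𝒜 w n : A) +
          ∑ i : Fin r, (DirectSum.decompose 𝒜 (b i * h i) n : A) := by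
        have h3 : a = (DirectSum.decompose 𝒜 a n : A) := (DirectSum.decompose_of_mem_same 𝒜 ha).symm
        rw [h3]
        conv_lhs => rw [ha2]
        rw [hproj_add, hproj_sum _ (fun i : Fin r => b i * h i)]
      rw [ha3]
      refine Subalgebra.add_mem _ ?_ (Subalgebra.sum_mem _ fun i _ => ?_)
      · have h4 : (DirectSum.decompose 𝒜 w n : A) =
            ∑ x : S, c x • (DirectSum.decompose 𝒜 (g x) n : A) := by
          change (DirectSum.decompose 𝒜 (∑ x : S, c x • g x) n : A) = _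
          rw [hproj_sum]
          refine Finset.sum_congr rfl fun x _ => ?_
          rw [DirectSum.decompose_smul]
          rfl
        rw [h4]
        exact Subalgebra.sum_mem _ fun x _ => Subalgebra.smul_mem _ (hwT _ x.2 n) _
      · by_cases hle : e i ≤ n
        · rw [DirectSum.coe_decompose_mul_of_right_mem_of_le 𝒜 (he i i.2).2 hle]
          refine Subalgebra.mul_mem _ (ih (n - e i) ?_ _ (SetLike.coe_mem _)) (hhT i)
          have := (he i i.2).1
          omega
        · rw [DirectSum.coe_decompose_mul_of_right_mem_of_not_le 𝒜 (he i i.2).2 hle]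
          exact Subalgebra.zero_mem _
  have htop : Algebra.adjoin k (T : Set A) = ⊤ := by
    refine eq_top_iff.2 fun a _ => ?_
    rw [← DirectSum.sum_support_decompose 𝒜 a]
    exact Subalgebra.sum_mem _ fun n _ => key n _ (SetLike.coe_mem _)
  have hft : Algebra.FiniteType k A := ⟨⟨T, htop⟩⟩
  exact Algebra.FiniteType.isNoetherianRing k A

end VSQR

end S_NOETH

section S_KILL

/-!
# KILL: annihilators bounded in degree are killed by powers

`kill`: every homogeneous component `a_n` of `a` satisfies `x * a_n ∈ J` (`x` and `J` are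
homogeneous), hence also `x * (y ^ B * a_n) ∈ J`; `y ^ B * a_n ∈ 𝒜 (B * m + n)` has degree
`≥ B`, so it is in `J`.  Sum over `n`.
-/

set_option autoImplicit false

namespace VSQR

open Finset

theorem sp_succ {A : Type} [CommRing A] (h : ℕ → A) (i : ℕ) :
    sp h (i + 1) = sp h i ⊔ Ideal.span {h i} := by
  unfold sp
  rw [← Ideal.span_union]
  congr 1
  ext x
  simp only [Set.mem_ofPred_eq, Set.mem_union, Set.mem_singleton_iff]
  constructor
  · rintro ⟨j, hj, rfl⟩
    rcases Nat.lt_succ_iff_lt_or_eq.1 hj with h1 | h1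
    · exact Or.inl ⟨j, h1, rfl⟩
    · exact Or.inr (by rw [h1])
  · rintro (⟨j, hj, rfl⟩ | h1)
    · exact ⟨j, Nat.lt_succ_of_lt hj, rfl⟩
    · exact ⟨i, Nat.lt_succ_self i, h1.symm⟩

theorem sp_zero {A : Type} [CommRing A] (h : ℕ → A) : sp h 0 = ⊥ := by
  unfold sp
  have h1 : {x | ∃ j < 0, h j = x} = (∅ : Set A) := by
    ext x
    simp
  rw [h1, Ideal.span_empty]

variable {k A : Type} [Field k] [CommRing A] [Algebra k A] (𝒜 : ℕ → Submodule k A)
  [GradedAlgebra 𝒜]

theorem sp_homog (r : ℕ) (h : ℕ → A) (e : ℕ → ℕ) (he : ∀ i < r, h i ∈ 𝒜 (e i)) :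
    (sp h r).IsHomogeneous 𝒜 := by
  refine Ideal.homogeneous_span 𝒜 _ ?_
  rintro x ⟨j, hj, rfl⟩
  exact ⟨e j, he j hj⟩

theorem kill (J : Ideal A) (hJ : J.IsHomogeneous 𝒜) {d m : ℕ} (x : A) (hx : x ∈ 𝒜 d) (B : ℕ)
    (hB : ∀ n, ∀ a ∈ 𝒜 n, x * a ∈ J → a ∉ J → n < B) (y : A) (hy : y ∈ 𝒜 m) (hm : 0 < m)
    (a : A) (ha : x * a ∈ J) : y ^ B * a ∈ J := by
  classical
  rw [← DirectSum.sum_support_decompose 𝒜 a, Finset.mul_sum]
  refine Ideal.sum_mem _ fun n _ => ?_
  have h1 : x * (DirectSum.decompose 𝒜 a n : A) ∈ J := by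
    rw [← DirectSum.coe_decompose_mul_add_of_left_mem 𝒜 hx]
    exact hJ (d + n) ha
  by_contra h2
  have h3 : y ^ B * (DirectSum.decompose 𝒜 a n : A) ∈ 𝒜 (B • m + n) :=
    SetLike.mul_mem_graded (SetLike.pow_mem_graded B hy) (SetLike.coe_mem _)
  have h4 : x * (y ^ B * (DirectSum.decompose 𝒜 a n : A)) ∈ J := by
    rw [mul_left_comm]
    exact Ideal.mul_mem_left _ _ h1
  have h5 := hB _ _ h3 h4 h2
  rw [smul_eq_mul] at h5
  have h6 : B * 1 ≤ B * m := Nat.mul_le_mul_left B hm
  omega

end VSQR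

end S_KILL

section S_STEP

/-!
# STEP: one step of the chain of primes

Let `J' = J ⊔ span {h}`.
(0) Let `N = {x | ∀ c ∈ p, c * x ∈ J}`, an ideal with `J ≤ N`, `y ∈ N`.  `h ∉ p`: otherwise
`h * y ∈ J`, so `e * y ∈ J`, so `e ∈ p ≤ q`.
(1) Claim: there is `x ∈ N` such that `a * x ∈ J'` implies `a ∈ q`.  Otherwise, `N` being
finitely generated and `q` prime, there is `a ∉ q` with `a * x ∈ J'` for all `x ∈ N`.  For `x ∈ N`,
`a * x = i + h * z`, `i ∈ J`; for `c ∈ p`: `h * (c * z) ∈ J`, so `e * (c * z) ∈ J`; so `e * z ∈ N`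
and `(e * a) * x ∈ J + h * N`.  The determinant trick for the finitely generated module
`N/J` gives `d` with `d - (e * a) ^ n ∈ span {h}` and `d * x ∈ J` for `x ∈ N`; with `x = y`:
`d ∈ p ≤ q`, so `e * a ∈ q`, contradiction.
(2) For `x ∈ N` let `K x = {a | ∃ c ∉ q, c * a * x ∈ J'}`, an ideal.  By (1) some `x ∈ N` has
`K x ≤ q`; take `x ∈ N` with `K x ≤ q` and `K x` maximal (`A` Noetherian).  `K x` is prime: if
`a * b ∈ K x`, `b ∉ K x`, then `b * x ∈ N`, `K x ≤ K (b * x) ≤ q` (if `u ∈ K (b * x)`, `u ∉ q`,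
then `b ∈ K x`), so `K (b * x) = K x ∋ a`.
(3) `K x` is finitely generated, so there is `c ∉ q` with `c * a * x ∈ J'` for all `a ∈ K x`.
`p' = K x`, `y' = c * x`.  `p ≤ K x` as `x ∈ N`; `h ∈ K x`, `h ∉ p`.
-/

set_option autoImplicit false

namespace VSQR

theorem step_common {A : Type} [CommRing A] [IsNoetherianRing A] (q J' I : Ideal A)
    (hq : q.IsPrime) (x : A) (hI : ∀ a ∈ I, ∃ c, c ∉ q ∧ c * (a * x) ∈ J') :
    ∃ c, c ∉ q ∧ ∀ a ∈ I, c * (a * x) ∈ J' := by
  classical
  obtain ⟨n, s, hs⟩ := Submodule.fg_iff_exists_fin_generating_family.1 (IsNoetherian.noetherian I)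
  have hmem : ∀ i, s i ∈ I := fun i => by
    rw [← hs]
    exact Submodule.subset_span ⟨i, rfl⟩
  choose c hc hc' using fun i => hI (s i) (hmem i)
  refine ⟨∏ i, c i, ?_, ?_⟩
  · intro h
    obtain ⟨i, _, hi⟩ := (hq.prod_mem_iff).1 h
    exact hc i hi
  · intro a ha
    rw [← hs] at ha
    induction ha using Submodule.span_induction with
    | mem a ha =>
      obtain ⟨i, rfl⟩ := ha
      obtain ⟨t, ht⟩ := Finset.dvd_prod_of_mem c (Finset.mem_univ i)
      rw [ht]
      have : c i * t * (s i * x) = t * (c i * (s i * x)) := by ring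
      rw [this]
      exact J'.mul_mem_left _ (hc' i)
    | zero => simp
    | add a b _ _ h1 h2 =>
      have : (∏ i, c i) * ((a + b) * x) = (∏ i, c i) * (a * x) + (∏ i, c i) * (b * x) := by ring
      rw [this]
      exact J'.add_mem h1 h2
    | smul r a _ h1 =>
      have : (∏ i, c i) * ((r • a) * x) = r * ((∏ i, c i) * (a * x)) := by
        rw [smul_eq_mul]; ring
      rw [this]
      exact J'.mul_mem_left _ h1

/-- the ideal of the elements `x` with `c * x ∈ J` for `c ∈ p`. -/
def stepN {A : Type} [CommRing A] (J p : Ideal A) : Ideal A where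
  carrier := {x | ∀ c ∈ p, c * x ∈ J}
  add_mem' := by
    intro a b ha hb c hc
    rw [mul_add]
    exact J.add_mem (ha c hc) (hb c hc)
  zero_mem' := by
    intro c _
    rw [mul_zero]
    exact J.zero_mem
  smul_mem' := by
    intro r a ha c hc
    have : c * (r • a) = r * (c * a) := by rw [smul_eq_mul]; ring
    rw [this]
    exact J.mul_mem_left _ (ha c hc)

/-- the ideal of the elements `a` with `c * (a * x) ∈ J'` for some `c ∉ q`. -/
def stepK {A : Type} [CommRing A] (q J' : Ideal A) (hq : q.IsPrime) (x : A) : Ideal A where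
  carrier := {a | ∃ c, c ∉ q ∧ c * (a * x) ∈ J'}
  add_mem' := by
    rintro a b ⟨c, hc, hc'⟩ ⟨d, hd, hd'⟩
    refine ⟨c * d, fun h => (hq.mem_or_mem h).elim hc hd, ?_⟩
    have : c * d * ((a + b) * x) = d * (c * (a * x)) + c * (d * (b * x)) := by ring
    rw [this]
    exact J'.add_mem (J'.mul_mem_left _ hc') (J'.mul_mem_left _ hd')
  zero_mem' := ⟨1, fun h => hq.ne_top ((Ideal.eq_top_iff_one q).2 h), by simp⟩
  smul_mem' := by
    rintro r a ⟨c, hc, hc'⟩
    refine ⟨c, hc, ?_⟩
    have : c * ((r • a) * x) = r * (c * (a * x)) := by rw [smul_eq_mul]; ring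
    rw [this]
    exact J'.mul_mem_left _ hc'

theorem step_claim {A : Type} [CommRing A] [IsNoetherianRing A] (J q p : Ideal A) (h e y : A)
    (hq : q.IsPrime) (hhq : h ∈ q) (heq : e ∉ q) (hkill : ∀ a, h * a ∈ J → e * a ∈ J)
    (hpq : p ≤ q) (hy : ∀ a, a * y ∈ J ↔ a ∈ p) :
    ∃ x ∈ stepN J p, ∀ a, a * x ∈ J ⊔ Ideal.span {h} → a ∈ q := by
  classical
  by_contra hcon
  push Not at hcon
  have h1 : ∀ x ∈ stepN J p, ∃ a, a ∉ q ∧ a * (x * 1) ∈ J ⊔ Ideal.span {h} := by
    intro x hx
    obtain ⟨a, ha, ha'⟩ := hcon x hx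
    exact ⟨a, ha', by rw [mul_one]; exact ha⟩
  obtain ⟨a, haq, ha⟩ := step_common q (J ⊔ Ideal.span {h}) (stepN J p) hq 1 h1
  simp only [mul_one] at ha
  have h2 : ∀ x ∈ stepN J p, ∃ i ∈ J, ∃ z ∈ stepN J p, (e * a) * x = i + h * z := by
    intro x hx
    obtain ⟨i, hi, w, hw, hiw⟩ := Submodule.mem_sup.1 (ha x hx)
    obtain ⟨z, hz⟩ := Ideal.mem_span_singleton'.1 hw
    refine ⟨e * i, J.mul_mem_left _ hi, e * z, ?_, ?_⟩
    · intro c hc
      have h3 : h * (c * z) ∈ J := by
        have h4 : h * (c * z) = a * (c * x) - c * i := by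
          have : a * (c * x) = c * (a * x) := by ring
          rw [this, ← hiw, ← hz]
          ring
        rw [h4]
        exact J.sub_mem (J.mul_mem_left _ (hx c hc)) (J.mul_mem_left _ hi)
      have h5 := hkill _ h3
      have h6 : c * (e * z) = e * (c * z) := by ring
      rw [h6]
      exact h5
    · have : e * a * x = e * (a * x) := by ring
      rw [this, ← hiw, ← hz]
      ring
  obtain ⟨n, s, hs⟩ := Submodule.fg_iff_exists_fin_generating_family.1
    (IsNoetherian.noetherian (stepN J p))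
  have hmem : ∀ i, s i ∈ stepN J p := fun i => by
    rw [← hs]
    exact Submodule.subset_span ⟨i, rfl⟩
  choose j hj z hz hjz using fun i => h2 (s i) (hmem i)
  have h3 : ∀ i, ∃ m : Fin n → A, ∑ l, m l • s l = z i := fun i =>
    (Submodule.mem_span_range_iff_exists_fun A).1 (by rw [hs]; exact hz i)
  choose m hm using h3
  let B : Matrix (Fin n) (Fin n) A := (e * a) • (1 : Matrix (Fin n) (Fin n) A) - h • Matrix.of m
  have hB : B.mulVec s = j := by
    funext i
    simp only [B, Matrix.sub_mulVec, Matrix.smul_mulVec, Matrix.one_mulVec, Pi.sub_apply,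
      Pi.smul_apply, smul_eq_mul]
    have h4 : (Matrix.of m).mulVec s i = z i := by
      rw [← hm i]
      simp [Matrix.mulVec, dotProduct]
    rw [h4, hjz i]
    ring
  have hdet : ∀ i, B.det * s i ∈ J := by
    intro i
    have h4 : (B.adjugate.mulVec (B.mulVec s)) i = B.det * s i := by
      rw [Matrix.mulVec_mulVec, Matrix.adjugate_mul, Matrix.smul_mulVec, Matrix.one_mulVec]
      rfl
    rw [← h4, hB]
    simp only [Matrix.mulVec, dotProduct]
    exact J.sum_mem fun l _ => J.mul_mem_left _ (hj l)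
  have hall : ∀ x ∈ stepN J p, B.det * x ∈ J := by
    intro x hx
    rw [← hs] at hx
    obtain ⟨c, rfl⟩ := (Submodule.mem_span_range_iff_exists_fun A).1 hx
    rw [Finset.mul_sum]
    refine J.sum_mem fun l _ => ?_
    have : B.det * c l • s l = c l * (B.det * s l) := by rw [smul_eq_mul]; ring
    rw [this]
    exact J.mul_mem_left _ (hdet l)
  have hyN : y ∈ stepN J p := fun c hc => (hy c).2 hc
  have hdp : B.det ∈ q := hpq ((hy _).1 (hall y hyN))
  have hdet2 : Ideal.Quotient.mk q B.det = (Ideal.Quotient.mk q (e * a)) ^ n := by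
    rw [RingHom.map_det]
    have h5 : (Ideal.Quotient.mk q).mapMatrix B =
        (Ideal.Quotient.mk q (e * a)) • (1 : Matrix (Fin n) (Fin n) (A ⧸ q)) := by
      ext i l
      have h6 : Ideal.Quotient.mk q h = 0 := Ideal.Quotient.eq_zero_iff_mem.2 hhq
      simp only [B, RingHom.mapMatrix_apply, Matrix.map_apply, Matrix.sub_apply, Matrix.smul_apply,
        smul_eq_mul, map_sub, map_mul, h6, zero_mul, sub_zero, Matrix.one_apply]
      split_ifs <;> simp
    rw [h5, Matrix.det_smul, Matrix.det_one, mul_one, Fintype.card_fin]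
  have h7 : (e * a) ^ n ∈ q := by
    rw [← Ideal.Quotient.eq_zero_iff_mem, map_pow, ← hdet2]
    exact Ideal.Quotient.eq_zero_iff_mem.2 hdp
  exact (hq.mem_or_mem (hq.mem_of_pow_mem n h7)).elim heq haq

theorem step {A : Type} [CommRing A] [IsNoetherianRing A] (J q p : Ideal A) (h e y : A)
    (hq : q.IsPrime) (hhq : h ∈ q) (heq : e ∉ q) (hkill : ∀ a, h * a ∈ J → e * a ∈ J)
    (hp : p.IsPrime) (hpq : p ≤ q) (hy : ∀ a, a * y ∈ J ↔ a ∈ p) :
    ∃ (p' : Ideal A) (y' : A), p'.IsPrime ∧ p < p' ∧ p' ≤ q ∧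
      ∀ a, a * y' ∈ J ⊔ Ideal.span {h} ↔ a ∈ p' := by
  classical
  have h1q : (1 : A) ∉ q := fun h => hq.ne_top ((Ideal.eq_top_iff_one q).2 h)
  have hhp : h ∉ p := by
    intro hh
    exact heq (hpq ((hy e).1 (hkill y ((hy h).2 hh))))
  obtain ⟨x0, hx0, hx0'⟩ := step_claim J q p h e y hq hhq heq hkill hpq hy
  set J' : Ideal A := J ⊔ Ideal.span {h} with hJ'
  have hJJ' : J ≤ J' := le_sup_left
  have hhJ' : h ∈ J' := (le_sup_right : Ideal.span {h} ≤ J') (Ideal.mem_span_singleton_self h)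
  obtain ⟨K, ⟨x, hx, hKq, rfl⟩, hmax⟩ := set_has_maximal_iff_noetherian.2
    (inferInstance : IsNoetherian A A)
    {K : Ideal A | ∃ x ∈ stepN J p, stepK q J' hq x ≤ q ∧ stepK q J' hq x = K}
    ⟨stepK q J' hq x0, x0, hx0, by
      rintro a ⟨c, hc, hca⟩
      have h2 : c * a ∈ q := hx0' _ (by rw [mul_assoc]; exact hca)
      exact (hq.mem_or_mem h2).resolve_left hc, rfl⟩
  have hprime : (stepK q J' hq x).IsPrime := by
    constructor
    · intro htop
      rw [htop] at hKq
      exact hq.ne_top (top_le_iff.1 hKq)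
    · intro a b hab
      by_contra hcon
      rw [not_or] at hcon
      obtain ⟨ha, hb⟩ := hcon
      have hbx : b * x ∈ stepN J p := (stepN J p).mul_mem_left b hx
      have hle : stepK q J' hq x ≤ stepK q J' hq (b * x) := by
        rintro u ⟨c, hc, hcu⟩
        refine ⟨c, hc, ?_⟩
        have : c * (u * (b * x)) = b * (c * (u * x)) := by ring
        rw [this]
        exact J'.mul_mem_left _ hcu
      have hle2 : stepK q J' hq (b * x) ≤ q := by
        rintro u ⟨c, hc, hcu⟩
        by_contra hu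
        apply hb
        refine ⟨c * u, fun h => (hq.mem_or_mem h).elim hc hu, ?_⟩
        have : c * u * (b * x) = c * (u * (b * x)) := by ring
        rw [this]
        exact hcu
      have hnlt := hmax (stepK q J' hq (b * x)) ⟨b * x, hbx, hle2, rfl⟩
      have heqK : stepK q J' hq x = stepK q J' hq (b * x) := by
        by_contra hne
        exact hnlt (lt_of_le_of_ne hle hne)
      apply ha
      rw [heqK]
      obtain ⟨c, hc, hcab⟩ := hab
      refine ⟨c, hc, ?_⟩
      have : c * (a * (b * x)) = c * (a * b * x) := by ring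
      rw [this]
      exact hcab
  obtain ⟨c, hc, hcK⟩ := step_common q J' (stepK q J' hq x) hq x fun a ha => ha
  refine ⟨stepK q J' hq x, c * x, hprime, ?_, hKq, ?_⟩
  · refine lt_of_le_of_ne ?_ ?_
    · intro b hb
      exact ⟨1, h1q, by rw [one_mul]; exact hJJ' (hx b hb)⟩
    · intro heq'
      apply hhp
      rw [heq']
      exact ⟨1, h1q, by rw [one_mul]; exact J'.mul_mem_right _ hhJ'⟩
  · intro a
    constructor
    · intro ha
      refine ⟨c, hc, ?_⟩
      have : c * (a * x) = a * (c * x) := by ring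
      rw [this]
      exact ha
    · intro ha
      have : a * (c * x) = c * (a * x) := by ring
      rw [this]
      exact hcK a ha

end VSQR

end S_STEP

section S_CHAIN

/-!
# CHAIN: a chain of `m + 1` primes below `q`

Induction on `m` (for all `i ≤ m`: primes `p_0 < … < p_i ≤ q` and `y_i` with
`a * y_i ∈ sp h i ↔ a ∈ p_i`), using `step` with `J = sp h i`, `e = z ^ B` (`kill`, `sp_homog`),
`sp_succ`, `sp_zero`.
-/

set_option autoImplicit false

namespace VSQR

open Finset

theorem chain {k A : Type} [Field k] [CommRing A] [Algebra k A] [IsNoetherianRing A]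
    (𝒜 : ℕ → Submodule k A) [GradedAlgebra 𝒜] (m : ℕ) (h : ℕ → A) (e : ℕ → ℕ)
    (he : ∀ i < m, h i ∈ 𝒜 (e i)) (B : ℕ)
    (hty : ∀ i < m, ∀ n, ∀ a ∈ 𝒜 n, h i * a ∈ sp h i → a ∉ sp h i → n < B)
    (p₀ : Ideal A) (hp₀ : p₀.IsPrime) (y : A) (hy : ∀ a, a * y = 0 ↔ a ∈ p₀)
    (q : Ideal A) (hq : q.IsPrime) (hpq : p₀ ≤ q) (hhq : ∀ i < m, h i ∈ q)
    (z : A) {dz : ℕ} (hz : z ∈ 𝒜 dz) (hdz : 0 < dz) (hzq : z ∉ q) :
    ∃ p : ℕ → Ideal A, p 0 = p₀ ∧ (∀ i ≤ m, (p i).IsPrime ∧ p i ≤ q) ∧
      ∀ i < m, p i < p (i + 1) := by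
  have key : ∀ i ≤ m, ∃ (p : ℕ → Ideal A) (y' : A), p 0 = p₀ ∧
      (∀ j ≤ i, (p j).IsPrime ∧ p j ≤ q) ∧ (∀ j < i, p j < p (j + 1)) ∧
      ∀ a, a * y' ∈ sp h i ↔ a ∈ p i := by
    intro i
    induction i with
    | zero =>
      intro _
      refine ⟨fun _ => p₀, y, rfl, fun j _ => ⟨hp₀, hpq⟩, fun j hj => absurd hj (Nat.not_lt_zero j),
        fun a => ?_⟩
      rw [sp_zero, Ideal.mem_bot]
      exact hy a
    | succ i ih =>
      intro hi
      have him : i < m := hi
      obtain ⟨p, y', hp0, hp, hlt, hy'⟩ := ih him.le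
      have hhom : (sp h i).IsHomogeneous 𝒜 :=
        sp_homog 𝒜 i h e fun j hj => he j (hj.trans him)
      have hzB : z ^ B ∉ q := fun hc => hzq (hq.mem_of_pow_mem B hc)
      obtain ⟨p', y'', hp', hlt', hle', hy''⟩ := step (sp h i) q (p i) (h i) (z ^ B) y' hq
        (hhq i him) hzB
        (fun a ha => kill 𝒜 (sp h i) hhom (h i) (he i him) B (hty i him) z hz hdz a ha)
        (hp i le_rfl).1 (hp i le_rfl).2 hy'
      refine ⟨fun j => if j ≤ i then p j else p', y'', ?_, ?_, ?_, ?_⟩
      · simpa using hp0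
      · intro j hj
        by_cases hji : j ≤ i
        · simpa only [if_pos hji] using hp j hji
        · simpa only [if_neg hji] using ⟨hp', hle'⟩
      · intro j hj
        have hji : j ≤ i := Nat.lt_succ_iff.1 hj
        rcases Nat.lt_or_ge j i with h1 | h1
        · have h2 : j + 1 ≤ i := h1
          simpa only [if_pos hji, if_pos h2] using hlt j h1
        · have h2 : ¬ j + 1 ≤ i := by omega
          have h3 : j = i := le_antisymm hji h1
          subst h3
          simpa only [if_pos hji, if_neg h2] using hlt'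
      · intro a
        have h2 : ¬ i + 1 ≤ i := by omega
        simp only [if_neg h2]
        rw [sp_succ]
        exact hy'' a
  obtain ⟨p, -, hp0, hp, hlt, -⟩ := key m le_rfl
  exact ⟨p, hp0, hp, hlt⟩

end VSQR

end S_CHAIN

section S_DIMC

/-!
# DIMC: chains of primes and integral maps to polynomial rings

`ringKrullDim (MvPolynomial σ k) = Fintype.card σ` (`MvPolynomial.ringKrullDim_of_isNoetherianRing`,
`ringKrullDim_eq_zero_of_field`).  `dimc`: by going up
(`Ideal.exists_ideal_over_prime_of_isIntegral_of_isPrime` or similar) lift the chain to primes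
`P_0 ≤ … ≤ P_m` of the polynomial ring with `P_i ∩ A = p_i` (start with `⊥`: its preimage is
`ker f ≤ p 0`); they are strictly increasing, so `m ≤ ringKrullDim`.
`dimr`: by incomparability (`Ideal.IsIntegral.comap_lt_comap` or similar) preimages of strict
inclusions of primes are strict, so `ringKrullDim (MvPolynomial σ k) ≤ ringKrullDim A`.
-/

set_option autoImplicit false

namespace VSQR

open Finset

variable {k A σ : Type} [Field k] [CommRing A] [Fintype σ]

private theorem DIMC_dim : ringKrullDim (MvPolynomial σ k) = (Fintype.card σ : ℕ) := by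
  rw [MvPolynomial.ringKrullDim_of_isNoetherianRing, ringKrullDim_eq_zero_of_field,
    Nat.card_eq_fintype_card, zero_add]

theorem dimc (f : A →+* MvPolynomial σ k) (hf : f.IsIntegral) (m : ℕ) (p : ℕ → Ideal A)
    (h0 : RingHom.ker f ≤ p 0) (hp : ∀ i ≤ m, (p i).IsPrime) (hlt : ∀ i < m, p i < p (i + 1)) :
    m ≤ Fintype.card σ := by
  let _ := f.toAlgebra
  have : Algebra.IsIntegral A (MvPolynomial σ k) := ⟨hf⟩
  have key : ∀ i ≤ m, ∃ l : LTSeries (PrimeSpectrum (MvPolynomial σ k)),
      l.length = i ∧ l.last.asIdeal.comap f = p i := by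
    intro i
    induction i with
    | zero =>
      intro _
      have := hp 0 (Nat.zero_le _)
      obtain ⟨Q, -, hQ, hQ'⟩ := Ideal.exists_ideal_over_prime_of_isIntegral (p 0)
        (⊥ : Ideal (MvPolynomial σ k)) h0
      exact ⟨RelSeries.singleton _ ⟨Q, hQ⟩, rfl, hQ'⟩
    | succ i ih =>
      intro hi
      obtain ⟨l, hl, hl'⟩ := ih (by omega)
      have := hp (i + 1) hi
      have := l.last.isPrime
      have hle : l.last.asIdeal.comap (algebraMap A (MvPolynomial σ k)) ≤ p (i + 1) := by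
        refine le_trans (le_of_eq hl') (hlt i (by omega)).le
      obtain ⟨Q, hQ, hQp, hQ'⟩ := Ideal.exists_ideal_over_prime_of_isIntegral_of_isPrime
        (p (i + 1)) l.last.asIdeal hle
      have hlt' : l.last < (⟨Q, hQp⟩ : PrimeSpectrum (MvPolynomial σ k)) := by
        refine lt_of_le_of_ne hQ ?_
        intro heq
        have h1 : l.last.asIdeal = Q := congrArg PrimeSpectrum.asIdeal heq
        have h2 : p i = p (i + 1) := by
          rw [← hl', h1]
          exact hQ'
        exact (hlt i (by omega)).ne h2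
      refine ⟨l.snoc ⟨Q, hQp⟩ hlt', ?_, ?_⟩
      · rw [RelSeries.snoc_length, hl]
      · rw [RelSeries.last_snoc]
        exact hQ'
  obtain ⟨l, hl, -⟩ := key m le_rfl
  have h1 := Order.LTSeries.length_le_krullDim l
  have h2 : ((m : ℕ) : WithBot ℕ∞) ≤ ((Fintype.card σ : ℕ) : WithBot ℕ∞) := by
    rw [← DIMC_dim (k := k) (σ := σ), ← hl]
    exact h1
  exact_mod_cast h2

theorem dimr (f : A →+* MvPolynomial σ k) (hf : f.IsIntegral) (r : ℕ)
    (hr : ringKrullDim A = r) : Fintype.card σ ≤ r := by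
  let _ := f.toAlgebra
  have : Algebra.IsIntegral A (MvPolynomial σ k) := ⟨hf⟩
  have hmono : StrictMono (PrimeSpectrum.comap f) := by
    intro P Q hPQ
    have := P.isPrime
    obtain ⟨x, hxQ, hxP⟩ := SetLike.exists_of_lt (show P.asIdeal < Q.asIdeal from hPQ)
    exact Ideal.comap_lt_comap_of_integral_mem_sdiff (R := A) (I := P.asIdeal)
      (le_of_lt hPQ : P.asIdeal ≤ Q.asIdeal) ⟨hxQ, hxP⟩ (hf x)
  have h1 := Order.krullDim_le_of_strictMono _ hmono
  have h2 : ((Fintype.card σ : ℕ) : WithBot ℕ∞) ≤ ((r : ℕ) : WithBot ℕ∞) := by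
    rw [← DIMC_dim (k := k) (σ := σ), ← hr]
    exact h1
  exact_mod_cast h2

end VSQR

end S_DIMC

section S_PARB

/-!
# PARB: powers of the variables are in the ideal generated by the parameters

`X i` is integral over `A`: `X i ^ n + ∑_{j=1}^{n} f (a_j) * X i ^ (n - j) = 0`; the homogeneous component
of degree `n` of this equation is `X i ^ n + ∑_{j=1}^n f ((a_j)_j) * X i ^ (n - j) = 0` with
`(a_j)_j ∈ 𝒜 j`, `j ≥ 1`, in the irrelevant ideal `A_+`.  So `X i ^ n ∈ A_+.map f`, and
`X i ^ (n * N) ∈ (A_+.map f) ^ N = (A_+ ^ N).map f ≤ (ker f ⊔ J).map f = J.map f`.  Take a common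
positive exponent for the finitely many `i`.
-/

set_option autoImplicit false

namespace VSQR

open Finset MvPolynomial

theorem parb_term {k A σ : Type} [Field k] [CommRing A] [Algebra k A]
    (𝒜 : ℕ → Submodule k A) [GradedAlgebra 𝒜] (f : A →ₐ[k] MvPolynomial σ k)
    (hdeg : ∀ n, ∀ a ∈ 𝒜 n, (f a).IsHomogeneous n) (a : A) (i : σ) {m n : ℕ} (h : m < n) :
    homogeneousComponent n (f a * X i ^ m) ∈
      (HomogeneousIdeal.irrelevant 𝒜).toIdeal.map f := by
  classical
  rw [← DirectSum.sum_support_decompose 𝒜 a, map_sum, Finset.sum_mul, map_sum]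
  refine Ideal.sum_mem _ fun j _ => ?_
  have hj : f (DirectSum.decompose 𝒜 a j : A) * X i ^ m ∈ homogeneousSubmodule σ k (j + m) := by
    have h1 : (X i ^ m : MvPolynomial σ k).IsHomogeneous m := by
      simpa using (isHomogeneous_X k i).pow m
    exact (hdeg j _ (SetLike.coe_mem _)).mul h1
  rw [homogeneousComponent_of_mem hj]
  split_ifs with hh
  · apply Ideal.mul_mem_right
    apply Ideal.mem_map_of_mem
    exact HomogeneousIdeal.mem_irrelevant_of_mem 𝒜 (by omega) (SetLike.coe_mem _)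
  · exact zero_mem _

theorem parb_pow {k A σ : Type} [Field k] [CommRing A] [Algebra k A]
    (𝒜 : ℕ → Submodule k A) [GradedAlgebra 𝒜] (f : A →ₐ[k] MvPolynomial σ k)
    (hf : f.toRingHom.Finite) (hdeg : ∀ n, ∀ a ∈ 𝒜 n, (f a).IsHomogeneous n) (i : σ) :
    ∃ n : ℕ, (X i : MvPolynomial σ k) ^ n ∈ (HomogeneousIdeal.irrelevant 𝒜).toIdeal.map f := by
  obtain ⟨p, hp, hp0⟩ := hf.to_isIntegral (X i)
  refine ⟨p.natDegree, ?_⟩
  rw [Polynomial.eval₂_eq_sum_range, Finset.sum_range_succ] at hp0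
  have h1 := congrArg (homogeneousComponent p.natDegree) hp0
  rw [map_add, map_zero, map_sum] at h1
  have h2 : homogeneousComponent p.natDegree
      (f.toRingHom (p.coeff p.natDegree) * (X i : MvPolynomial σ k) ^ p.natDegree) =
      X i ^ p.natDegree := by
    rw [hp.coeff_natDegree, map_one, one_mul]
    have h3 : (X i ^ p.natDegree : MvPolynomial σ k) ∈ homogeneousSubmodule σ k p.natDegree := by
      have h4 := (isHomogeneous_X k i).pow p.natDegree
      simpa using h4
    rw [homogeneousComponent_of_mem h3, if_pos rfl]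
  rw [h2] at h1
  have h5 : (X i : MvPolynomial σ k) ^ p.natDegree = -∑ m ∈ range p.natDegree,
      homogeneousComponent p.natDegree (f.toRingHom (p.coeff m) * X i ^ m) := by
    linear_combination h1
  rw [h5]
  apply neg_mem
  refine Ideal.sum_mem _ fun m hm => ?_
  exact parb_term 𝒜 f hdeg (p.coeff m) i (Finset.mem_range.1 hm)

theorem parb {k A σ : Type} [Field k] [CommRing A] [Algebra k A] [Finite σ]
    (𝒜 : ℕ → Submodule k A) [GradedAlgebra 𝒜] (f : A →ₐ[k] MvPolynomial σ k)
    (hf : f.toRingHom.Finite) (hdeg : ∀ n, ∀ a ∈ 𝒜 n, (f a).IsHomogeneous n) (J : Ideal A)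
    (N : ℕ) (hN : (HomogeneousIdeal.irrelevant 𝒜).toIdeal ^ N ≤ RingHom.ker f ⊔ J) :
    ∃ N' : ℕ, 0 < N' ∧ ∀ i : σ, (X i : MvPolynomial σ k) ^ N' ∈ J.map f := by
  classical
  have := Fintype.ofFinite σ
  choose n hn using fun i => parb_pow 𝒜 f hf hdeg i
  have hle : (RingHom.ker f ⊔ J).map f ≤ J.map f := by
    rw [Ideal.map_le_iff_le_comap, sup_le_iff]
    constructor
    · intro x hx
      rw [Ideal.mem_comap, (RingHom.mem_ker).1 hx]
      exact zero_mem _
    · exact Ideal.le_comap_map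
  have h1 : ∀ i, (X i : MvPolynomial σ k) ^ (n i * N) ∈ J.map f := by
    intro i
    rw [pow_mul]
    have h2 := Ideal.pow_mem_pow (hn i) N
    rw [← Ideal.map_pow] at h2
    exact hle (Ideal.map_mono hN h2)
  refine ⟨∑ i, n i * N + 1, Nat.succ_pos _, fun i => ?_⟩
  have h3 : n i * N ≤ ∑ i, n i * N + 1 :=
    (Finset.single_le_sum (f := fun i => n i * N) (fun _ _ => Nat.zero_le _)
      (Finset.mem_univ i)).trans (Nat.le_succ _)
  rw [← Nat.sub_add_cancel h3, pow_add]
  exact Ideal.mul_mem_left _ _ (h1 i)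

end VSQR

end S_PARB
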