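import Mathlib
import Pool.Agent.H41.VSQ.Coh

set_option autoImplicit false

/-! Very strongly quasi-regular parameters, part Poly: this file joins several modules to save build time. -/

section S_ALB

/-!
# ALB: basic facts on the automorphisms `al r`

`al_al`: compare on variables (`MvPolynomial.algHom_ext`, `cz` is additive).  `al_homog`: the
images of the variables are homogeneous of degree `1`.  `Tr_w`: the sum over
`r : Fin 3 → ZMod 2` of `∏_j (y_ij + r_j t_i)` is `∏_j (y_ij + y_ij + t_i) = t_i ^ 3`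
(`Finset.prod_univ_sum`, or `Fin.consEquiv`/`decide`-free expansion; char 2: `CharTwo.add_self_eq_zero`).
`al_nn`: `(y + c t)^2 + t (y + c t) = y^2 + t y` as `c^2 = c` for `c = cz k (r j)` and `2 = 0`.
-/

set_option autoImplicit false

namespace VSQR

open MvPolynomial Finset

variable {k : Type} [CommRing k] [CharP k 2]

theorem al_inl (r : Fin 3 → ZMod 2) (i : Fin 2) :
    al r (X (Sum.inl i) : MvPolynomial I k) = X (Sum.inl i) := by
  simp [al]

theorem al_inr (r : Fin 3 → ZMod 2) (p : Fin 2 × Fin 3) :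
    al r (X (Sum.inr p) : MvPolynomial I k) =
      X (Sum.inr p) + C (cz k (r p.2)) * X (Sum.inl p.1) := by
  simp [al]

theorem al_al (r r' : Fin 3 → ZMod 2) (s : MvPolynomial I k) : al r (al r' s) = al (r + r') s := by
  have h : (al r).comp (al r') = (al (r + r') : MvPolynomial I k →ₐ[k] MvPolynomial I k) := by
    refine MvPolynomial.algHom_ext fun i => ?_
    rw [AlgHom.comp_apply]
    cases i with
    | inl i => rw [al_inl, al_inl, al_inl]
    | inr p =>
      rw [al_inr, al_inr, map_add, map_mul, al_inr, al_inl, Pi.add_apply, map_add, C_add]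
      have hC : al r (C (cz k (r' p.2)) : MvPolynomial I k) = C (cz k (r' p.2)) :=
        (al r).commutes _
      rw [hC]
      ring
  exact DFunLike.congr_fun h s

theorem al_zero (s : MvPolynomial I k) : al 0 s = s := by
  have h : (al 0 : MvPolynomial I k →ₐ[k] MvPolynomial I k) = AlgHom.id k _ := by
    refine MvPolynomial.algHom_ext fun i => ?_
    cases i with
    | inl i => rw [al_inl]; rfl
    | inr p => rw [al_inr, Pi.zero_apply, map_zero, C_0, zero_mul, add_zero]; rfl
  exact DFunLike.congr_fun h s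

theorem al_homog (r : Fin 3 → ZMod 2) {n : ℕ} {s : MvPolynomial I k} (hs : s.IsHomogeneous n) :
    (al r s).IsHomogeneous n := by
  have h := hs.aeval (Sum.elim (fun i => X (Sum.inl i))
    (fun p => X (Sum.inr p) + C (cz k (r p.2)) * X (Sum.inl p.1)) : I → MvPolynomial I k) (n := 1)
    (by
      intro i
      cases i with
      | inl i => exact isHomogeneous_X k _
      | inr p =>
        refine (isHomogeneous_X k _).add ?_
        have := (isHomogeneous_C I (cz k (r p.2))).mul (isHomogeneous_X k (Sum.inl p.1 : I))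
        rwa [zero_add] at this)
  rw [one_mul] at h
  exact h

theorem al_Tr (r : Fin 3 → ZMod 2) (s : MvPolynomial I k) :
    al r (∑ r' : Fin 3 → ZMod 2, al r' s) = ∑ r' : Fin 3 → ZMod 2, al r' s := by
  rw [map_sum]
  simp only [al_al]
  exact Fintype.sum_equiv (Equiv.addLeft r) _ _ fun _ => rfl

/-- projection formula for the trace -/
theorem Tr_mul (a s : MvPolynomial I k) (ha : ∀ r, al r a = a) :
    ∑ r : Fin 3 → ZMod 2, al r (a * s) = a * ∑ r : Fin 3 → ZMod 2, al r s := by
  rw [Finset.mul_sum]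
  exact Finset.sum_congr rfl fun r _ => by rw [map_mul, ha]

/-- `w_i = y_i1 y_i2 y_i3` -/
noncomputable def w (k : Type) [CommRing k] (i : Fin 2) : MvPolynomial I k :=
  X (Sum.inr (i, 0)) * X (Sum.inr (i, 1)) * X (Sum.inr (i, 2))

theorem Tr_w (i : Fin 2) :
    ∑ r : Fin 3 → ZMod 2, al r (w k i) = X (Sum.inl i) ^ 3 := by
  have h1 : ∀ r : Fin 3 → ZMod 2, al r (w k i) =
      ∏ j : Fin 3, (X (Sum.inr (i, j)) + C (cz k (r j)) * X (Sum.inl i) : MvPolynomial I k) := by
    intro r
    rw [w, map_mul, map_mul, al_inr, al_inr, al_inr, Fin.prod_univ_three]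
  simp only [h1]
  have h2 := Finset.prod_univ_sum (fun _ : Fin 3 => (univ : Finset (ZMod 2)))
    (fun j c => (X (Sum.inr (i, j)) + C (cz k c) * X (Sum.inl i) : MvPolynomial I k))
  rw [Fintype.piFinset_univ] at h2
  rw [← h2]
  have h3 : ∀ j : Fin 3, ∑ c : ZMod 2,
      (X (Sum.inr (i, j)) + C (cz k c) * X (Sum.inl i) : MvPolynomial I k) = X (Sum.inl i) := by
    intro j
    have h4 : (univ : Finset (ZMod 2)) = {0, 1} := rfl
    rw [h4, Finset.sum_pair (by decide), map_zero, map_one, C_0, C_1, zero_mul, one_mul, add_zero,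
      ← add_assoc, CharTwo.add_self_eq_zero, zero_add]
  simp only [h3, Finset.prod_const, Finset.card_univ, Fintype.card_fin]

/-- `n_p = y_p ^ 2 + t_i y_p` -/
noncomputable def nn (k : Type) [CommRing k] (p : Fin 2 × Fin 3) : MvPolynomial I k :=
  X (Sum.inr p) ^ 2 + X (Sum.inl p.1) * X (Sum.inr p)

theorem al_nn (r : Fin 3 → ZMod 2) (p : Fin 2 × Fin 3) : al r (nn k p) = nn k p := by
  have hc : cz k (r p.2) * cz k (r p.2) = cz k (r p.2) := by
    rw [← map_mul]
    congr 1
    generalize r p.2 = c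
    revert c
    decide
  have hC : (C (cz k (r p.2)) * C (cz k (r p.2)) : MvPolynomial I k) = C (cz k (r p.2)) := by
    rw [← C_mul, hc]
  have h2 : (2 : MvPolynomial I k) = 0 := CharTwo.two_eq_zero
  rw [nn, map_add, map_pow, map_mul, al_inr, al_inl]
  linear_combination (X (Sum.inr p) * C (cz k (r p.2)) * X (Sum.inl p.1) +
    C (cz k (r p.2)) * X (Sum.inl p.1) ^ 2 : MvPolynomial I k) * h2 +
    (X (Sum.inl p.1) ^ 2 : MvPolynomial I k) * hC

/-- the parameters `t_i ^ M`, `n_p ^ Q` -/
noncomputable def gg (k : Type) [CommRing k] (M Q : ℕ) : I → MvPolynomial I k :=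
  Sum.elim (fun i => X (Sum.inl i) ^ M) (fun p => nn k p ^ Q)

theorem al_gg (M Q : ℕ) (r : Fin 3 → ZMod 2) (i : I) : al r (gg k M Q i) = gg k M Q i := by
  cases i with
  | inl i =>
    change al r (X (Sum.inl i) ^ M) = X (Sum.inl i) ^ M
    rw [map_pow, al_inl]
  | inr p =>
    change al r (nn k p ^ Q) = nn k p ^ Q
    rw [map_pow, al_nn]

/-- the socle monomial -/
noncomputable def s0 (k : Type) [CommRing k] (M Q : ℕ) : MvPolynomial I k :=
  X (Sum.inl 0) ^ (M - 1) * X (Sum.inl 1) ^ (M - 1) * ∏ p : Fin 2 × Fin 3, X (Sum.inr p) ^ (2 * Q - 1)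

end VSQR

end S_ALB

section S_DET

/-!
# DET: determinants and complete intersections (Wiebe)

`cramer_mem`: `m.det * v j = ∑ i, m.adjugate j i * (m.mulVec v) i`.
`det_pow`: claim: for all matrices `a`, `b` with `a x = b x = (x_l ^ N)`:
`a.det - b.det ∈ (x_l ^ N)`.  Change one row at a time (induction over a finset of rows): if `a`, `b` differ only in row `s` then
`a.det - b.det = c.det` where row `s` of `c` is `a s - b s` (`Matrix.det_updateRow_add` etc.), so
`c x` is `x_l ^ N` at `l ≠ s` and `0` at `s`; by `cramer_mem`-type formula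
`X s * c.det ∈ (X l ^ N : l ≠ s)`, a monomial ideal not involving `X s`, so
`c.det ∈ (X l ^ N : l ≠ s)` (`MvPolynomial.mem_ideal_span_monomial_image`).  Compare `a` with the
diagonal matrix `X l ^ (N - 1)`, whose determinant `∏ X l ^ (N - 1)` is not in `(X l ^ N)`.
`det_gen`: `X l ^ N = ∑ b l l' g l'` for a matrix `b`; `(b * a) x = (x_l ^ N)`, so
`(b * a).det ∉ (x_l ^ N)`.  If `a.det ∈ (g)` then `b.det * a.det ∈ b.det * (g) ≤ (x_l ^ N)` by
`cramer_mem`, contradiction.
-/

set_option autoImplicit false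

namespace VSQR

open Finset MvPolynomial

theorem cramer_mem {R ι : Type} [CommRing R] [Fintype ι] [DecidableEq ι] (m : Matrix ι ι R)
    (v : ι → R) (j : ι) : m.det * v j ∈ Ideal.span (Set.range fun i => ∑ l, m i l * v l) := by
  have h : (m.adjugate.mulVec (m.mulVec v)) j = m.det * v j := by
    rw [Matrix.mulVec_mulVec, Matrix.adjugate_mul, Matrix.smul_mulVec, Matrix.one_mulVec]
    rfl
  rw [← h]
  exact Ideal.sum_mem _ fun i _ => Ideal.mul_mem_left _ _ (Ideal.subset_span ⟨i, rfl⟩)

/-- the ideal generated by the `X l ^ N`, `l ∈ L`, in terms of monomials -/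
theorem det_mem_iff {k ι : Type} [Field k] [DecidableEq ι] (N : ℕ)
    (L : Set ι) (f : MvPolynomial ι k) :
    f ∈ Ideal.span ((fun i => (X i : MvPolynomial ι k) ^ N) '' L) ↔
      ∀ b ∈ f.support, ∃ l ∈ L, N ≤ b l := by
  have h1 : (fun i => (X i : MvPolynomial ι k) ^ N) '' L =
      (fun s => monomial s (1 : k)) '' ((fun l => Finsupp.single l N) '' L) := by
    rw [Set.image_image]
    refine Set.image_congr fun l _ => ?_
    exact X_pow_eq_monomial
  rw [h1, mem_ideal_span_monomial_image]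
  constructor
  · intro h b hb
    obtain ⟨_, ⟨l, hl, rfl⟩, h2⟩ := h b hb
    exact ⟨l, hl, Finsupp.single_le_iff.1 h2⟩
  · intro h b hb
    obtain ⟨l, hl, h2⟩ := h b hb
    exact ⟨_, ⟨l, hl, rfl⟩, Finsupp.single_le_iff.2 h2⟩

/-- `X s` is regular modulo the powers of the other variables -/
theorem det_colon {k ι : Type} [Field k] [DecidableEq ι] (N : ℕ) (s : ι)
    (f : MvPolynomial ι k)
    (hf : X s * f ∈ Ideal.span ((fun i => (X i : MvPolynomial ι k) ^ N) '' {i | i ≠ s})) :
    f ∈ Ideal.span ((fun i => (X i : MvPolynomial ι k) ^ N) '' {i | i ≠ s}) := by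
  rw [det_mem_iff] at hf ⊢
  intro b hb
  have h1 : b + Finsupp.single s 1 ∈ (X s * f).support := by
    rw [mem_support_iff, mul_comm, coeff_mul_X]
    exact mem_support_iff.1 hb
  obtain ⟨l, hl, h2⟩ := hf _ h1
  refine ⟨l, hl, ?_⟩
  have hl' : l ≠ s := hl
  rw [Finsupp.add_apply, Finsupp.single_apply, if_neg (fun h => hl' h.symm), add_zero] at h2
  exact h2

/-- change of one row -/
theorem det_row {k ι : Type} [Field k] [Fintype ι] [DecidableEq ι] (N : ℕ)
    (a b : Matrix ι ι (MvPolynomial ι k)) (ha : ∀ i, ∑ j, a i j * X j = X i ^ N)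
    (hb : ∀ i, ∑ j, b i j * X j = X i ^ N) (s : ι) (hab : ∀ i, i ≠ s → a i = b i) :
    a.det - b.det ∈ Ideal.span (Set.range fun i => (X i : MvPolynomial ι k) ^ N) := by
  have h1 : a.det - b.det = (a.updateRow s (a s - b s)).det := by
    have h2 : a.det = (a.updateRow s ((a s - b s) + b s)).det := by
      rw [sub_add_cancel, Matrix.updateRow_eq_self]
    have h3 : a.updateRow s (b s) = b := by
      ext i j : 2
      by_cases h : i = s
      · subst h
        rw [Matrix.updateRow_self]
      · rw [Matrix.updateRow_ne h, hab i h]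
    rw [Matrix.det_updateRow_add, h3] at h2
    rw [h2]
    ring
  rw [h1]
  set c := a.updateRow s (a s - b s) with hc
  have h4 : ∀ i, ∑ j, c i j * X j = if i = s then 0 else X i ^ N := by
    intro i
    by_cases h : i = s
    · subst h
      rw [if_pos rfl, hc, Matrix.updateRow_self]
      simp only [Pi.sub_apply, sub_mul, Finset.sum_sub_distrib]
      rw [ha, hb, sub_self]
    · rw [if_neg h, hc, Matrix.updateRow_ne h]
      exact ha i
  have h5 : X s * c.det ∈
      Ideal.span ((fun i => (X i : MvPolynomial ι k) ^ N) '' {i | i ≠ s}) := by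
    have h6 := cramer_mem c (fun j => (X j : MvPolynomial ι k)) s
    rw [mul_comm]
    refine (Ideal.span_le.2 ?_) h6
    rintro _ ⟨i, rfl⟩
    simp only [h4]
    by_cases h : i = s
    · rw [if_pos h]
      exact Ideal.zero_mem _
    · rw [if_neg h]
      exact Ideal.subset_span ⟨i, h, rfl⟩
  refine Ideal.span_mono ?_ (det_colon N s c.det h5)
  rintro _ ⟨i, _, rfl⟩
  exact ⟨i, rfl⟩

theorem det_diff {k ι : Type} [Field k] [Fintype ι] [DecidableEq ι] (N : ℕ)
    (a b : Matrix ι ι (MvPolynomial ι k)) (ha : ∀ i, ∑ j, a i j * X j = X i ^ N)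
    (hb : ∀ i, ∑ j, b i j * X j = X i ^ N) :
    a.det - b.det ∈ Ideal.span (Set.range fun i => (X i : MvPolynomial ι k) ^ N) := by
  have key : ∀ S : Finset ι, ∀ c : Matrix ι ι (MvPolynomial ι k),
      (∀ i ∈ S, c i = a i) → (∀ i, i ∉ S → c i = b i) →
      c.det - b.det ∈ Ideal.span (Set.range fun i => (X i : MvPolynomial ι k) ^ N) := by
    intro S
    induction S using Finset.induction_on with
    | empty =>
      intro c _ h2
      have h3 : c = b := by
        funext i
        exact h2 i (Finset.notMem_empty i)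
      rw [h3, sub_self]
      exact Ideal.zero_mem _
    | insert s S hs ih =>
      intro c h1 h2
      have h3 := ih (c.updateRow s (b s)) (by
        intro i hi
        have his : i ≠ s := fun h => hs (h ▸ hi)
        rw [Matrix.updateRow_ne his]
        exact h1 i (mem_insert_of_mem hi)) (by
        intro i hi
        by_cases h : i = s
        · subst h
          rw [Matrix.updateRow_self]
        · rw [Matrix.updateRow_ne h]
          exact h2 i (fun h' => (mem_insert.1 h').elim h hi))
      have hc : ∀ i, ∑ j, c i j * X j = X i ^ N := by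
        intro i
        by_cases h : i ∈ insert s S
        · rw [h1 i h]; exact ha i
        · rw [h2 i h]; exact hb i
      have h4 := det_row N c (c.updateRow s (b s)) hc (by
        intro i
        by_cases h : i = s
        · subst h
          rw [Matrix.updateRow_self]
          exact hb i
        · rw [Matrix.updateRow_ne h]
          exact hc i) s (by
        intro i h
        rw [Matrix.updateRow_ne h])
      have h5 := Ideal.add_mem _ h4 h3
      have h6 : c.det - (c.updateRow s (b s)).det + ((c.updateRow s (b s)).det - b.det) =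
          c.det - b.det := by ring
      rwa [h6] at h5
  exact key Finset.univ a (fun i _ => rfl) (fun i hi => absurd (mem_univ i) hi)

theorem det_pow {k ι : Type} [Field k] [Fintype ι] [DecidableEq ι] (N : ℕ) (hN : 0 < N)
    (a : Matrix ι ι (MvPolynomial ι k)) (ha : ∀ i, ∑ j, a i j * X j = X i ^ N) :
    a.det ∉ Ideal.span (Set.range fun i => (X i : MvPolynomial ι k) ^ N) := by
  intro hmem
  have hd : ∀ i, ∑ j, Matrix.diagonal (fun l => (X l : MvPolynomial ι k) ^ (N - 1)) i j * X j =
      X i ^ N := by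
    intro i
    rw [Finset.sum_eq_single i]
    · rw [Matrix.diagonal_apply_eq, ← pow_succ, Nat.sub_add_cancel hN]
    · intro j _ hji
      rw [Matrix.diagonal_apply_ne _ (Ne.symm hji), zero_mul]
    · intro h
      exact absurd (mem_univ i) h
  have h1 := det_diff N a _ ha hd
  have h2 := Ideal.sub_mem _ hmem h1
  rw [sub_sub_cancel, Matrix.det_diagonal] at h2
  have h3 : ∏ l, (X l : MvPolynomial ι k) ^ (N - 1) =
      monomial (∑ l, Finsupp.single l (N - 1)) 1 := by
    rw [monomial_sum_one]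
    exact Finset.prod_congr rfl fun l _ => X_pow_eq_monomial
  rw [h3, ← Set.image_univ, det_mem_iff] at h2
  obtain ⟨l, _, h4⟩ := h2 (∑ l, Finsupp.single l (N - 1)) (by
    rw [mem_support_iff, coeff_monomial, if_pos rfl]
    exact one_ne_zero)
  rw [Finsupp.finsetSum_apply, Finset.sum_eq_single l] at h4
  · rw [Finsupp.single_eq_same] at h4
    omega
  · intro j _ hj
    rw [Finsupp.single_apply, if_neg hj]
  · intro h
    exact absurd (mem_univ l) h

theorem det_gen {k ι : Type} [Field k] [Fintype ι] [DecidableEq ι] (N : ℕ) (hN : 0 < N)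
    (g : ι → MvPolynomial ι k)
    (hg : ∀ i, (X i : MvPolynomial ι k) ^ N ∈ Ideal.span (Set.range g))
    (a : Matrix ι ι (MvPolynomial ι k)) (ha : ∀ i, ∑ j, a i j * X j = g i) :
    a.det ∉ Ideal.span (Set.range g) := by
  intro hmem
  have h1 : ∀ i, ∃ c : ι → MvPolynomial ι k, ∑ l, c l * g l = X i ^ N := by
    intro i
    exact Ideal.mem_span_range_iff_exists_fun.1 (hg i)
  choose b hb using h1
  have h2 : ∀ i, ∑ j, ((Matrix.of b) * a) i j * X j = X i ^ N := by
    intro i
    rw [← hb i]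
    simp only [Matrix.mul_apply, Matrix.of_apply, Finset.sum_mul]
    rw [Finset.sum_comm]
    refine Finset.sum_congr rfl fun l _ => ?_
    rw [← ha l, Finset.mul_sum]
    exact Finset.sum_congr rfl fun j _ => by ring
  apply det_pow N hN _ h2
  rw [Matrix.det_mul]
  obtain ⟨c, hc⟩ := Ideal.mem_span_range_iff_exists_fun.1 hmem
  rw [← hc, Finset.mul_sum]
  refine Ideal.sum_mem _ fun l _ => ?_
  have h3 := cramer_mem (Matrix.of b) g l
  have h4 : (Matrix.of b).det * (c l * g l) = c l * ((Matrix.of b).det * g l) := by ring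
  rw [h4]
  refine Ideal.mul_mem_left _ _ ?_
  have h5 : (fun i => ∑ l, (Matrix.of b) i l * g l) =
      fun i => (X i : MvPolynomial ι k) ^ N := by
    funext i
    exact hb i
  rw [h5] at h3
  exact h3

end VSQR

end S_DET

section S_EXPA

/-!
# EXPA: homogeneous polynomials of positive degree in terms of the variables

`expand`: each monomial `x^b` of degree `n > 0` has some `b i > 0`; choose one such `i` for each
monomial.  `det_homog`: Leibniz formula.
-/

set_option autoImplicit false

namespace VSQR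

open Finset MvPolynomial

theorem expand {k σ : Type} [CommRing k] [Fintype σ] (f : MvPolynomial σ k) {n : ℕ}
    (hf : f.IsHomogeneous n) (hn : 0 < n) :
    ∃ c : σ → MvPolynomial σ k, (∀ i, (c i).IsHomogeneous (n - 1)) ∧ f = ∑ i, c i * X i := by
  classical
  have hpos : ∀ b ∈ f.support, ∃ i, b i ≠ 0 := by
    intro b hb
    by_contra hcon
    push Not at hcon
    have h1 := hf (mem_support_iff.1 hb)
    have h2 : b = 0 := Finsupp.ext hcon
    rw [h2, map_zero] at h1
    omega
  rcases isEmpty_or_nonempty σ with hσ | hσ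
  · refine ⟨fun _ => 0, fun i => isEmptyElim i, ?_⟩
    have h0 : f = 0 := by
      ext b
      by_contra hb
      rw [coeff_zero] at hb
      obtain ⟨i, _⟩ := hpos b (mem_support_iff.2 hb)
      exact isEmptyElim i
    rw [h0]
    simp
  choose! g hg using hpos
  refine ⟨fun i => ∑ b ∈ f.support.filter (fun b => g b = i),
    monomial (b - Finsupp.single i 1) (coeff b f), ?_, ?_⟩
  · intro i
    refine IsHomogeneous.sum _ _ _ fun b hb => ?_
    rw [Finset.mem_filter] at hb
    refine isHomogeneous_monomial _ ?_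
    have h1 := hf (mem_support_iff.1 hb.1)
    have h2 := hg b hb.1
    rw [hb.2] at h2
    have h3 : b - Finsupp.single i 1 + Finsupp.single i 1 = b :=
      tsub_add_cancel_of_le (Finsupp.single_le_iff.2 (Nat.one_le_iff_ne_zero.2 h2))
    have h4 : (b - Finsupp.single i 1).degree + 1 = b.degree := by
      conv_rhs => rw [← h3]
      rw [map_add, Finsupp.degree_single]
    have h5 : b.degree = n := by
      rw [Finsupp.degree_eq_weight_one]
      exact h1
    omega
  · have h1 : ∀ i, (∑ b ∈ f.support.filter (fun b => g b = i),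
        monomial (b - Finsupp.single i 1) (coeff b f)) * X i =
        ∑ b ∈ f.support.filter (fun b => g b = i), monomial b (coeff b f) := by
      intro i
      rw [Finset.sum_mul]
      refine Finset.sum_congr rfl fun b hb => ?_
      rw [Finset.mem_filter] at hb
      have h2 := hg b hb.1
      rw [hb.2] at h2
      have h3 : b - Finsupp.single i 1 + Finsupp.single i 1 = b :=
        tsub_add_cancel_of_le (Finsupp.single_le_iff.2 (Nat.one_le_iff_ne_zero.2 h2))
      rw [X, monomial_mul, h3, mul_one]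
    simp only [h1]
    have h5 := Finset.sum_fiberwise f.support g fun b => monomial b (coeff b f)
    rw [h5]
    exact f.as_sum

theorem det_homog {k σ ι : Type} [CommRing k] [Fintype ι] [DecidableEq ι]
    (m : Matrix ι ι (MvPolynomial σ k)) (n : ι → ℕ) (hm : ∀ i j, (m i j).IsHomogeneous (n i)) :
    m.det.IsHomogeneous (∑ i, n i) := by
  rw [← Matrix.det_transpose, Matrix.det_apply]
  refine IsHomogeneous.sum _ _ _ fun s _ => ?_
  have h1 : (∏ i, m.transpose (s i) i).IsHomogeneous (∑ i, n i) :=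
    IsHomogeneous.prod _ _ _ fun i _ => hm i (s i)
  rw [Units.smul_def, ← Int.cast_smul_eq_zsmul k]
  rw [smul_eq_C_mul]
  have h2 := (isHomogeneous_C σ (((Equiv.Perm.sign s : ℤˣ) : ℤ) : k)).mul h1
  rw [zero_add] at h2
  exact h2

end VSQR

end S_EXPA

section S_NORM

/-!
# NORM: invariant coefficients for a power

`norm_one`: `x ^ 2 = x * T x = ∑_i hb_i^2 s_i (T s_i) + ∑_{i<j} hb_i hb_j (s_i (T s_j) + s_j (T s_i))`, so
`s'_i = hb_i * s_i * T s_i + ∑_{j>i} hb_j * (s_i * T s_j + s_j * T s_i)` works.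
`norm_three`: apply `norm_one` three times with `T = al (Pi.single j 1)`, `j = 0, 1, 2`; these
commute and are involutions (`al_al`, `al_zero`), and every `al r` is a composite of them.  (Number the set `I` with
`Fin 8`, for instance by `Fintype.equivFinOfCardEq`.)
-/

set_option autoImplicit false

namespace VSQR

open Finset MvPolynomial

theorem norm_dsum {S : Type} [CommRing S] {n : ℕ} (a : Fin n → Fin n → S) :
    ∑ l, ∑ j, a l j = ∑ l, (a l l + ∑ j ∈ Ioi l, (a l j + a j l)) := by
  have h1 : ∀ l j : Fin n, a l j = (if j = l then a l j else 0) + ((if l < j then a l j else 0) +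
      (if j < l then a l j else 0)) := by
    intro l j
    rcases lt_trichotomy l j with h | h | h
    · rw [if_neg h.ne', if_pos h, if_neg h.le.not_gt]; ring
    · subst h; simp
    · rw [if_neg h.ne, if_neg h.le.not_gt, if_pos h]; ring
  have h2 : ∑ l, ∑ j, (if j < l then a l j else 0) = ∑ l, ∑ j, (if l < j then a j l else 0) :=
    Finset.sum_comm
  have h3 : ∀ (l : Fin n) (f : Fin n → S), ∑ j, (if l < j then f j else 0) = ∑ j ∈ Ioi l, f j := by
    intro l f
    rw [← Finset.sum_filter]
    refine Finset.sum_congr ?_ fun _ _ => rfl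
    ext j
    simp
  calc ∑ l, ∑ j, a l j = ∑ l, ∑ j, ((if j = l then a l j else 0) +
        ((if l < j then a l j else 0) + (if j < l then a l j else 0))) := by
        refine Finset.sum_congr rfl fun l _ => Finset.sum_congr rfl fun j _ => h1 l j
    _ = ∑ l, ∑ j, (if j = l then a l j else 0) + (∑ l, ∑ j, (if l < j then a l j else 0) +
        ∑ l, ∑ j, (if j < l then a l j else 0)) := by
        simp only [Finset.sum_add_distrib]
    _ = ∑ l, (a l l + ∑ j ∈ Ioi l, (a l j + a j l)) := by
        rw [h2]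
        simp only [Finset.sum_add_distrib, h3, Finset.sum_ite_eq', Finset.mem_univ, if_true]

theorem norm_one {S : Type} [CommRing S] (T : S →+* S) (hT : ∀ s, T (T s) = s) {n : ℕ}
    (hb : Fin n → S) (hhb : ∀ l, T (hb l) = hb l) (x : S) (hx : T x = x) (s : Fin n → S)
    (hs : x = ∑ l, hb l * s l) :
    ∃ s' : Fin n → S, x ^ 2 = ∑ l, hb l * s' l ∧ (∀ l, T (s' l) = s' l) ∧
      ∀ T' : S →+* S, (∀ a, T (T' a) = T' (T a)) → (∀ l, T' (hb l) = hb l) →
        (∀ l, T' (s l) = s l) → ∀ l, T' (s' l) = s' l := by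
  refine ⟨fun l => hb l * (s l * T (s l)) + ∑ j ∈ Ioi l, hb j * (s l * T (s j) + s j * T (s l)),
    ?_, ?_, ?_⟩
  · have h1 : x = ∑ j, hb j * T (s j) := by
      conv_lhs => rw [← hx, hs]
      rw [map_sum]
      refine Finset.sum_congr rfl fun j _ => ?_
      rw [map_mul, hhb]
    have h2 : x ^ 2 = ∑ l, ∑ j, (hb l * s l) * (hb j * T (s j)) := by
      rw [← Finset.sum_mul_sum, ← hs, ← h1, sq]
    rw [h2, norm_dsum]
    refine Finset.sum_congr rfl fun l _ => ?_
    rw [mul_add, Finset.mul_sum]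
    congr 1
    · ring
    · refine Finset.sum_congr rfl fun j _ => ?_
      ring
  · intro l
    rw [map_add, map_mul, map_mul, hhb, hT, map_sum]
    congr 1
    · ring
    · refine Finset.sum_congr rfl fun j _ => ?_
      rw [map_mul, map_add, map_mul, map_mul, hhb, hT, hT]
      ring
  · intro T' hc hhb' hs' l
    have h1 : ∀ l, T' (T (s l)) = T (s l) := by
      intro l
      rw [← hc, hs']
    rw [map_add, map_mul, map_mul, hhb', hs', h1, map_sum]
    congr 1
    refine Finset.sum_congr rfl fun j _ => ?_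
    rw [map_mul, map_add, map_mul, map_mul, hhb', hs', hs', h1, h1]

theorem norm_all {k : Type} [CommRing k] [CharP k 2] (s : MvPolynomial I k)
    (hs : ∀ j : Fin 3, al (Pi.single j 1) s = s) (r : Fin 3 → ZMod 2) : al r s = s := by
  classical
  let H : AddSubmonoid (Fin 3 → ZMod 2) :=
    { carrier := {r | al r s = s}
      add_mem' := by
        intro a b ha hb
        change al (a + b) s = s
        rw [← al_al]
        have ha' : al a s = s := ha
        have hb' : al b s = s := hb
        rw [hb', ha']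
      zero_mem' := al_zero s }
  have h1 : r ∈ H := by
    rw [← Finset.univ_sum_single r]
    refine AddSubmonoid.sum_mem _ fun j _ => ?_
    have h2 : r j = 0 ∨ r j = 1 := by
      generalize r j = z
      revert z
      decide
    rcases h2 with h2 | h2
    · rw [h2, Pi.single_zero]
      exact H.zero_mem
    · rw [h2]
      exact hs j
  exact h1

theorem norm_three {k : Type} [CommRing k] [CharP k 2] (x : MvPolynomial I k)
    (hx : ∀ r, al r x = x) (hb : I → MvPolynomial I k) (hhb : ∀ r i, al r (hb i) = hb i)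
    (hxs : x ∈ Ideal.span (Set.range hb)) :
    ∃ s : I → MvPolynomial I k, (∀ r i, al r (s i) = s i) ∧ x ^ 8 = ∑ i, s i * hb i := by
  classical
  obtain ⟨c, hc⟩ := Ideal.mem_span_range_iff_exists_fun.1 hxs
  let E : Fin (Fintype.card I) ≃ I := (Fintype.equivFin I).symm
  let T : Fin 3 → (MvPolynomial I k →+* MvPolynomial I k) :=
    fun j => ((al (Pi.single j 1) : MvPolynomial I k →ₐ[k] MvPolynomial I k) :
      MvPolynomial I k →+* MvPolynomial I k)
  have hTa : ∀ j s, T j s = al (Pi.single j 1) s := fun _ _ => rfl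
  have hTT : ∀ j s, T j (T j s) = s := by
    intro j s
    rw [hTa, hTa, al_al]
    have h : (Pi.single j 1 + Pi.single j 1 : Fin 3 → ZMod 2) = 0 := by
      ext i
      exact GG.tw _
    rw [h, al_zero]
  have hcomm : ∀ i j s, T i (T j s) = T j (T i s) := by
    intro i j s
    rw [hTa, hTa, hTa, hTa, al_al, al_al, add_comm]
  have hTx : ∀ j, T j x = x := fun j => hx _
  have hThb : ∀ j l, T j (hb (E l)) = hb (E l) := fun j l => hhb _ _
  obtain ⟨s0, h0, i00, -⟩ := norm_one (T 0) (hTT 0) (fun l => hb (E l)) (hThb 0) x (hTx 0)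
    (fun l => c (E l)) (by
      rw [← hc, ← E.sum_comp]
      exact Finset.sum_congr rfl fun l _ => mul_comm _ _)
  obtain ⟨s1, h1, i11, q1⟩ := norm_one (T 1) (hTT 1) (fun l => hb (E l)) (hThb 1) (x ^ 2)
    (by rw [map_pow, hTx]) s0 h0
  have i10 := q1 (T 0) (hcomm 1 0) (hThb 0) i00
  obtain ⟨s2, h2, i22, q2⟩ := norm_one (T 2) (hTT 2) (fun l => hb (E l)) (hThb 2) ((x ^ 2) ^ 2)
    (by rw [map_pow, map_pow, hTx]) s1 h1
  have i21 := q2 (T 1) (hcomm 2 1) (hThb 1) i11
  have i20 := q2 (T 0) (hcomm 2 0) (hThb 0) i10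
  refine ⟨fun i => s2 (E.symm i), ?_, ?_⟩
  · intro r i
    refine norm_all _ (fun j => ?_) r
    fin_cases j
    · exact i20 _
    · exact i21 _
    · exact i22 _
  · have h3 : x ^ 8 = ((x ^ 2) ^ 2) ^ 2 := by ring
    rw [h3, h2, ← E.sum_comp]
    refine Finset.sum_congr rfl fun l _ => ?_
    change hb (E l) * s2 l = s2 (E.symm (E l)) * hb (E l)
    rw [E.symm_apply_apply, mul_comm]

end VSQR

end S_NORM

section S_MU

/-!
# MU: the parameters `gg` in terms of the `hb`, with invariant coefficients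

`M = 8 * N`, `2 ^ e ≥ 8 * N + 3`.  `t_i ^ N` is invariant and in `(hb)`, so by `norm_three`
`t_i ^ (8 N) = ∑ s_i hb_i`, `s_i` invariant.  `nn p ^ N = y_p ^ N * (y_p + t_i) ^ N` is
invariant (`al_nn`) and in `(hb)`, so `nn p ^ (8 N) = ∑ s_i hb_i`, and
`nn p ^ (2 ^ e) = nn p ^ (2 ^ e - 8 N) * nn p ^ (8 N)`.
-/

set_option autoImplicit false

namespace VSQR

open Finset MvPolynomial

theorem mu_exists {k : Type} [Field k] [CharP k 2] (hb : I → MvPolynomial I k)
    (hinv : ∀ r i, al r (hb i) = hb i) (N : ℕ) (hN : 0 < N)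
    (hX : ∀ i, (X i : MvPolynomial I k) ^ N ∈ Ideal.span (Set.range hb)) :
    ∃ (M e : ℕ) (μ : Matrix I I (MvPolynomial I k)), 1 ≤ M ∧ M + 3 ≤ 2 ^ e ∧
      (∀ r i j, al r (μ i j) = μ i j) ∧ ∀ i, gg k M (2 ^ e) i = ∑ j, μ i j * hb j := by
  have hle : 8 * N + 3 ≤ 2 ^ (8 * N + 3) := Nat.lt_two_pow_self.le
  have key : ∀ i : I, ∃ s : I → MvPolynomial I k, (∀ r j, al r (s j) = s j) ∧
      gg k (8 * N) (2 ^ (8 * N + 3)) i = ∑ j, s j * hb j := by
    rintro (i | p)
    · obtain ⟨s, hs1, hs2⟩ := norm_three ((X (Sum.inl i) : MvPolynomial I k) ^ N) (by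
        intro r
        rw [map_pow, al_inl]) hb hinv (hX (Sum.inl i))
      refine ⟨s, hs1, ?_⟩
      rw [← hs2, ← pow_mul, mul_comm N 8]
      rfl
    · obtain ⟨s, hs1, hs2⟩ := norm_three (nn k p ^ N) (by
        intro r
        rw [map_pow, al_nn]) hb hinv (by
        have h1 : nn k p ^ N = X (Sum.inr p) ^ N * (X (Sum.inr p) + X (Sum.inl p.1)) ^ N := by
          rw [← mul_pow]
          congr 1
          unfold nn
          ring
        rw [h1]
        exact Ideal.mul_mem_right _ _ (hX (Sum.inr p)))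
      refine ⟨fun j => nn k p ^ (2 ^ (8 * N + 3) - 8 * N) * s j, ?_, ?_⟩
      · intro r j
        rw [map_mul, map_pow, al_nn, hs1]
      · have h2 : gg k (8 * N) (2 ^ (8 * N + 3)) (Sum.inr p) =
            nn k p ^ (2 ^ (8 * N + 3) - 8 * N) * (nn k p ^ N) ^ 8 := by
          rw [← pow_mul, mul_comm N 8, ← pow_add, Nat.sub_add_cancel (by omega)]
          rfl
        rw [h2, hs2, Finset.mul_sum]
        exact Finset.sum_congr rfl fun j _ => by ring
  choose μ hμ1 hμ2 using key
  exact ⟨8 * N, 8 * N + 3, μ, by omega, hle, fun r i j => hμ1 i r j, hμ2⟩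

end VSQR

end S_MU

section S_SOC

/-!
# SOC: socles of monomial complete intersections; the ideal of the parameters `gg`

`soc`: the ideal is a monomial ideal (`MvPolynomial.mem_ideal_span_monomial_image`): a polynomial
is in it iff each monomial `x^b` in its support has some `b l ≥ m l`.  If `x^b` is in the support of
`f` with all `b l < m l`, then `x_l x^b` is in the support of `X l * f`, so `b l + 1 ≥ m l`
for all `l`: `b = m - 1`.
`span_gg`: `nn k p ^ Q = X (inr p) ^ (2 * Q) + X (inl p.1) ^ Q * X (inr p) ^ Q` for `Q = 2 ^ e`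
(characteristic two: `add_pow_char_pow`), and `Q ≥ M`.
-/

set_option autoImplicit false

namespace VSQR

open Finset MvPolynomial

/-- the ideal generated by the `X l ^ m l` in terms of monomials -/
theorem soc_mem_iff {k ι : Type} [Field k] (m : ι → ℕ)
    (f : MvPolynomial ι k) :
    f ∈ Ideal.span (Set.range fun i => (X i : MvPolynomial ι k) ^ m i) ↔
      ∀ b ∈ f.support, ∃ l, m l ≤ b l := by
  have h1 : (Set.range fun i => (X i : MvPolynomial ι k) ^ m i) =
      (fun s => monomial s (1 : k)) '' (Set.range fun l => Finsupp.single l (m l)) := by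
    rw [← Set.range_comp]
    congr 1
    funext l
    exact X_pow_eq_monomial
  rw [h1, mem_ideal_span_monomial_image]
  constructor
  · intro h b hb
    obtain ⟨_, ⟨l, rfl⟩, h2⟩ := h b hb
    exact ⟨l, Finsupp.single_le_iff.1 h2⟩
  · intro h b hb
    obtain ⟨l, h2⟩ := h b hb
    exact ⟨_, ⟨l, rfl⟩, Finsupp.single_le_iff.2 h2⟩

theorem soc {k ι : Type} [Field k] [Fintype ι] [DecidableEq ι] (m : ι → ℕ) (hm : ∀ i, 0 < m i)
    (f : MvPolynomial ι k)
    (hf : ∀ l, X l * f ∈ Ideal.span (Set.range fun i => (X i : MvPolynomial ι k) ^ m i)) :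
    ∃ c : k, f - C c * ∏ l, X l ^ (m l - 1) ∈
      Ideal.span (Set.range fun i => (X i : MvPolynomial ι k) ^ m i) := by
  set b0 : ι →₀ ℕ := ∑ l, Finsupp.single l (m l - 1) with hb0
  have hb0l : ∀ l, b0 l = m l - 1 := by
    intro l
    rw [hb0, Finsupp.finsetSum_apply, Finset.sum_eq_single l]
    · rw [Finsupp.single_eq_same]
    · intro j _ hj
      rw [Finsupp.single_apply, if_neg hj]
    · intro h
      exact absurd (mem_univ l) h
  have h3 : ∏ l, (X l : MvPolynomial ι k) ^ (m l - 1) = monomial b0 1 := by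
    rw [hb0, monomial_sum_one]
    exact Finset.prod_congr rfl fun l _ => X_pow_eq_monomial
  refine ⟨coeff b0 f, ?_⟩
  rw [h3, C_mul_monomial, mul_one, soc_mem_iff]
  intro b hb
  rw [mem_support_iff, coeff_sub, coeff_monomial] at hb
  by_contra hcon
  push Not at hcon
  have hne : b0 ≠ b := by
    intro h
    rw [if_pos h, h, sub_self] at hb
    exact hb rfl
  rw [if_neg hne, sub_zero] at hb
  apply hne
  ext l
  have h1 : b + Finsupp.single l 1 ∈ (X l * f).support := by
    rw [mem_support_iff, mul_comm, coeff_mul_X]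
    exact hb
  obtain ⟨i, hi⟩ := (soc_mem_iff m _).1 (hf l) _ h1
  rw [Finsupp.add_apply, Finsupp.single_apply] at hi
  have h2 := hcon i
  by_cases hil : l = i
  · subst hil
    rw [if_pos rfl] at hi
    rw [hb0l]
    omega
  · rw [if_neg hil] at hi
    omega

/-- the exponents -/
def mm (M Q : ℕ) : I → ℕ := Sum.elim (fun _ => M) (fun _ => 2 * Q)

theorem nn_pow {k : Type} [CommRing k] [CharP k 2] (e : ℕ) (p : Fin 2 × Fin 3) :
    nn k p ^ (2 ^ e) = X (Sum.inr p) ^ (2 * 2 ^ e) +
      X (Sum.inl p.1) ^ (2 ^ e) * X (Sum.inr p) ^ (2 ^ e) := by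
  have : Fact (Nat.Prime 2) := ⟨Nat.prime_two⟩
  unfold nn
  rw [add_pow_char_pow (p := 2), ← pow_mul, mul_pow]

theorem span_gg {k : Type} [CommRing k] [CharP k 2] (M e : ℕ) (hM : M ≤ 2 ^ e) :
    Ideal.span (Set.range (gg k M (2 ^ e))) =
      Ideal.span (Set.range fun i => (X i : MvPolynomial I k) ^ mm M (2 ^ e) i) := by
  have hinl : ∀ J : Ideal (MvPolynomial I k), ∀ i : Fin 2,
      (X (Sum.inl i) : MvPolynomial I k) ^ M ∈ J → ∀ s : MvPolynomial I k,
      X (Sum.inl i) ^ (2 ^ e) * s ∈ J := by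
    intro J i hi s
    obtain ⟨d, hd⟩ := Nat.exists_eq_add_of_le hM
    rw [hd, pow_add, mul_assoc]
    exact Ideal.mul_mem_right _ _ hi
  apply le_antisymm
  · rw [Ideal.span_le]
    rintro _ ⟨i | p, rfl⟩
    · exact Ideal.subset_span ⟨Sum.inl i, rfl⟩
    · change nn k p ^ (2 ^ e) ∈ _
      rw [nn_pow]
      have h9 : (X (Sum.inl p.1) : MvPolynomial I k) ^ M ∈
          Ideal.span (Set.range fun i => (X i : MvPolynomial I k) ^ mm M (2 ^ e) i) :=
        Ideal.subset_span ⟨Sum.inl p.1, rfl⟩
      exact Ideal.add_mem _ (Ideal.subset_span ⟨Sum.inr p, rfl⟩) (hinl _ p.1 h9 _)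
  · rw [Ideal.span_le]
    rintro _ ⟨i | p, rfl⟩
    · exact Ideal.subset_span ⟨Sum.inl i, rfl⟩
    · change (X (Sum.inr p) : MvPolynomial I k) ^ (2 * 2 ^ e) ∈ _
      have h1 := nn_pow (k := k) e p
      have h2 : (X (Sum.inr p) : MvPolynomial I k) ^ (2 * 2 ^ e) = nn k p ^ (2 ^ e) -
          X (Sum.inl p.1) ^ (2 ^ e) * X (Sum.inr p) ^ (2 ^ e) := by
        rw [h1]
        ring
      rw [h2]
      have h9 : (X (Sum.inl p.1) : MvPolynomial I k) ^ M ∈
          Ideal.span (Set.range (gg k M (2 ^ e))) :=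
        Ideal.subset_span ⟨Sum.inl p.1, rfl⟩
      exact Ideal.sub_mem _ (Ideal.subset_span ⟨Sum.inr p, rfl⟩) (hinl _ p.1 h9 _)

theorem s0_eq (k : Type) [CommRing k] (M Q : ℕ) :
    s0 k M Q = ∏ i, (X i : MvPolynomial I k) ^ (mm M Q i - 1) := by
  rw [Fintype.prod_sum_type]
  unfold s0
  congr 1
  rw [Fin.prod_univ_two]
  rfl

end VSQR

end S_SOC

section S_INVA

/-!
# INVA: the invariant coefficient functionals

`al r` is a composition of elementary substitutions `y_p ↦ y_p + c t_i`; for each of them the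
coefficient at an exponent `E` with `E y_p = 2Q-1`, `E t_i ≤ 2Q-1` is invariant, because the binomial
coefficient `choose (2Q-1+d) (2Q-1)` is even for `1 ≤ d ≤ 2Q-1`, `Q = 2^e`.
-/

set_option autoImplicit false

namespace VSQR

open Finset MvPolynomial

/-- the exponent `(a, b)` at `t_1, t_2` and `2 Q - 1` at all `y_p` -/
noncomputable def ex (Q a b : ℕ) : I →₀ ℕ :=
  Finsupp.equivFunOnFinite.symm (Sum.elim ![a, b] fun _ => 2 * Q - 1)

private theorem choose_even (e n k : ℕ) (hk : k = 2 * 2 ^ e - 1) (hkn : k < n)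
    (hn : n - k ≤ 2 * 2 ^ e - 1) : 2 ∣ n.choose k := by
  obtain ⟨d, rfl⟩ := Nat.exists_eq_add_of_lt hkn
  have hpos : 0 < 2 ^ e := by positivity
  have h1 : (k + d + 1).choose k = (k + d + 1).choose (d + 1) := by
    rw [← Nat.choose_symm (n := k + d + 1) (k := k) (by omega)]
    congr 1
    omega
  rw [h1]
  have h2 := Nat.choose_succ_right_eq (k + d + 1) d
  have h3 : k + d + 1 - d = 2 ^ (e + 1) := by
    rw [pow_succ]; omega
  rw [h3] at h2
  by_contra hodd
  have hcop : Nat.Coprime (2 ^ (e + 1)) ((k + d + 1).choose (d + 1)) := by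
    apply Nat.Coprime.pow_left
    rwa [Nat.Prime.coprime_iff_not_dvd Nat.prime_two]
  have h4 : 2 ^ (e + 1) ∣ (k + d + 1).choose (d + 1) * (d + 1) := by
    rw [h2]
    exact Dvd.intro_left _ rfl
  have h5 : 2 ^ (e + 1) ∣ d + 1 := hcop.dvd_of_dvd_mul_left h4
  have h6 := Nat.le_of_dvd (by omega) h5
  rw [pow_succ] at h6
  omega

/-- elementary substitution `X p ↦ X p + c X q` -/
private noncomputable def phi {k σ : Type} [CommRing k] [DecidableEq σ] (p q : σ) (c : k) :
    MvPolynomial σ k →ₐ[k] MvPolynomial σ k :=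
  aeval (Function.update X p (X p + C c * X q))

private theorem phi_mono {k σ : Type} [CommRing k] [DecidableEq σ] (p q : σ) (c : k)
    (u : σ →₀ ℕ) (hu : u p = 0) : phi p q c (monomial u (1 : k)) = monomial u 1 := by
  rw [phi, aeval_monomial, map_one, one_mul, monomial_eq, C_1, one_mul]
  apply Finsupp.prod_congr
  intro x hx
  have : x ≠ p := by
    rintro rfl
    exact (Finsupp.mem_support_iff.1 hx) hu
  rw [Function.update_of_ne this]

private theorem coeff_phi_mono {k σ : Type} [CommRing k] [CharP k 2] [DecidableEq σ] (p q : σ)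
    (hpq : p ≠ q) (c : k) (e : ℕ) (E : σ →₀ ℕ) (hp : E p = 2 * 2 ^ e - 1)
    (hq : E q ≤ 2 * 2 ^ e - 1) (u : σ →₀ ℕ) :
    coeff E (phi p q c (monomial u 1)) = coeff E (monomial u (1 : k)) := by
  have hu : monomial u (1 : k) = monomial (u.erase p) 1 * X p ^ (u p) := by
    rw [X_pow_eq_monomial, monomial_mul, one_mul, Finsupp.erase_add_single]
  have h1 : phi p q c (monomial u 1) = ∑ m ∈ range (u p + 1),
      monomial (u.erase p + Finsupp.single p m + Finsupp.single q (u p - m))
        (c ^ (u p - m) * ((u p).choose m : k)) := by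
    rw [hu, map_mul, phi_mono p q c _ (by simp), map_pow]
    have : phi p q c (X p) = X p + C c * X q := by simp [phi]
    rw [this, add_pow, Finset.mul_sum]
    apply Finset.sum_congr rfl
    intro m _
    rw [mul_pow, ← C_pow, X_pow_eq_monomial, X_pow_eq_monomial, ← map_natCast (C : k →+* _)]
    simp only [C_apply, monomial_mul, zero_add, add_zero, one_mul, mul_one]
    congr 1
    rw [add_assoc]
  rw [h1, coeff_sum, Finset.sum_range_succ, Finset.sum_eq_zero, zero_add]
  · simp only [Nat.sub_self, pow_zero, Nat.choose_self, Nat.cast_one, mul_one,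
      Finsupp.single_zero, add_zero, Finsupp.erase_add_single]
  · intro m hm
    rw [Finset.mem_range] at hm
    rw [coeff_monomial]
    split_ifs with h
    · have hmp : m = 2 * 2 ^ e - 1 := by
        rw [← hp, ← h]
        simp [hpq.symm]
      have hmq : u p - m ≤ 2 * 2 ^ e - 1 := by
        refine le_trans ?_ hq
        rw [← h]
        simp
      have h2 := choose_even e (u p) m hmp hm hmq
      rw [(CharP.cast_eq_zero_iff k 2 _).2 h2, mul_zero]
    · rfl

private theorem coeff_phi {k σ : Type} [CommRing k] [CharP k 2] [DecidableEq σ] (p q : σ)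
    (hpq : p ≠ q) (c : k) (e : ℕ) (E : σ →₀ ℕ) (hp : E p = 2 * 2 ^ e - 1)
    (hq : E q ≤ 2 * 2 ^ e - 1) (f : MvPolynomial σ k) :
    coeff E (phi p q c f) = coeff E f := by
  have h : (lcoeff k E).comp (phi p q c).toLinearMap = lcoeff k E := by
    apply (basisMonomials σ k).ext
    intro u
    simpa [coe_basisMonomials] using coeff_phi_mono p q hpq c e E hp hq u
  exact LinearMap.congr_fun h f

open scoped Classical in
/-- partial automorphism -/
private noncomputable def alS {k : Type} [CommRing k] [CharP k 2] (r : Fin 3 → ZMod 2)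
    (S : Finset (Fin 2 × Fin 3)) : MvPolynomial I k →ₐ[k] MvPolynomial I k :=
  aeval (Sum.elim (fun i => X (Sum.inl i))
    (fun p => X (Sum.inr p) + if p ∈ S then C (cz k (r p.2)) * X (Sum.inl p.1) else 0))

private theorem alS_univ {k : Type} [CommRing k] [CharP k 2] (r : Fin 3 → ZMod 2) :
    alS (k := k) r univ = al r := by
  simp [alS, al]

private theorem alS_empty {k : Type} [CommRing k] [CharP k 2] (r : Fin 3 → ZMod 2) :
    alS (k := k) r ∅ = AlgHom.id k _ := by
  apply MvPolynomial.algHom_ext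
  intro i
  rcases i with i | p <;> simp [alS]

private theorem alS_insert {k : Type} [CommRing k] [CharP k 2] (r : Fin 3 → ZMod 2)
    (S : Finset (Fin 2 × Fin 3)) (p : Fin 2 × Fin 3) (hp : p ∉ S) :
    alS (k := k) r (insert p S) =
      (alS r S).comp (phi (Sum.inr p) (Sum.inl p.1) (cz k (r p.2))) := by
  apply MvPolynomial.algHom_ext
  intro i
  rcases i with i | p'
  · simp [alS, phi]
  · by_cases h : p' = p
    · subst h
      simp [alS, phi, hp]
    · simp [alS, phi, h]

theorem coeff_al {k : Type} [CommRing k] [CharP k 2] (e a b : ℕ) (ha : a + 1 ≤ 2 * 2 ^ e)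
    (hb : b + 1 ≤ 2 * 2 ^ e) (r : Fin 3 → ZMod 2) (f : MvPolynomial I k) :
    coeff (ex (2 ^ e) a b) (al r f) = coeff (ex (2 ^ e) a b) f := by
  classical
  have key : ∀ (S : Finset (Fin 2 × Fin 3)) (f : MvPolynomial I k),
      coeff (ex (2 ^ e) a b) (alS r S f) = coeff (ex (2 ^ e) a b) f := by
    intro S
    induction S using Finset.induction_on with
    | empty => intro f; rw [alS_empty]; rfl
    | insert p S hp ih =>
      intro f
      rw [alS_insert r S p hp, AlgHom.comp_apply, ih]
      apply coeff_phi _ _ (by simp) _ e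
      · simp [ex]
      · simp only [ex, Finsupp.equivFunOnFinite_symm_apply_apply, Sum.elim_inl]
        have : ∀ i : Fin 2, (![a, b] : Fin 2 → ℕ) i ≤ 2 * 2 ^ e - 1 := by
          intro i
          fin_cases i
          · simp; omega
          · simp; omega
        exact this p.1
  rw [← alS_univ, key]

end VSQR

end S_INVA

section S_INVB

/-!
# INVB: the socle element has no invariant expression

Write `Q = 2 ^ e`, `L a b f = coeff (ex Q a b) f`, `Tr f = ∑ r, al r f`.  By `coeff_al` and
`al r (al r f) = f`: `L a b (u * Tr v) = L a b (Tr u * v)` (`adj`) for `a, b < 2Q`.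
`L (M+2) (M-1) (w 0 * Tr s0) = L (M+2) (M-1) (t_1^3 * s0) = 1`.
On the other hand `L (M+2) (M-1) (w 0 * (gg i * a i)) = 0` for every `i`:
* `gg = t_1^M`: `L (M+2) (M-1) (t_1^M * (w 0 * a)) = L 2 (M-1) (w 0 * a)
  = L 2 (M+2) (t_2^3 * (w 0 * a)) = L 2 (M+2) (Tr (w 1) * (w 0 * a)) = L 2 (M+2) (w 1 * Tr (w 0 * a))
  = L 2 (M+2) (w 1 * (t_1^3 * a)) = 0`, the exponent of `t_1` being `2 < 3` (`Tr_mul`, `Tr_w`);
* `gg = t_2^M`: zero as `M - 1 < M`;
* `gg = nn p ^ Q = y_p^(2Q) + t_i^Q y_p^Q` (`nn_pow`): zero as `2Q - 1 < 2Q` and `M + 2 < Q`.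
-/

set_option autoImplicit false

namespace VSQR

open Finset MvPolynomial

section invb_aux

variable {k : Type} [CommRing k]

theorem invb_cX (i : I) (n : ℕ) (m : I →₀ ℕ) (f : MvPolynomial I k) :
    coeff m (X i ^ n * f) = if n ≤ m i then coeff (m - Finsupp.single i n) f else 0 := by
  rw [X_pow_eq_monomial, coeff_monomial_mul']
  have h : Finsupp.single i n ≤ m ↔ n ≤ m i := by
    rw [Finsupp.single_le_iff]
  simp only [h, one_mul]

theorem invb_ex0 (Q a b : ℕ) : ex Q a b (Sum.inl 0) = a := rfl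
theorem invb_ex1 (Q a b : ℕ) : ex Q a b (Sum.inl 1) = b := rfl
theorem invb_exr (Q a b : ℕ) (p : Fin 2 × Fin 3) : ex Q a b (Sum.inr p) = 2 * Q - 1 := rfl

theorem invb_sub0 (Q a b n : ℕ) :
    ex Q (a + n) b - Finsupp.single (Sum.inl 0) n = ex Q a b := by
  ext i
  rcases i with i | p
  · fin_cases i
    · simp [invb_ex0]
    · simp [invb_ex1]
  · simp [invb_exr]

theorem invb_sub1 (Q a b n : ℕ) :
    ex Q a (b + n) - Finsupp.single (Sum.inl 1) n = ex Q a b := by
  ext i
  rcases i with i | p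
  · fin_cases i
    · simp [invb_ex0]
    · simp [invb_ex1]
  · simp [invb_exr]

variable [CharP k 2]

theorem invb_adj (e a b : ℕ) (ha : a + 1 ≤ 2 * 2 ^ e)
    (hb : b + 1 ≤ 2 * 2 ^ e) (u v : MvPolynomial I k) :
    coeff (ex (2 ^ e) a b) (u * ∑ r : Fin 3 → ZMod 2, al r v) =
      coeff (ex (2 ^ e) a b) ((∑ r : Fin 3 → ZMod 2, al r u) * v) := by
  rw [Finset.mul_sum, Finset.sum_mul, coeff_sum, coeff_sum]
  refine Finset.sum_congr rfl fun r _ => ?_
  have h1 : al r (al r u) = u := by
    rw [al_al]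
    have : r + r = 0 := by
      ext j
      exact GG.tw (r j)
    rw [this, al_zero]
  have h2 : u * al r v = al r (al r u * v) := by
    rw [map_mul, h1]
  rw [h2, coeff_al e a b ha hb]

omit [CharP k 2] in
theorem invb_s0 (M Q : ℕ) (hM : 1 ≤ M) :
    coeff (ex Q (M + 2) (M - 1)) (X (Sum.inl 0) ^ 3 * s0 k M Q) = 1 := by
  have h : X (Sum.inl 0) ^ 3 * s0 k M Q = monomial (ex Q (M + 2) (M - 1)) (1 : k) := by
    rw [s0, monomial_eq, C_1, one_mul, Finsupp.prod_fintype _ _ (fun i => pow_zero _),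
      Fintype.prod_sum_type, Fin.prod_univ_two]
    rw [invb_ex0, invb_ex1]
    simp only [invb_exr]
    have h3 : M + 2 = 3 + (M - 1) := by omega
    rw [h3, pow_add]
    ring
  rw [h, coeff_monomial, if_pos rfl]

end invb_aux

theorem invb {k : Type} [Field k] [CharP k 2] (e M : ℕ) (hM : 1 ≤ M) (hQ : M + 3 ≤ 2 ^ e)
    (a : I → MvPolynomial I k) (ha : ∀ r i, al r (a i) = a i)
    (hs : ∑ r : Fin 3 → ZMod 2, al r (s0 k M (2 ^ e)) = ∑ i, gg k M (2 ^ e) i * a i) :
    False := by
  have h1 : coeff (ex (2 ^ e) (M + 2) (M - 1)) (w k 0 * ∑ r : Fin 3 → ZMod 2,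
      al r (s0 k M (2 ^ e))) = 1 := by
    rw [invb_adj e (M + 2) (M - 1) (by omega) (by omega), Tr_w, invb_s0 M _ hM]
  have h2 : ∀ i : I, coeff (ex (2 ^ e) (M + 2) (M - 1)) (w k 0 * (gg k M (2 ^ e) i * a i)) = 0 := by
    intro i
    rcases i with i | p
    · have hgg : gg k M (2 ^ e) (Sum.inl i) = X (Sum.inl i) ^ M := rfl
      rw [hgg]
      fin_cases i
      · simp only [Fin.zero_eta]
        have e1 : w k 0 * (X (Sum.inl 0) ^ M * a (Sum.inl 0)) =
            X (Sum.inl 0) ^ M * (w k 0 * a (Sum.inl 0)) := by ring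
        rw [e1, invb_cX, if_pos (by rw [invb_ex0]; omega), show M + 2 = 2 + M from by ring,
          invb_sub0]
        have e2 : coeff (ex (2 ^ e) 2 (M - 1)) (w k 0 * a (Sum.inl 0)) =
            coeff (ex (2 ^ e) 2 (M + 2)) (X (Sum.inl 1) ^ 3 * (w k 0 * a (Sum.inl 0))) := by
          rw [invb_cX, if_pos (by rw [invb_ex1]; omega), show M + 2 = (M - 1) + 3 from by omega,
            invb_sub1]
        rw [e2, ← Tr_w, ← invb_adj e 2 (M + 2) (by omega) (by omega)]
        have e3 : ∑ r : Fin 3 → ZMod 2, al r (w k 0 * a (Sum.inl 0)) =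
            X (Sum.inl 0) ^ 3 * a (Sum.inl 0) := by
          rw [mul_comm, Tr_mul _ _ (fun r => ha r _), Tr_w, mul_comm]
        rw [e3, mul_left_comm, invb_cX, if_neg (by rw [invb_ex0]; omega)]
      · simp only [Fin.mk_one]
        rw [mul_left_comm, invb_cX, if_neg (by rw [invb_ex1]; omega)]
    · have hgg : gg k M (2 ^ e) (Sum.inr p) = nn k p ^ (2 ^ e) := rfl
      rw [hgg, nn_pow]
      have e1 : w k 0 * ((X (Sum.inr p) ^ (2 * 2 ^ e) + X (Sum.inl p.1) ^ 2 ^ e *
          X (Sum.inr p) ^ 2 ^ e) * a (Sum.inr p)) =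
          X (Sum.inr p) ^ (2 * 2 ^ e) * (w k 0 * a (Sum.inr p)) +
          X (Sum.inl p.1) ^ 2 ^ e * (X (Sum.inr p) ^ 2 ^ e * (w k 0 * a (Sum.inr p))) := by ring
      rw [e1, coeff_add, invb_cX, if_neg (by rw [invb_exr]; omega), invb_cX, if_neg, add_zero]
      rcases p with ⟨p1, p2⟩
      fin_cases p1
      · simp only [Fin.zero_eta]
        rw [invb_ex0]
        omega
      · simp only [Fin.mk_one]
        rw [invb_ex1]
        omega
  rw [hs, Finset.mul_sum, coeff_sum, Finset.sum_eq_zero fun i _ => h2 i] at h1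
  exact zero_ne_one h1

end VSQR

end S_INVB

section S_MAINB

/-!
# MAINB: the contradiction in the polynomial ring

Take `M, e, μ` from `mu_exists`, `g = gg k M (2 ^ e)`, `a = μ * m`; `a x = g`.
* `X i ^ (2 * 2 ^ e) ∈ (g)` (`span_gg`), so `a.det ∉ (g)` (`det_gen`); `X l * a.det ∈ (g)` (`cramer_mem`).
* `soc` with `span_gg`, `s0_eq`: `a.det = C c * s0 + q`, `q ∈ (g)`, so `c ≠ 0`.
* `a.det = μ.det * m.det`, `μ.det` is invariant, so `Tr a.det = μ.det * Tr m.det =
  μ.det * ∑ hb_i u_i`, and `μ.det * hb_i = ∑_j μ.adjugate i j * g_j` with invariant coefficients; so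
  `Tr a.det = ∑ g_j b_j`, `b_j` invariant (`Matrix.adjugate` of an invariant matrix is invariant:
  `RingHom.map_adjugate`, `RingHom.map_det`).
* `q = ∑ g_j v_j`, so `Tr q = ∑ g_j Tr v_j` (`Tr_mul`, `al_gg`, `al_Tr`).
* `C c * Tr s0 = Tr a.det - Tr q`; divide by `c`; contradiction with `invb`.
-/

set_option autoImplicit false

namespace VSQR

open Finset MvPolynomial

theorem mainB_det_inv {k : Type} [Field k] [CharP k 2] (μ : Matrix I I (MvPolynomial I k))
    (hμ : ∀ r i j, al r (μ i j) = μ i j) (r : Fin 3 → ZMod 2) : al r μ.det = μ.det := by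
  have h := (al r : MvPolynomial I k →ₐ[k] MvPolynomial I k).map_det μ
  rw [h]
  congr 1
  ext1 i j
  exact hμ r i j

theorem mainB_adj_inv {ι S : Type} [CommRing S] [Fintype ι] [DecidableEq ι] (f : S →+* S)
    (μ : Matrix ι ι S) (hμ : ∀ i j, f (μ i j) = μ i j) (i j : ι) :
    f (μ.adjugate i j) = μ.adjugate i j := by
  have h := f.map_adjugate μ
  have h2 : f.mapMatrix μ = μ := by
    ext1 i j
    exact hμ i j
  rw [h2] at h
  have h3 : (f.mapMatrix μ.adjugate) i j = μ.adjugate i j := by rw [h]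
  rw [RingHom.mapMatrix_apply, Matrix.map_apply] at h3
  exact h3

theorem mainB_alg {ι S : Type} [CommRing S] [Fintype ι] [DecidableEq ι] (μ : Matrix ι ι S)
    (hb g u : ι → S) (hg : ∀ i, g i = ∑ j, μ i j * hb j) :
    μ.det * ∑ i, hb i * u i = ∑ j, g j * ∑ i, μ.adjugate i j * u i := by
  have h2 : ∀ i, μ.det * hb i = ∑ j, μ.adjugate i j * g j := by
    intro i
    have h3 : (μ.adjugate * μ).mulVec hb i = μ.adjugate.mulVec (μ.mulVec hb) i := by
      rw [Matrix.mulVec_mulVec]
    rw [Matrix.adjugate_mul, Matrix.smul_mulVec, Matrix.one_mulVec] at h3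
    have h4 : μ.mulVec hb = g := by
      funext j
      rw [hg j]
      rfl
    rw [h4] at h3
    exact h3
  rw [Finset.mul_sum]
  simp_rw [← mul_assoc, h2, Finset.sum_mul, Finset.mul_sum]
  rw [Finset.sum_comm]
  refine Finset.sum_congr rfl fun j _ => Finset.sum_congr rfl fun l _ => ?_
  ring

theorem mainB_x {ι S : Type} [CommRing S] [Fintype ι] (μ m : Matrix ι ι S)
    (hb g x : ι → S) (hm : ∀ i, hb i = ∑ j, m i j * x j) (hg : ∀ i, g i = ∑ j, μ i j * hb j)
    (i : ι) : ∑ j, (μ * m) i j * x j = g i := by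
  rw [hg i]
  simp_rw [hm, Matrix.mul_apply, Finset.sum_mul, Finset.mul_sum]
  rw [Finset.sum_comm]
  refine Finset.sum_congr rfl fun j _ => Finset.sum_congr rfl fun l _ => ?_
  ring

/-- the descent of a relation along the trace, in an abstract ring with operators -/
theorem mainB_tr {ι R S : Type} [CommRing S] [Fintype ι] [DecidableEq ι] [Fintype R]
    (f : R → S →+* S) (μ m : Matrix ι ι S) (hμ : ∀ r i j, f r (μ i j) = μ i j)
    (hb g u v : ι → S) (hg : ∀ i, g i = ∑ j, μ i j * hb j) (hgi : ∀ r i, f r (g i) = g i)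
    (htr : ∑ r, f r m.det = ∑ i, hb i * u i) (c c' s : S) (hc : c' * c = 1)
    (hci : ∀ r, f r c = c) (hv : ∑ i, v i * g i = (μ * m).det - c * s) :
    ∑ r, f r s = ∑ j, g j * (c' * (∑ i, μ.adjugate i j * u i - ∑ r, f r (v j))) := by
  have hdi : ∀ r, f r μ.det = μ.det := by
    intro r
    rw [(f r).map_det]
    congr 1
    ext1 i j
    exact hμ r i j
  have h1 : ∑ r, f r (μ * m).det = ∑ j, g j * ∑ i, μ.adjugate i j * u i := by
    rw [Matrix.det_mul, ← mainB_alg μ hb g u hg, ← htr, Finset.mul_sum]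
    refine Finset.sum_congr rfl fun r _ => ?_
    rw [map_mul, hdi]
  have h5 : ∑ r, f r (∑ i, v i * g i) = ∑ j, g j * ∑ r, f r (v j) := by
    simp_rw [map_sum]
    rw [Finset.sum_comm]
    refine Finset.sum_congr rfl fun j _ => ?_
    rw [Finset.mul_sum]
    refine Finset.sum_congr rfl fun r _ => ?_
    rw [map_mul, hgi, mul_comm]
  have h6 : ∑ r, f r (∑ i, v i * g i) = ∑ r, f r (μ * m).det - c * ∑ r, f r s := by
    rw [hv, Finset.mul_sum, ← Finset.sum_sub_distrib]
    refine Finset.sum_congr rfl fun r _ => ?_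
    rw [map_sub, map_mul, hci]
  have h7 : c * ∑ r, f r s = ∑ j, g j * (∑ i, μ.adjugate i j * u i - ∑ r, f r (v j)) := by
    simp_rw [mul_sub]
    rw [Finset.sum_sub_distrib, ← h1, ← h5, h6]
    ring
  calc ∑ r, f r s = c' * (c * ∑ r, f r s) := by rw [← mul_assoc, hc, one_mul]
    _ = _ := by
      rw [h7, Finset.mul_sum]
      refine Finset.sum_congr rfl fun j _ => ?_
      rw [mul_left_comm]

theorem mainB_inv {ι R S : Type} [CommRing S] [Fintype ι] [DecidableEq ι] [Fintype R]
    (f : R → S →+* S) (htt : ∀ r s, f r (∑ r', f r' s) = ∑ r', f r' s) (μ : Matrix ι ι S)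
    (hμ : ∀ r i j, f r (μ i j) = μ i j) (u : ι → S) (hu : ∀ r i, f r (u i) = u i) (c' v : S)
    (hc' : ∀ r, f r c' = c') (j : ι) (r : R) :
    f r (c' * (∑ i, μ.adjugate i j * u i - ∑ r, f r v)) =
      c' * (∑ i, μ.adjugate i j * u i - ∑ r, f r v) := by
  rw [map_mul, map_sub, map_sum, htt, hc']
  congr 2
  refine Finset.sum_congr rfl fun i _ => ?_
  rw [map_mul, mainB_adj_inv (f r) μ (hμ r), hu]

theorem mainB {k : Type} [Field k] [CharP k 2] (hb : I → MvPolynomial I k)
    (hinv : ∀ r i, al r (hb i) = hb i) (m : Matrix I I (MvPolynomial I k))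
    (hm : ∀ i, hb i = ∑ j, m i j * X j) (u : I → MvPolynomial I k)
    (hu : ∀ r i, al r (u i) = u i)
    (htr : ∑ r : Fin 3 → ZMod 2, al r m.det = ∑ i, hb i * u i) (N : ℕ) (hN : 0 < N)
    (hX : ∀ i, (X i : MvPolynomial I k) ^ N ∈ Ideal.span (Set.range hb)) : False := by
  obtain ⟨M, e, μ, hM, hMe, hμ, hg⟩ := mu_exists hb hinv N hN hX
  have hQ : 0 < 2 ^ e := by positivity
  set g := gg k M (2 ^ e) with hgdef
  have hspan := span_gg (k := k) M e (by omega)
  rw [← hgdef] at hspan
  have hax : ∀ i, ∑ j, (μ * m) i j * X j = g i := mainB_x μ m hb g X hm hg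
  -- powers of the variables
  have hpow : ∀ i, (X i : MvPolynomial I k) ^ (2 * 2 ^ e) ∈ Ideal.span (Set.range g) := by
    intro i
    rw [hspan]
    have h1 : (X i : MvPolynomial I k) ^ mm M (2 ^ e) i ∈
        Ideal.span (Set.range fun i => (X i : MvPolynomial I k) ^ mm M (2 ^ e) i) :=
      Ideal.subset_span ⟨i, rfl⟩
    have h2 : mm M (2 ^ e) i ≤ 2 * 2 ^ e := by
      rcases i with i | p
      · change M ≤ _
        omega
      · exact le_refl _
    rw [← Nat.sub_add_cancel h2, pow_add]
    exact Ideal.mul_mem_left _ _ h1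
  have hnot : (μ * m).det ∉ Ideal.span (Set.range g) :=
    det_gen (2 * 2 ^ e) (by omega) g hpow (μ * m) hax
  have hcr : ∀ l, X l * (μ * m).det ∈ Ideal.span (Set.range g) := by
    intro l
    rw [mul_comm]
    have h1 := cramer_mem (μ * m) (fun j => (X j : MvPolynomial I k)) l
    have h2 : (fun i => ∑ l, (μ * m) i l * (X l : MvPolynomial I k)) = g := funext hax
    rw [h2] at h1
    exact h1
  obtain ⟨c, hc⟩ := soc (mm M (2 ^ e)) (by
    rintro (i | p)
    · exact hM
    · change 0 < 2 * 2 ^ e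
      omega) (μ * m).det (by
    intro l
    rw [← hspan]
    exact hcr l)
  rw [← hspan, ← s0_eq] at hc
  have hc0 : c ≠ 0 := by
    rintro rfl
    rw [map_zero, zero_mul, sub_zero] at hc
    exact hnot hc
  obtain ⟨v, hv⟩ := (Ideal.mem_span_range_iff_exists_fun).1 hc
  have hcc : (C c⁻¹ : MvPolynomial I k) * C c = 1 := by
    rw [← C_mul, inv_mul_cancel₀ hc0, C_1]
  have key := mainB_tr (fun r => (al r : MvPolynomial I k →ₐ[k] MvPolynomial I k).toRingHom) μ m
    hμ hb g u v hg (fun r i => al_gg M (2 ^ e) r i) htr (C c) (C c⁻¹) (s0 k M (2 ^ e)) hcc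
    (fun r => (al r).commutes c) hv
  exact invb e M hM hMe _ (fun r j => mainB_inv
    (fun r => (al r : MvPolynomial I k →ₐ[k] MvPolynomial I k).toRingHom) (fun r s => al_Tr r s)
    μ hμ u hu (C c⁻¹) (v j) (fun r => (al r).commutes c⁻¹) j r) key

end VSQR

end S_MAINB
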