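import Mathlib
import Pool.Agent.H41.VSQ.Poly
import Pool.Agent.H41.VSQ.Alg

set_option autoImplicit false

/-! Very strongly quasi-regular parameters, part Mid: this file joins several modules to save build time. -/

section S_IRR

/-!
# IRR: a power of the irrelevant ideal is in `ker rho + (h_1, …, h_8)`

`ker rho` is a homogeneous prime ideal (`rho` preserves degrees) and, for
`y = P.tau (w k 0)`: `a * y = P.tau (P.rho a * w k 0)` vanishes iff `P.rho a = 0`, because
`P.rho y = X (inl 0) ^ 3 ≠ 0` (`Tr_w`).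
Let `q` be a homogeneous prime ideal containing `J = ker rho ⊔ sp h 8`.  If `q` does not
contain the irrelevant ideal there is a homogeneous `z ∉ q` of positive degree, `chain` (`m = 8`) gives
`ker rho = p_0 < … < p_8 ≤ q`; `q ≤` irrelevant ideal `A_+`, since `q` is homogeneous and
proper and `𝒜 0 = k` (`P.zero`); `A_+` is prime (`A/A_+ = k`); `p_8 ≤ q < A_+`; so
`p_0 < … < p_8 < A_+` is a chain of ten primes, contradicting `dimc` with `m = 9`
(`Fintype.card I = 8`, `P.fin`, finite maps are integral).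
So every homogeneous prime ideal containing the homogeneous ideal `J` contains `A_+`:
`A_+ ≤ J.radical` (`Ideal.IsHomogeneous.radical_eq`), and a power of `A_+` is in `J`
(`Ideal.exists_pow_le_of_le_radical_of_fg`, `A` Noetherian).
-/

set_option autoImplicit false

namespace VSQR

open Finset MvPolynomial

variable {k A : Type} [Field k] [CharP k 2] [CommRing A] [Algebra k A]

private theorem IRR_ker_homog (𝒜 : ℕ → Submodule k A) [GradedAlgebra 𝒜] (P : Pack k A 𝒜) :
    (RingHom.ker P.rho).IsHomogeneous 𝒜 := by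
  intro i a ha
  rw [RingHom.mem_ker] at ha ⊢
  classical
  have h1 : P.rho a = ∑ j ∈ (DirectSum.decompose 𝒜 a).support,
      P.rho (DirectSum.decompose 𝒜 a j : A) := by
    rw [← map_sum, DirectSum.sum_support_decompose]
  have h2 := congrArg (homogeneousComponent i) h1
  rw [ha, map_zero, map_sum] at h2
  by_cases hi : i ∈ (DirectSum.decompose 𝒜 a).support
  · rw [Finset.sum_eq_single_of_mem i hi] at h2
    · rw [homogeneousComponent_of_mem
        (P.rho_deg i _ (DirectSum.decompose 𝒜 a i).2), if_pos rfl] at h2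
      exact h2.symm
    · intro j _ hj
      rw [homogeneousComponent_of_mem
        (P.rho_deg j _ (DirectSum.decompose 𝒜 a j).2), if_neg (Ne.symm hj)]
  · rw [DFinsupp.notMem_support_iff] at hi
    rw [hi]
    simp

private theorem IRR_unit (𝒜 : ℕ → Submodule k A) [GradedAlgebra 𝒜] (P : Pack k A 𝒜) {a : A}
    (ha : GradedRing.proj 𝒜 0 a ≠ 0) : IsUnit (GradedRing.proj 𝒜 0 a) := by
  obtain ⟨c, hc⟩ := P.zero (GradedRing.proj 𝒜 0 a) (by
    rw [GradedRing.proj_apply]
    exact (DirectSum.decompose 𝒜 a 0).2)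
  rw [hc] at ha ⊢
  have hc0 : c ≠ 0 := by
    rintro rfl
    exact ha (map_zero _)
  exact (isUnit_iff_ne_zero.2 hc0).map (algebraMap k A)

private theorem IRR_prime (𝒜 : ℕ → Submodule k A) [GradedAlgebra 𝒜] (P : Pack k A 𝒜) :
    ((HomogeneousIdeal.irrelevant 𝒜).toIdeal).IsPrime := by
  have hnt : (1 : A) ≠ 0 := by
    intro h
    have := congrArg P.rho h
    rw [map_one, map_zero] at this
    exact one_ne_zero this
  rw [HomogeneousIdeal.toIdeal_irrelevant]
  refine ⟨?_, ?_⟩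
  · rw [Ne, Ideal.eq_top_iff_one, RingHom.mem_ker, map_one]
    exact hnt
  · intro x y hxy
    rw [RingHom.mem_ker] at hxy ⊢
    rw [RingHom.mem_ker]
    rw [map_mul] at hxy
    by_cases hx : GradedRing.projZeroRingHom 𝒜 x = 0
    · exact Or.inl hx
    · right
      have hu : IsUnit (GradedRing.projZeroRingHom 𝒜 x) := IRR_unit 𝒜 P hx
      exact (hu.mul_right_eq_zero).1 hxy

private theorem IRR_le (𝒜 : ℕ → Submodule k A) [GradedAlgebra 𝒜] (P : Pack k A 𝒜)
    (q : Ideal A) (hq : q.IsPrime) (hh : q.IsHomogeneous 𝒜) :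
    q ≤ (HomogeneousIdeal.irrelevant 𝒜).toIdeal := by
  intro a ha
  rw [HomogeneousIdeal.toIdeal_irrelevant, RingHom.mem_ker]
  by_contra hne
  have hu : IsUnit (GradedRing.proj 𝒜 0 a) := IRR_unit 𝒜 P hne
  exact hq.ne_top (Ideal.eq_top_of_isUnit_mem _ (hh 0 ha) hu)

theorem ann_tau_w (𝒜 : ℕ → Submodule k A) (P : Pack k A 𝒜) (a : A) :
    a * P.tau (w k 0) = 0 ↔ a ∈ RingHom.ker P.rho := by
  rw [RingHom.mem_ker]
  constructor
  · intro h
    have h1 := congrArg P.rho h
    rw [map_mul, map_zero, P.rho_tau, Tr_w, mul_eq_zero] at h1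
    rcases h1 with h1 | h1
    · exact h1
    · exact absurd h1 (pow_ne_zero _ (X_ne_zero _))
  · intro h
    rw [← P.proj, h, zero_mul, map_zero]

theorem irr [IsNoetherianRing A] (𝒜 : ℕ → Submodule k A) [GradedAlgebra 𝒜] (P : Pack k A 𝒜)
    (h : ℕ → A) (e : ℕ → ℕ) (he : ∀ i < 8, 0 < e i ∧ h i ∈ 𝒜 (e i)) (B : ℕ)
    (hty : ∀ i < 8, ∀ n, ∀ a ∈ 𝒜 n, h i * a ∈ sp h i → a ∉ sp h i → n < B) :
    ∃ N : ℕ, (HomogeneousIdeal.irrelevant 𝒜).toIdeal ^ N ≤ RingHom.ker P.rho ⊔ sp h 8 := by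
  have hker := IRR_ker_homog 𝒜 P
  have hsp := sp_homog 𝒜 8 h e (fun i hi => (he i hi).2)
  have hJ : (RingHom.ker P.rho ⊔ sp h 8).IsHomogeneous 𝒜 := hker.sup hsp
  refine Ideal.exists_pow_le_of_le_radical_of_fg ?_ (IsNoetherian.noetherian _)
  rw [hJ.radical_eq]
  refine le_sInf ?_
  rintro q ⟨hqh, hJq, hq⟩
  by_contra hnot
  have hAq := IRR_le 𝒜 P q hq hqh
  have hkq : RingHom.ker P.rho ≤ q := le_sup_left.trans hJq
  have hsq : sp h 8 ≤ q := le_sup_right.trans hJq
  -- a homogeneous element of positive degree outside `q`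
  obtain ⟨z, dz, hz, hdz, hzq⟩ : ∃ (z : A) (dz : ℕ), z ∈ 𝒜 dz ∧ 0 < dz ∧ z ∉ q := by
    rw [SetLike.not_le_iff_exists] at hnot
    obtain ⟨a, ha, haq⟩ := hnot
    rw [HomogeneousIdeal.toIdeal_irrelevant, RingHom.mem_ker] at ha
    by_contra hcon
    push Not at hcon
    apply haq
    classical
    rw [← DirectSum.sum_support_decompose 𝒜 a]
    refine Ideal.sum_mem _ fun i _ => ?_
    rcases Nat.eq_zero_or_pos i with rfl | hi
    · have h0 : ((DirectSum.decompose 𝒜 a 0 : 𝒜 0) : A) = 0 := ha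
      rw [h0]
      exact q.zero_mem
    · exact hcon _ i (DirectSum.decompose 𝒜 a i).2 hi
  have hfin : P.rho.toRingHom.Finite := P.fin inferInstance
  have hkp : (RingHom.ker P.rho).IsPrime := RingHom.ker_isPrime P.rho
  obtain ⟨p, hp0, hp, hlt⟩ := chain 𝒜 8 h e (fun i hi => (he i hi).2) B hty
    (RingHom.ker P.rho) hkp (P.tau (w k 0)) (ann_tau_w 𝒜 P) q hq hkq
    (fun i hi => hsq (Ideal.subset_span ⟨i, hi, rfl⟩)) z hz hdz hzq
  have hprime := IRR_prime 𝒜 P
  have hc := dimc P.rho.toRingHom hfin.to_isIntegral 9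
    (fun i => if i ≤ 8 then p i else (HomogeneousIdeal.irrelevant 𝒜).toIdeal)
    (by
      rw [if_pos (Nat.zero_le 8), hp0]
      exact le_refl _)
    (by
      intro i hi
      by_cases h8 : i ≤ 8
      · simpa only [if_pos h8] using (hp i h8).1
      · simpa only [if_neg h8] using hprime)
    (by
      intro i hi
      have h8 : i ≤ 8 := by omega
      rcases Nat.lt_or_ge i 8 with h7 | h7
      · have h9 : i + 1 ≤ 8 := by omega
        simpa only [if_pos h8, if_pos h9] using hlt i h7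
      · have h9 : ¬ (i + 1 ≤ 8) := by omega
        simp only [if_pos h8, if_neg h9]
        refine lt_of_le_of_ne ((hp i h8).2.trans hAq) ?_
        intro heq
        apply hnot
        rw [← heq]
        exact (hp i h8).2)
  have hcard : Fintype.card I = 8 := by decide
  omega

end VSQR

end S_IRR

section S_MAINA

/-!
# MAINA: the transfer of the determinant is in the ideal of the first eight parameters

`P.rho (h i)` is homogeneous of degree `e i > 0`: `expand` gives `m` (rows indexed by `I` through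
`eI : I ≃ Fin 8`), `m i j` homogeneous of degree `e (eI i) - 1`, so `m.det` is homogeneous of degree
`∑ (e (eI i) - 1)` (`det_homog`).  `P.rho (h 8) = ∑ c_j X j` (`expand`), so
`P.rho (h 8) * m.det ∈ (P.rho (h i) : i < 8)` (`cramer_mem`):
`P.rho (h 8) * m.det = ∑ P.rho (h i) * s_i`, and
`h 8 * P.tau m.det = P.tau (P.rho (h 8) * m.det) = ∑ h_i * P.tau s_i ∈ sp h 8`.
`P.tau m.det ∈ 𝒜 n`, `n = ∑ (e i - 1) = ∑ e i - 8`, so `n + 9 ≤ ∑ e i` is false and `hty8` shows
`P.tau m.det ∈ sp h 8`: `P.tau m.det = ∑ h_i a_i`.  Apply `P.rho`: `P.rho_tau`, `u_i = P.rho a_i`,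
`P.al_rho`.
-/

set_option autoImplicit false

namespace VSQR

open Finset MvPolynomial

theorem mainA {k A : Type} [Field k] [CharP k 2] [CommRing A] [Algebra k A]
    (𝒜 : ℕ → Submodule k A) [GradedAlgebra 𝒜] (P : Pack k A 𝒜) (eI : I ≃ Fin 8)
    (h : ℕ → A) (e : ℕ → ℕ) (he : ∀ i < 9, 0 < e i ∧ h i ∈ 𝒜 (e i))
    (hty8 : ∀ n, ∀ a ∈ 𝒜 n, h 8 * a ∈ sp h 8 → a ∉ sp h 8 → n + 9 ≤ ∑ j ∈ range 8, e j) :
    ∃ (m : Matrix I I (MvPolynomial I k)) (u : I → MvPolynomial I k),
      (∀ i, P.rho (h (eI i)) = ∑ j, m i j * X j) ∧ (∀ r i, al r (u i) = u i) ∧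
      ∑ r : Fin 3 → ZMod 2, al r m.det = ∑ i, P.rho (h (eI i)) * u i := by
  have hexp : ∀ i : I, ∃ c : I → MvPolynomial I k,
      (∀ j, (c j).IsHomogeneous (e (eI i) - 1)) ∧ P.rho (h (eI i)) = ∑ j, c j * X j := by
    intro i
    have h1 := he (eI i) (by have := (eI i).2; omega)
    exact expand _ (P.rho_deg _ _ h1.2) h1.1
  choose m hmh hm using hexp
  have hsp : sp h 8 = Ideal.span (Set.range fun i : I => h (eI i)) := by
    unfold sp
    congr 1
    ext x
    constructor
    · rintro ⟨j, hj, rfl⟩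
      exact ⟨eI.symm ⟨j, hj⟩, by simp⟩
    · rintro ⟨i, rfl⟩
      exact ⟨eI i, (eI i).2, rfl⟩
  obtain ⟨c8, _, hc8⟩ := expand _ (P.rho_deg _ _ (he 8 (by norm_num)).2) (he 8 (by norm_num)).1
  have hmem : P.rho (h 8) * (Matrix.of m).det ∈
      Ideal.span (Set.range fun i : I => P.rho (h (eI i))) := by
    have h1 : (fun i : I => P.rho (h (eI i))) = fun i => ∑ l, (Matrix.of m) i l * X l := by
      funext i
      rw [hm i]
      rfl
    rw [h1, hc8, Finset.sum_mul]
    refine Ideal.sum_mem _ fun j _ => ?_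
    have h2 : c8 j * X j * (Matrix.of m).det = c8 j * ((Matrix.of m).det * X j) := by ring
    rw [h2]
    exact Ideal.mul_mem_left _ _ (cramer_mem (Matrix.of m) (fun j => X j) j)
  obtain ⟨s, hs⟩ := Ideal.mem_span_range_iff_exists_fun.1 hmem
  have h8 : h 8 * P.tau (Matrix.of m).det ∈ sp h 8 := by
    rw [← P.proj, ← hs, map_sum, hsp]
    refine Ideal.sum_mem _ fun i _ => ?_
    rw [mul_comm (s i), P.proj]
    exact Ideal.mul_mem_right _ _ (Ideal.subset_span ⟨i, rfl⟩)
  have hdet : ((Matrix.of m).det).IsHomogeneous (∑ i : I, (e (eI i) - 1)) :=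
    det_homog _ _ fun i j => hmh i j
  have hsum : (∑ i : I, (e (eI i) - 1)) + 8 = ∑ j ∈ range 8, e j := by
    have h1 : ∑ i : I, (e (eI i) - 1) = ∑ j : Fin 8, (e j - 1) :=
      Fintype.sum_equiv eI _ _ fun _ => rfl
    rw [h1, ← Fin.sum_univ_eq_sum_range]
    have h2 : ∀ j : Fin 8, e j = (e j - 1) + 1 := fun j => by
      have := (he j (by have := j.2; omega)).1
      omega
    rw [Finset.sum_congr rfl fun j _ => h2 j, Finset.sum_add_distrib]
    simp
  have htau : P.tau (Matrix.of m).det ∈ sp h 8 := by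
    by_contra hcon
    have h1 := hty8 _ _ (P.tau_deg _ _ hdet) h8 hcon
    omega
  rw [hsp] at htau
  obtain ⟨a, ha⟩ := Ideal.mem_span_range_iff_exists_fun.1 htau
  refine ⟨Matrix.of m, fun i => P.rho (a i), fun i => hm i, fun r i => P.al_rho r _, ?_⟩
  rw [← P.rho_tau, ← ha, map_sum]
  exact Finset.sum_congr rfl fun i _ => by rw [map_mul, mul_comm]

end VSQR

end S_MAINA
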