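import Mathlib
import Pool.Agent.H41.VSQ.Coh

set_option autoImplicit false

/-! Very strongly quasi-regular parameters, part Topo: this file joins several modules to save build time. -/

section S_GRADA

/-!
# GRADA: the cohomology ring is the internal direct sum of its graded pieces

Proof.  For a function `f` on lists let `pr n f` be the function `l ↦ if l.length = n + 1 then f l
else 0`.  It maps `Coch G k` into itself, commutes with `act g`, and
`del (pr n f) = pr (n + 1) (del f)`, `pr 0 (del f) = 0` if `f [] = 0` (look at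
`del f l = ∑ i < l.length, (-1) ^ i * f (l.eraseIdx i)`).  An element of `Coch G k` vanishes on
long lists, so it is a finite sum of its `pr n f`; if it is a cocycle then all `pr n f` are
cocycles: so the `Hgr k H n` span.  The operators `pr n` induce operators of the cohomology, which
are the identity on `Hgr k H n` and zero on the other pieces: this gives the independence.
-/

set_option autoImplicit false

namespace VSQR

variable {G : Type} [Group G] (k : Type) [CommRing k] [CharP k 2] (H : Subgroup G)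

/-- the component of degree `n` of a function on lists -/
def GRADA_raw {X k : Type} [CommRing k] (n : ℕ) (f : List X → k) : List X → k :=
  fun l => if l.length = n + 1 then f l else 0

theorem GRADA_raw_mem {X k : Type} [CommRing k] (n : ℕ) (f : Coch X k) :
    GRADA_raw n (f : List X → k) ∈ Coch X k := by
  refine ⟨by simp [GRADA_raw], n + 2, fun l hl => ?_⟩
  unfold GRADA_raw
  rw [if_neg (by omega)]

/-- the component of degree `n` of a cochain -/
def GRADA_pr {X k : Type} [CommRing k] (n : ℕ) : Coch X k →ₗ[k] Coch X k where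
  toFun f := ⟨GRADA_raw n (f : List X → k), GRADA_raw_mem n f⟩
  map_add' f g := by
    apply Subtype.ext
    funext l
    change GRADA_raw n ((f : List X → k) + (g : List X → k)) l =
      GRADA_raw n (f : List X → k) l + GRADA_raw n (g : List X → k) l
    unfold GRADA_raw
    split_ifs with h
    · rfl
    · rw [add_zero]
  map_smul' c f := by
    apply Subtype.ext
    funext l
    change GRADA_raw n (c • (f : List X → k)) l = c * GRADA_raw n (f : List X → k) l
    unfold GRADA_raw
    split_ifs with h
    · rfl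
    · rw [mul_zero]

theorem GRADA_coe_pr {X k : Type} [CommRing k] (n : ℕ) (f : Coch X k) (l : List X) :
    ((GRADA_pr n f : Coch X k) : List X → k) l =
      if l.length = n + 1 then (f : List X → k) l else 0 := rfl

theorem GRADA_act_pr {k : Type} [CommRing k] (n : ℕ) (g : G) (f : Coch G k) :
    act g (GRADA_pr n f) = GRADA_pr n (act g f) := by
  apply Subtype.ext
  funext l
  rw [coe_act, GRADA_coe_pr, GRADA_coe_pr, coe_act, List.length_map]

theorem GRADA_d_pr {X k : Type} [CommRing k] (n : ℕ) (f : Coch X k) :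
    d (GRADA_pr n f) = GRADA_pr (n + 1) (d f) := by
  apply Subtype.ext
  funext l
  rw [coe_d, GRADA_coe_pr, coe_d]
  unfold del
  split_ifs with h
  · refine Finset.sum_congr rfl fun i hi => ?_
    rw [Finset.mem_range] at hi
    rw [GRADA_coe_pr, if_pos (by rw [List.length_eraseIdx_of_lt hi]; omega)]
  · refine Finset.sum_eq_zero fun i hi => ?_
    rw [Finset.mem_range] at hi
    rw [GRADA_coe_pr, if_neg (by rw [List.length_eraseIdx_of_lt hi]; omega), mul_zero]

theorem GRADA_pr_zero_d {X k : Type} [CommRing k] (f : Coch X k) :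
    GRADA_pr 0 (d f) = 0 := by
  apply Subtype.ext
  funext l
  rw [GRADA_coe_pr, coe_d]
  split_ifs with h
  · match l, h with
    | [x], _ =>
      unfold del
      simp [f.2.1]
  · rfl

theorem GRADA_pr_inv {k : Type} [CommRing k] (H : Subgroup G) (n : ℕ) (f : Coch G k)
    (hf : f ∈ Inv k H) : GRADA_pr n f ∈ Inv k H := by
  intro h hh
  rw [GRADA_act_pr, hf h hh]

theorem GRADA_pr_zc (n : ℕ) (f : Coch G k) (hf : f ∈ Zc k H) : GRADA_pr n f ∈ Zc k H := by
  refine ⟨GRADA_pr_inv H n f hf.1, ?_⟩
  rw [GRADA_d_pr, hf.2, map_zero]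

theorem GRADA_pr_d {k : Type} [CommRing k] (H : Subgroup G) (n : ℕ) (b : Coch G k)
    (hb : b ∈ Inv k H) : ∃ c ∈ Inv k H, d c = GRADA_pr n (d b) := by
  cases n with
  | zero => exact ⟨0, zero_mem _, by rw [GRADA_pr_zero_d, map_zero]⟩
  | succ n => exact ⟨GRADA_pr n b, GRADA_pr_inv H n b hb, GRADA_d_pr n b⟩

/-- the component of degree `n` of a cohomology class -/
def GRADA_P (n : ℕ) : Coh k H →+ Coh k H :=
  QuotientAddGroup.lift (Bc k H).toAddSubgroup
    { toFun := fun z => cls k H ⟨GRADA_pr n (z : Coch G k), GRADA_pr_zc k H n _ z.2⟩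
      map_zero' := by
        rw [cls_eq_zero]
        refine ⟨0, zero_mem _, ?_⟩
        rw [map_zero]
        symm
        exact map_zero (GRADA_pr n)
      map_add' := by
        intro z z'
        rw [← map_add]
        congr 1
        apply Subtype.ext
        exact map_add (GRADA_pr n) _ _ }
    (by
      rintro z ⟨b, hb, hz⟩
      change cls k H _ = 0
      rw [cls_eq_zero]
      obtain ⟨c, hc, hc'⟩ := GRADA_pr_d H n b hb
      refine ⟨c, hc, ?_⟩
      rw [hc', hz])

theorem GRADA_P_cls (n : ℕ) (z : Zc k H) :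
    GRADA_P k H n (cls k H z) = cls k H ⟨GRADA_pr n (z : Coch G k), GRADA_pr_zc k H n _ z.2⟩ :=
  rfl

theorem GRADA_P_self (n : ℕ) (a : Coh k H) (ha : a ∈ Hgr k H n) : GRADA_P k H n a = a := by
  obtain ⟨z, hz, rfl⟩ := ha
  rw [GRADA_P_cls]
  congr 1
  apply Subtype.ext
  apply Subtype.ext
  funext l
  change ((GRADA_pr n (z : Coch G k) : Coch G k) : List G → k) l = _
  rw [GRADA_coe_pr]
  split_ifs with h
  · rfl
  · exact (hz l h).symm

theorem GRADA_P_ne (n m : ℕ) (hnm : m ≠ n) (a : Coh k H) (ha : a ∈ Hgr k H m) :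
    GRADA_P k H n a = 0 := by
  obtain ⟨z, hz, rfl⟩ := ha
  rw [GRADA_P_cls]
  have : (⟨GRADA_pr n (z : Coch G k), GRADA_pr_zc k H n _ z.2⟩ : Zc k H) = 0 := by
    apply Subtype.ext
    apply Subtype.ext
    funext l
    change ((GRADA_pr n (z : Coch G k) : Coch G k) : List G → k) l = 0
    rw [GRADA_coe_pr]
    split_ifs with h
    · exact hz l (by omega)
    · rfl
  rw [this, map_zero]

theorem GRADA_sum_pr {X k : Type} [CommRing k] (f : Coch X k) :
    ∃ N : ℕ, f = ∑ n ∈ Finset.range N, GRADA_pr n f := by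
  obtain ⟨N, hN⟩ := f.2.2
  refine ⟨N, ?_⟩
  apply Subtype.ext
  funext l
  have h1 : ((∑ n ∈ Finset.range N, GRADA_pr n f : Coch X k) : List X → k) l =
      ∑ n ∈ Finset.range N, ((GRADA_pr n f : Coch X k) : List X → k) l := by
    rw [AddSubmonoidClass.coe_finsetSum, Finset.sum_apply]
  rw [h1]
  simp only [GRADA_coe_pr]
  rcases Nat.eq_zero_or_pos l.length with h0 | h0
  · have : l = [] := List.length_eq_zero_iff.mp h0
    subst this
    rw [f.2.1]
    symm
    refine Finset.sum_eq_zero fun n _ => ?_
    rw [if_neg (by simp)]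
  · by_cases hl : N ≤ l.length
    · rw [hN l hl]
      simp
    · rw [Finset.sum_eq_single (l.length - 1)]
      · rw [if_pos (by omega)]
      · intro m _ hm
        rw [if_neg (by omega)]
      · intro h
        exact absurd (Finset.mem_range.mpr (by omega)) h

theorem Hgr_internal : DirectSum.IsInternal (Hgr k H) := by
  constructor
  · rw [injective_iff_map_eq_zero]
    intro x hx
    have key : ∀ (i : ℕ) (y : DirectSum ℕ fun n => Hgr k H n),
        GRADA_P k H i (DirectSum.coeAddMonoidHom (Hgr k H) y) = (y i : Coh k H) := by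
      intro i y
      induction y using DirectSum.induction_on with
      | zero =>
        rw [map_zero, map_zero]
        rfl
      | of j y =>
        rw [DirectSum.coeAddMonoidHom_of]
        by_cases hij : j = i
        · subst hij
          rw [GRADA_P_self k H j _ y.2, DirectSum.of_eq_same]
        · rw [GRADA_P_ne k H i j hij _ y.2, DirectSum.of_eq_of_ne _ _ _ (Ne.symm hij)]
          rfl
      | add y z hy hz =>
        rw [map_add, map_add, hy, hz]
        rfl
    ext i
    rw [← key i x, hx, map_zero]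
    rfl
  · intro a
    obtain ⟨z, rfl⟩ := cls_surj H a
    obtain ⟨N, hN⟩ := GRADA_sum_pr (z : Coch G k)
    refine ⟨∑ n ∈ Finset.range N, DirectSum.of (fun n => Hgr k H n) n
      ⟨cls k H ⟨GRADA_pr n (z : Coch G k), GRADA_pr_zc k H n _ z.2⟩,
        ⟨⟨GRADA_pr n (z : Coch G k), GRADA_pr_zc k H n _ z.2⟩, fun l hl => if_neg hl, rfl⟩⟩, ?_⟩
    rw [map_sum]
    simp only [DirectSum.coeAddMonoidHom_of]
    rw [← map_sum]
    congr 1
    apply Subtype.ext
    rw [AddSubmonoidClass.coe_finsetSum]
    exact hN.symm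

end VSQR

end S_GRADA

section S_GRADB

/-!
# GRADB: the graded algebra structure, and the degrees of the standard maps

`Hgr_mul`: the cup product of functions supported on lists of length `m + 1` resp. `n + 1` is
supported on lists of length `m + n + 1` (`cup f g l = ∑ i < l.length, f (l.take (i+1)) * g (l.drop i)`).
`Hgr_zero`: a cocycle `z` of degree `0` satisfies `0 = d z [x, y] = z [y] - z [x]`, so
`z = z [1] • 1`.
-/

set_option autoImplicit false

namespace VSQR

variable {G : Type} [Group G] (k : Type) [CommRing k] [CharP k 2] (H : Subgroup G)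

theorem Hgr_one : (1 : Coh k H) ∈ Hgr k H 0 := by
  refine ⟨1, fun l hl => ?_, map_one _⟩
  change uno (k := k) l = 0
  unfold uno
  rw [if_neg]
  omega

theorem Hgr_mul {m n : ℕ} {a b : Coh k H} (ha : a ∈ Hgr k H m) (hb : b ∈ Hgr k H n) :
    a * b ∈ Hgr k H (m + n) := by
  obtain ⟨z, hz, rfl⟩ := ha
  obtain ⟨z', hz', rfl⟩ := hb
  refine ⟨z * z', fun l hl => ?_, map_mul _ _ _⟩
  change cup ((z : Coch G k) : List G → k) ((z' : Coch G k) : List G → k) l = 0
  unfold cup
  refine Finset.sum_eq_zero fun i hi => ?_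
  rw [Finset.mem_range] at hi
  by_cases h : i = m
  · rw [hz' _ (by rw [List.length_drop]; omega), mul_zero]
  · rw [hz _ (by rw [List.length_take]; omega), zero_mul]

noncomputable instance instGradedAlgebraHgr : GradedAlgebra (Hgr k H) :=
  { (Hgr_internal k H).chooseDecomposition with
    one_mem := Hgr_one k H
    mul_mem := fun _ _ _ _ ha hb => Hgr_mul k H ha hb }

theorem Hgr_zero (a : Coh k H) (ha : a ∈ Hgr k H 0) : ∃ c : k, a = algebraMap k (Coh k H) c := by
  obtain ⟨z, hz, rfl⟩ := ha
  refine ⟨((z : Coch G k) : List G → k) [1], ?_⟩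
  have h0 : z = (((z : Coch G k) : List G → k) [1]) • (1 : Zc k H) := by
    apply Subtype.ext
    apply Subtype.ext
    funext l
    change ((z : Coch G k) : List G → k) l = ((z : Coch G k) : List G → k) [1] * uno l
    by_cases hl : l.length = 1
    · obtain ⟨x, rfl⟩ := List.length_eq_one_iff.1 hl
      have h1 : ((d (z : Coch G k) : Coch G k) : List G → k) [1, x] = 0 := by
        rw [z.2.2]
        rfl
      rw [coe_d] at h1
      simp only [del, List.length_cons, List.length_nil, Finset.sum_range_succ,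
        Finset.sum_range_zero, zero_add, pow_zero, one_mul, pow_one, List.eraseIdx_cons_zero,
        List.eraseIdx_cons_succ] at h1
      have h2 : ((z : Coch G k) : List G → k) [x] = ((z : Coch G k) : List G → k) [1] := by
        linear_combination h1
      rw [h2]
      simp [uno]
    · rw [hz l hl]
      unfold uno
      rw [if_neg hl, mul_zero]
  have h3 : cls k H z = cls k H ((((z : Coch G k) : List G → k) [1]) • (1 : Zc k H)) :=
    congrArg (cls k H) h0
  rw [h3, Algebra.algebraMap_eq_smul_one]
  rfl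

theorem Hgr_chi (θ : G → ZMod 2) (h : Addi H θ) : chi k H θ h ∈ Hgr k H 1 := by
  refine ⟨⟨d (th k θ), d_th_mem h⟩, fun l hl => ?_, rfl⟩
  change del ((th k θ : Coch G k) : List G → k) l = 0
  unfold del
  refine Finset.sum_eq_zero fun i hi => ?_
  rw [Finset.mem_range] at hi
  have h1 : ∀ m : List G, m.length ≠ 1 → ((th k θ : Coch G k) : List G → k) m = 0 := by
    intro m hm
    match m with
    | [] => rfl
    | [x] => exact absurd rfl hm
    | _ :: _ :: _ => rfl
  rw [h1 _ (by rw [List.length_eraseIdx_of_lt hi]; omega), mul_zero]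

variable {k H}

theorem Hgr_resC {H' : Subgroup G} (hle : H' ≤ H) {n : ℕ} {a : Coh k H} (ha : a ∈ Hgr k H n) :
    resC hle a ∈ Hgr k H' n := by
  obtain ⟨z, hz, rfl⟩ := ha
  exact ⟨⟨z, Zc_mono hle z.2⟩, hz, rfl⟩

theorem Hgr_trC {H' : Subgroup G} (T : Finset G)
    (hT : ∀ b ∈ Inv k H, ∑ g ∈ T, act g b ∈ Inv k H') {n : ℕ} {s : Coh k H}
    (hs : s ∈ Hgr k H n) : trC T hT s ∈ Hgr k H' n := by
  obtain ⟨z, hz, rfl⟩ := hs
  have hz' : ∑ g ∈ T, act g (z : Coch G k) ∈ Zc k H' := by
    refine ⟨hT _ z.2.1, ?_⟩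
    rw [map_sum]
    refine Finset.sum_eq_zero fun g _ => ?_
    rw [← act_d, z.2.2, map_zero]
  refine ⟨⟨∑ g ∈ T, act g (z : Coch G k), hz'⟩, fun l hl => ?_, (trC_cls T hT z hz').symm⟩
  change ((∑ g ∈ T, act g (z : Coch G k) : Coch G k) : List G → k) l = 0
  rw [AddSubmonoidClass.coe_finsetSum, Finset.sum_apply]
  refine Finset.sum_eq_zero fun g _ => ?_
  rw [coe_act]
  exact hz _ (by rwa [List.length_map])

end VSQR

end S_GRADB

section S_CONTR

/-!
# CONTR: the cohomology of the trivial group

`coh_bot`: put `s f l = f (1 :: l)` for `l ≠ []` and `s f [] = 0`.  From `del_cons`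
(`del f (x :: l) = f l - del (fun m => f (x :: m)) l`) one gets, for a cochain `f` with
`del f = 0` and `l ≠ []`: `f l = del (fun m => f (1 :: m)) l`, and
`del (fun m => f (1 :: m)) l = del (s f) l + f [1] * (if l.length = 1 then 1 else 0)`.
So `f = d (s f) + f [1] • 1`.  Every cochain is in `Inv k ⊥`.
`algebraMap_inj`: `c • 1 = d b` evaluated at the list `[1]` gives `c = b [] = 0`.
-/

set_option autoImplicit false

namespace VSQR

variable {G : Type} [Group G] {k : Type} [CommRing k] [CharP k 2]

/-- the contracting homotopy -/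
def contrS (f : List G → k) : List G → k
  | [] => 0
  | x :: l => f (1 :: x :: l)

omit [CharP k 2] in
theorem contrS_mem (f : Coch G k) : contrS (f : List G → k) ∈ Coch G k := by
  obtain ⟨f, hf, N, hN⟩ := f
  refine ⟨rfl, N + 1, fun l hl => ?_⟩
  match l, hl with
  | x :: l, hl => exact hN _ (by simp only [List.length_cons] at hl ⊢; omega)

omit [CharP k 2] in
theorem contr_del (f : List G → k) (hf : f [] = 0) (hd : del f = 0) (l : List G) :
    del (contrS f) l = f l - f [1] * (uno : List G → k) l := by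
  match l with
  | [] => simp [del_nil, hf, uno]
  | x :: l' =>
    have h1 : f (x :: l') = f (1 :: l') - del (fun m => f (1 :: x :: m)) l' := by
      have h2 : del f (1 :: x :: l') = 0 := congrFun hd _
      rw [del_cons, del_cons] at h2
      exact sub_eq_zero.mp h2
    rw [del_cons]
    have h3 : (fun m => contrS f (x :: m)) = fun m => f (1 :: x :: m) := rfl
    rw [h3]
    match l' with
    | [] =>
      rw [del_nil] at h1 ⊢
      have h4 : (uno : List G → k) [x] = 1 := by simp [uno]
      rw [h4, h1]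
      simp [contrS]
    | y :: l'' =>
      have h4 : (uno : List G → k) (x :: y :: l'') = 0 := by simp [uno]
      rw [h4, h1, mul_zero, sub_zero]
      rfl

theorem coh_bot (a : Coh k (⊥ : Subgroup G)) : ∃ c : k, a = algebraMap k _ c := by
  obtain ⟨z, rfl⟩ := cls_surj (⊥ : Subgroup G) a
  refine ⟨((z : Coch G k) : List G → k) [1], ?_⟩
  have h1 : algebraMap k (Coh k (⊥ : Subgroup G)) (((z : Coch G k) : List G → k) [1]) =
      cls k ⊥ (algebraMap k (Zc k (⊥ : Subgroup G)) (((z : Coch G k) : List G → k) [1])) := rfl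
  rw [← sub_eq_zero, h1, ← map_sub, cls_eq_zero]
  refine ⟨⟨contrS ((z : Coch G k) : List G → k), contrS_mem _⟩, ?_, ?_⟩
  · intro h hh
    rw [Subgroup.mem_bot] at hh
    subst hh
    exact act_one _
  · apply Subtype.ext
    funext l
    have hd : del ((z : Coch G k) : List G → k) = 0 := congrArg Subtype.val z.2.2
    change del (contrS ((z : Coch G k) : List G → k)) l = ((z : Coch G k) : List G → k) l -
      ((algebraMap k (Zc k (⊥ : Subgroup G)) (((z : Coch G k) : List G → k) [1]) :
        Zc k (⊥ : Subgroup G)) : Coch G k).1 l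
    rw [contr_del _ (z : Coch G k).2.1 hd l]
    rfl

theorem algebraMap_inj (H : Subgroup G) : Function.Injective (algebraMap k (Coh k H)) := by
  rw [injective_iff_map_eq_zero]
  intro c hc
  have h1 : algebraMap k (Coh k H) c = cls k H (algebraMap k (Zc k H) c) := rfl
  rw [h1, cls_eq_zero] at hc
  obtain ⟨b, -, hb⟩ := hc
  have h2 : del (b : List G → k) [1] = c * (uno : List G → k) [1] := by
    have h3 := congrArg (fun f : Coch G k => (f : List G → k) [1]) hb
    exact h3
  rw [del_cons, del_nil, b.2.1, sub_zero] at h2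
  have h4 : (uno : List G → k) [1] = 1 := by simp [uno]
  rw [h4, mul_one] at h2
  exact h2.symm

end VSQR

end S_CONTR

section S_GYS

/-!
# GYS: the Gysin sequence of a subgroup `H' = ker θ` of index two in `H`

Take `T = {1, g}`, `g ∈ H`, `θ g = 1` (`act_th_of_mem`: `act g (th θ) = th θ + 1`,
`act h (th θ) = th θ` for `h ∈ H'`; `g⁻¹` and `g` differ by an element of `H'`, and so do
`g * g` and `1`, `H'` is normalised by `H`).  `tr b = b + act g b`; every element of `H` is in
`H'` or in `g H'`, so `tr` maps `Inv k H'` into `Inv k H` (module `Coh`: `trC`, `trC_cls`,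
`trC_res_mul`).  Write `t = th k θ`.  Since `k` has characteristic two:
1. `f ∈ Zc k H'`, `tr f = d b` with `b ∈ Inv k H`: then `f' = f + d (t * b)` satisfies
   `act g f' = f'`, so `f' ∈ Zc k H` and `f - f' = d (t * b)` with `t * b ∈ Inv k H'`.
2. `f ∈ Zc k H`, `d t * f = d b` with `b ∈ Inv k H`: then `s = t * f + b` is in `Zc k H'` and
   `tr s = t * f + (t + 1) * f + b + b = f`.
3. `f ∈ Zc k H`, `f = d b` with `b ∈ Inv k H'`: then `tr b ∈ Zc k H`,
   `b' = b + t * tr b ∈ Inv k H` and `d b' = f + d t * tr b`.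
4. `tr (resC a) = a * tr 1 = a * (1 + 1) = 0`.
-/

set_option autoImplicit false

namespace VSQR

variable {G : Type} [Group G] {k : Type} [CommRing k] [CharP k 2]

theorem gys_zmod_two (a : ZMod 2) : a = 0 ∨ a = 1 := by
  revert a
  decide

/-- elements of `H'` act trivially on invariants of `H'` and the rest acts as `g`. -/
theorem gys_act {H H' : Subgroup G} (θ : G → ZMod 2) (hθ : Addi H θ)
    (hH' : ∀ h ∈ H, h ∈ H' ↔ θ h = 0) {g : G} (hg : g ∈ H) (hg1 : θ g = 1)
    {b : Coch G k} (hb : b ∈ Inv k H') {x : G} (hx : x ∈ H) :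
    (θ x = 0 ∧ act x b = b) ∨ (θ x = 1 ∧ act x b = act g b) := by
  rcases gys_zmod_two (θ x) with h | h
  · exact Or.inl ⟨h, hb x ((hH' x hx).2 h)⟩
  · refine Or.inr ⟨h, ?_⟩
    have h1 : x = g * (g⁻¹ * x) := by group
    rw [h1, act_mul]
    congr 1
    refine hb _ ?_
    rw [hH' _ (H.mul_mem (H.inv_mem hg) hx), hθ _ (H.inv_mem hg), hθ.inv hg, hg1, h]
    rfl

theorem gys_inv {H H' : Subgroup G} (hle : H' ≤ H) (θ : G → ZMod 2) (hθ : Addi H θ)
    (hH' : ∀ h ∈ H, h ∈ H' ↔ θ h = 0) {g : G} (hg : g ∈ H) (hg1 : θ g = 1)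
    {b : Coch G k} (hb : b ∈ Inv k H') (hgb : act g b = b) : b ∈ Inv k H := by
  intro x hx
  rcases gys_act θ hθ hH' hg hg1 hb hx with h | h
  · exact h.2
  · rw [h.2, hgb]

theorem gys_tr {H H' : Subgroup G} (hle : H' ≤ H) (θ : G → ZMod 2) (hθ : Addi H θ)
    (hH' : ∀ h ∈ H, h ∈ H' ↔ θ h = 0) {g : G} (hg : g ∈ H) (hg1 : θ g = 1)
    {b : Coch G k} (hb : b ∈ Inv k H') : b + act g b ∈ Inv k H := by
  intro x hx
  rw [map_add, ← act_mul]
  have hxg : x * g ∈ H := H.mul_mem hx hg
  have h3 : θ (x * g) = θ x + 1 := by rw [hθ x hx, hg1]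
  rcases gys_act θ hθ hH' hg hg1 hb hx with h | h
  · rcases gys_act θ hθ hH' hg hg1 hb hxg with h' | h'
    · exfalso
      rw [h3, h.1] at h'
      exact absurd h'.1 (by decide)
    · rw [h.2, h'.2]
  · rcases gys_act θ hθ hH' hg hg1 hb hxg with h' | h'
    · rw [h.2, h'.2, add_comm]
    · exfalso
      rw [h3, h.1] at h'
      exact absurd h'.1 (by decide)

theorem gys_act_t {H : Subgroup G} (θ : G → ZMod 2) (hθ : Addi H θ) {g : G} (hg : g ∈ H)
    (hg1 : θ g = 1) : act g (th k θ) = th k θ + 1 := by
  rw [act_th_of_mem hθ hg, hg1, map_one, one_smul]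

theorem gys_act_t0 {H H' : Subgroup G} (hle : H' ≤ H) (θ : G → ZMod 2) (hθ : Addi H θ)
    (hH' : ∀ h ∈ H, h ∈ H' ↔ θ h = 0) : th k θ ∈ Inv k H' := by
  intro x hx
  rw [act_th_of_mem hθ (hle hx), (hH' x (hle hx)).1 hx, map_zero, zero_smul, add_zero]

theorem gysin {H H' : Subgroup G} (hle : H' ≤ H) (θ : G → ZMod 2) (hθ : Addi H θ)
    (hH' : ∀ h ∈ H, h ∈ H' ↔ θ h = 0) (hg : ∃ g ∈ H, θ g = 1) :
    ∃ tr : Coh k H' →+ Coh k H,
      (∀ a s, tr (resC hle a * s) = a * tr s) ∧
      (∀ a, tr (resC hle a) = 0) ∧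
      (∀ s, tr s = 0 → ∃ a, s = resC hle a) ∧
      (∀ a, chi k H θ hθ * a = 0 → ∃ s, a = tr s) ∧
      (∀ a, resC hle a = 0 → ∃ b, a = chi k H θ hθ * b) := by
  classical
  obtain ⟨g, hg, hg1⟩ := hg
  have hne : (1 : G) ≠ g := by
    intro h
    rw [← h, hθ.one] at hg1
    exact absurd hg1 (by decide)
  have hsum : ∀ b : Coch G k, ∑ x ∈ ({1, g} : Finset G), act x b = b + act g b := by
    intro b
    rw [Finset.sum_pair hne, act_one]
  have hT : ∀ b ∈ Inv k H', ∑ x ∈ ({1, g} : Finset G), act x b ∈ Inv k H := by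
    intro b hb
    rw [hsum]
    exact gys_tr hle θ hθ hH' hg hg1 hb
  have hTH : ∀ x ∈ ({1, g} : Finset G), x ∈ H := by
    intro x hx
    rw [Finset.mem_insert, Finset.mem_singleton] at hx
    rcases hx with rfl | rfl
    · exact H.one_mem
    · exact hg
  have hcls : ∀ (z : Zc k H') (hz : (z : Coch G k) + act g (z : Coch G k) ∈ Zc k H),
      trC ({1, g} : Finset G) hT (cls k H' z) = cls k H ⟨(z : Coch G k) + act g (z : Coch G k), hz⟩ := by
    intro z hz
    have hz' : ∑ x ∈ ({1, g} : Finset G), act x (z : Coch G k) ∈ Zc k H := by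
      rw [hsum]
      exact hz
    rw [trC_cls _ hT z hz']
    congr 1
    exact Subtype.ext (hsum _)
  have hmem : ∀ (z : Zc k H'), (z : Coch G k) + act g (z : Coch G k) ∈ Zc k H := by
    intro z
    refine ⟨gys_tr hle θ hθ hH' hg hg1 z.2.1, ?_⟩
    rw [map_add, ← act_d, z.2.2, map_zero, add_zero]
  have ht0 : th k θ ∈ Inv k H' := gys_act_t0 hle θ hθ hH'
  have htg : act g (th k θ) = th k θ + 1 := gys_act_t θ hθ hg hg1
  refine ⟨trC ({1, g} : Finset G) hT, trC_res_mul hle _ hTH hT, ?_, ?_, ?_, ?_⟩
  · intro a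
    obtain ⟨z, rfl⟩ := cls_surj H a
    rw [resC_cls, hcls _ (hmem _), cls_eq_zero]
    refine ⟨0, zero_mem _, ?_⟩
    change d 0 = (z : Coch G k) + act g (z : Coch G k)
    rw [z.2.1 g hg, add_self_zero, map_zero]
  · intro s hs
    obtain ⟨z, rfl⟩ := cls_surj H' s
    rw [hcls _ (hmem _), cls_eq_zero] at hs
    obtain ⟨b, hb, hdb⟩ := hs
    change d b = (z : Coch G k) + act g (z : Coch G k) at hdb
    have hb' : b ∈ Inv k H' := Inv_mono hle hb
    have hf1 : (z : Coch G k) + d (th k θ * b) ∈ Inv k H' := by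
      refine add_mem z.2.1 ?_
      intro x hx
      rw [act_d, mul_mem ht0 hb' x hx]
    have hf2 : act g ((z : Coch G k) + d (th k θ * b)) = (z : Coch G k) + d (th k θ * b) := by
      rw [map_add, act_d, map_mul, htg, hb g hg, add_mul, one_mul, map_add, hdb]
      have h1 := add_self_zero (act g (z : Coch G k))
      calc act g (z : Coch G k) + (d (th k θ * b) + ((z : Coch G k) + act g (z : Coch G k)))
          = (act g (z : Coch G k) + act g (z : Coch G k)) + ((z : Coch G k) + d (th k θ * b)) := by
            abel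
        _ = (z : Coch G k) + d (th k θ * b) := by rw [h1, zero_add]
    have hf3 : (z : Coch G k) + d (th k θ * b) ∈ Zc k H := by
      refine ⟨gys_inv hle θ hθ hH' hg hg1 hf1 hf2, ?_⟩
      rw [map_add, d_d, z.2.2, add_zero]
    refine ⟨cls k H ⟨_, hf3⟩, ?_⟩
    rw [resC_cls, ← sub_eq_zero, ← map_sub, cls_eq_zero]
    refine ⟨-(th k θ * b), neg_mem (mul_mem ht0 hb'), ?_⟩
    change d (-(th k θ * b)) = (z : Coch G k) - ((z : Coch G k) + d (th k θ * b))
    rw [map_neg]
    abel
  · intro a ha
    obtain ⟨f, rfl⟩ := cls_surj H a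
    rw [chi, ← map_mul, cls_eq_zero] at ha
    obtain ⟨b, hb, hdb⟩ := ha
    change d b = d (th k θ) * (f : Coch G k) at hdb
    have hs : th k θ * (f : Coch G k) + b ∈ Zc k H' := by
      refine ⟨add_mem (mul_mem ht0 (Inv_mono hle f.2.1)) (Inv_mono hle hb), ?_⟩
      rw [map_add, d_mul, f.2.2, mul_zero, add_zero, hdb, add_self_zero]
    refine ⟨cls k H' ⟨_, hs⟩, ?_⟩
    rw [hcls _ (hmem _)]
    congr 1
    apply Subtype.ext
    change (f : Coch G k) = (th k θ * (f : Coch G k) + b) + act g (th k θ * (f : Coch G k) + b)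
    rw [map_add, map_mul, htg, f.2.1 g hg, hb g hg, add_mul, one_mul]
    have h1 := add_self_zero (th k θ * (f : Coch G k))
    have h2 := add_self_zero b
    calc (f : Coch G k) = (th k θ * (f : Coch G k) + th k θ * (f : Coch G k)) + (b + b) + f := by
          rw [h1, h2, zero_add, zero_add]
      _ = _ := by abel
  · intro a ha
    obtain ⟨f, rfl⟩ := cls_surj H a
    rw [resC_cls, cls_eq_zero] at ha
    obtain ⟨b, hb, hdb⟩ := ha
    change d b = (f : Coch G k) at hdb
    have htr : b + act g b ∈ Zc k H := by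
      refine ⟨gys_tr hle θ hθ hH' hg hg1 hb, ?_⟩
      rw [map_add, ← act_d, hdb, f.2.1 g hg, add_self_zero]
    have hb1 : b + th k θ * (b + act g b) ∈ Inv k H' :=
      add_mem hb (mul_mem ht0 (Inv_mono hle htr.1))
    have hb2 : act g (b + th k θ * (b + act g b)) = b + th k θ * (b + act g b) := by
      have h0 : act g (b + act g b) = b + act g b := htr.1 g hg
      have h1 : act g (b + th k θ * (b + act g b)) =
          act g b + (th k θ + 1) * act g (b + act g b) := by
        rw [map_add, map_mul, htg]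
      rw [h1, h0, add_mul, one_mul]
      have h2 := add_self_zero (act g b)
      calc act g b + (th k θ * (b + act g b) + (b + act g b))
          = (act g b + act g b) + (b + th k θ * (b + act g b)) := by abel
        _ = _ := by rw [h2, zero_add]
    refine ⟨cls k H ⟨_, htr⟩, ?_⟩
    rw [chi, ← map_mul, ← sub_eq_zero, ← map_sub, cls_eq_zero]
    refine ⟨b + th k θ * (b + act g b), gys_inv hle θ hθ hH' hg hg1 hb1 hb2, ?_⟩
    change d (b + th k θ * (b + act g b)) = (f : Coch G k) - d (th k θ) * (b + act g b)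
    have hx := add_self_zero (d (th k θ) * (b + act g b))
    rw [map_add, d_mul, htr.2, mul_zero, add_zero, hdb, sub_eq_add_neg,
      ← eq_neg_of_add_eq_zero_left hx]

end VSQR

end S_GYS

section S_FINS

/-!
# FINS: finiteness of restriction

`fin_step`: by `gysin`, `tr : Coh k H' → Coh k H` is `Coh k H`-linear for the module structure of
`Coh k H'` given by `resC hle` (first property), with kernel the image of `resC hle`, which is
generated by `1`; its image is an ideal of the Noetherian ring `Coh k H`, so finitely generated.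
So `Coh k H'` is a finite module (`Submodule.fg_of_fg_map_of_fg_inf_ker` or
`Module.Finite.of_submodule_quotient`, or by hand: if `tr s_1, …, tr s_n` generate the image then
`1, s_1, …, s_n` generate).
`fin_chain`: induction on `n`; if `R` is Noetherian and `R → S` is finite then `S` is Noetherian
(`isNoetherian_of_isNoetherianRing_of_finite`, `isNoetherian_of_tower`); composites of finite
maps are finite (`RingHom.Finite.comp`), and `resC` is transitive.
-/

set_option autoImplicit false

namespace VSQR

variable {G : Type} [Group G] {k : Type} [CommRing k] [CharP k 2]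

theorem fins_trans {H1 H2 H3 : Subgroup G} (h32 : H3 ≤ H2) (h21 : H2 ≤ H1) (h31 : H3 ≤ H1) :
    (resC h31 : Coh k H1 →+* Coh k H3) = (resC h32).comp (resC h21) := by
  apply RingHom.ext
  intro a
  obtain ⟨z, rfl⟩ := cls_surj H1 a
  rfl

theorem fins_noeth {A B : Type*} [CommRing A] [CommRing B] (f : A →+* B) (hf : f.Finite)
    (hA : IsNoetherianRing A) : IsNoetherianRing B := by
  let _ := f.toAlgebra
  have : Module.Finite A B := hf
  have : IsNoetherian A B := isNoetherian_of_isNoetherianRing_of_finite A B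
  exact isNoetherian_of_tower A inferInstance

theorem fin_step {H H' : Subgroup G} (hle : H' ≤ H) (θ : G → ZMod 2) (hθ : Addi H θ)
    (hH' : ∀ h ∈ H, h ∈ H' ↔ θ h = 0) (hg : ∃ g ∈ H, θ g = 1)
    (hN : IsNoetherianRing (Coh k H)) : (resC hle : Coh k H →+* Coh k H').Finite := by
  obtain ⟨tr, h1, h2, h3, -, -⟩ := gysin (k := k) hle θ hθ hH' hg
  let _ := (resC hle : Coh k H →+* Coh k H').toAlgebra
  let f : Coh k H' →ₗ[Coh k H] Coh k H :=
    { toFun := tr
      map_add' := map_add tr
      map_smul' := fun a s => h1 a s }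
  change Module.Finite (Coh k H) (Coh k H')
  refine ⟨Submodule.fg_of_fg_map_of_fg_inf_ker f (IsNoetherian.noetherian _) ?_⟩
  have hk : (⊤ : Submodule (Coh k H) (Coh k H')) ⊓ f.ker = Submodule.span (Coh k H) {1} := by
    rw [top_inf_eq]
    apply le_antisymm
    · intro s hs
      obtain ⟨a, rfl⟩ := h3 s hs
      rw [Submodule.mem_span_singleton]
      exact ⟨a, mul_one _⟩
    · rw [Submodule.span_le, Set.singleton_subset_iff]
      change tr 1 = 0
      have := h2 1
      rwa [map_one] at this
  rw [hk]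
  exact ⟨{1}, by simp⟩

theorem fin_chain (n : ℕ) (H : ℕ → Subgroup G) (hle : ∀ i, H (i + 1) ≤ H i)
    (θ : ℕ → G → ZMod 2) (hθ : ∀ i < n, Addi (H i) (θ i))
    (hH : ∀ i < n, ∀ h ∈ H i, h ∈ H (i + 1) ↔ θ i h = 0) (hg : ∀ i < n, ∃ g ∈ H i, θ i g = 1)
    (hN : IsNoetherianRing (Coh k (H 0))) (h0 : H n ≤ H 0) :
    (resC h0 : Coh k (H 0) →+* Coh k (H n)).Finite := by
  induction n with
  | zero =>
    apply RingHom.Finite.of_surjective
    intro a
    obtain ⟨z, rfl⟩ := cls_surj (H 0) a
    exact ⟨cls k (H 0) z, rfl⟩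
  | succ n ih =>
    have hanti : ∀ m, H m ≤ H 0 := by
      intro m
      induction m with
      | zero => exact le_rfl
      | succ m ihm => exact (hle m).trans ihm
    have ih' := ih (fun i hi => hθ i (by omega)) (fun i hi => hH i (by omega))
      (fun i hi => hg i (by omega)) (hanti n)
    have hNn : IsNoetherianRing (Coh k (H n)) := fins_noeth _ ih' hN
    have hs := fin_step (hle n) (θ n) (hθ n (by omega)) (hH n (by omega)) (hg n (by omega)) hNn
    rw [fins_trans (hle n) (hanti n) h0]
    exact hs.comp ih'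

end VSQR

end S_FINS

section S_POLYS

/-!
# POLYS: a graded algebra with a regular element of degree one and polynomial quotient

Surjectivity: every `a ∈ 𝒜 n` is in the range, by strong induction on `n`: `f a = F (f x)` for
some `F ∈ k[σ]`, so `a - F (x) = c * b`; take the component of degree `n`: the components of
`F (x)` are the values at `x` of the homogeneous components of `F` (because `x i ∈ 𝒜 1`) and
the component of degree `n` of `c * b` is `c * b_(n-1)` (`0` if `n = 0`).
Injectivity: write `F = ∑ X none ^ j * F_j` with `F_j ∈ k[σ]` (`MvPolynomial.optionEquivLeft`).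
If `F ≠ 0` take `j` minimal with `F_j ≠ 0`; `F (c, x) = 0` and regularity of `c` give
`F_j (x) + c * (…) = 0`, apply `f`.
-/

set_option autoImplicit false

namespace VSQR

open MvPolynomial

section polys_aux

variable {k A σ : Type} [CommRing k] [CommRing A] [Algebra k A]
    (𝒜 : ℕ → Submodule k A) [GradedAlgebra 𝒜]

theorem polys_mem (x : σ → A) (hx : ∀ i, x i ∈ 𝒜 1) (n : ℕ) (F : MvPolynomial σ k)
    (hF : F.IsHomogeneous n) : aeval x F ∈ 𝒜 n := by
  classical
  rw [aeval_def, eval₂_eq]
  refine Submodule.sum_mem _ fun d hd => ?_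
  rw [← Algebra.smul_def]
  refine Submodule.smul_mem _ _ ?_
  have h1 : ∏ i ∈ d.support, x i ^ d i ∈ 𝒜 (∑ i ∈ d.support, d i • 1) :=
    SetLike.prod_mem_graded 𝒜 _ _ fun i _ => SetLike.pow_mem_graded _ (hx i)
  have h2 : ∑ i ∈ d.support, d i • 1 = n := by
    have h3 := hF (mem_support_iff.1 hd)
    rw [← h3, Finsupp.weight_apply, Finsupp.sum]
    rfl
  rw [h2] at h1
  exact h1

theorem polys_proj (x : σ → A) (hx : ∀ i, x i ∈ 𝒜 1) (n : ℕ) (F : MvPolynomial σ k) :
    (DirectSum.decompose 𝒜 (aeval x F) n : A) = aeval x (homogeneousComponent n F) := by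
  classical
  conv_lhs => rw [← sum_homogeneousComponent F]
  rw [map_sum, DirectSum.decompose_sum]
  have h1 : ∀ i : ℕ, ((DirectSum.decompose 𝒜 (aeval x (homogeneousComponent i F))) n : A) =
      if i = n then aeval x (homogeneousComponent n F) else 0 := by
    intro i
    have h2 := polys_mem 𝒜 x hx i _ (homogeneousComponent_isHomogeneous i F)
    split_ifs with h
    · subst h
      exact DirectSum.decompose_of_mem_same 𝒜 h2
    · exact DirectSum.decompose_of_mem_ne 𝒜 h2 h
  rw [DFinsupp.finsetSum_apply]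
  push_cast
  rw [Finset.sum_congr rfl fun i _ => h1 i, Finset.sum_ite_eq']
  split_ifs with h
  · rfl
  · rw [Finset.mem_range, not_lt] at h
    rw [homogeneousComponent_eq_zero _ _ (by omega), map_zero]

end polys_aux

theorem poly_step {k A B σ : Type} [CommRing k] [CommRing A] [Algebra k A] [CommRing B]
    [Algebra k B] (𝒜 : ℕ → Submodule k A) [GradedAlgebra 𝒜] (f : A →ₐ[k] B) (c : A)
    (hc : c ∈ 𝒜 1) (hreg : ∀ a, c * a = 0 → a = 0) (hker : ∀ a, f a = 0 → ∃ b, a = c * b)
    (hfc : f c = 0) (x : σ → A) (hx : ∀ i, x i ∈ 𝒜 1)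
    (hb : Function.Bijective (aeval (fun i => f (x i)) : MvPolynomial σ k →ₐ[k] B)) :
    Function.Bijective
      (aeval (fun o : Option σ => o.elim c x) : MvPolynomial (Option σ) k →ₐ[k] A) := by
  classical
  have hfx : ∀ F : MvPolynomial σ k, f (aeval x F) = aeval (fun i => f (x i)) F := by
    intro F
    have h := congrArg (fun g => g F) (comp_aeval (R := k) x f)
    simpa using h
  constructor
  · -- injectivity
    have key : ∀ n : ℕ, ∀ P : Polynomial (MvPolynomial σ k), P.natDegree ≤ n →
        Polynomial.eval₂ ((aeval x : MvPolynomial σ k →ₐ[k] A) : MvPolynomial σ k →+* A) c P = 0 →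
        P = 0 := by
      have step : ∀ P : Polynomial (MvPolynomial σ k),
          Polynomial.eval₂ ((aeval x : MvPolynomial σ k →ₐ[k] A) : MvPolynomial σ k →+* A) c P
            = 0 → P.coeff 0 = 0 ∧ Polynomial.eval₂
            ((aeval x : MvPolynomial σ k →ₐ[k] A) : MvPolynomial σ k →+* A) c P.divX = 0 := by
        intro P hP
        have h1 := Polynomial.divX_mul_X_add P
        have h2 : Polynomial.eval₂
            ((aeval x : MvPolynomial σ k →ₐ[k] A) : MvPolynomial σ k →+* A) c P.divX * c +
            aeval x (P.coeff 0) = 0 := by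
          rw [← h1, Polynomial.eval₂_add, Polynomial.eval₂_mul, Polynomial.eval₂_X,
            Polynomial.eval₂_C] at hP
          exact hP
        have h3 : P.coeff 0 = 0 := by
          apply hb.1
          rw [map_zero, ← hfx]
          have h4 := congrArg f h2
          rw [map_add, map_mul, hfc, mul_zero, zero_add, map_zero] at h4
          exact h4
        refine ⟨h3, ?_⟩
        rw [h3, map_zero, add_zero, mul_comm] at h2
        exact hreg _ h2
      intro n
      induction n with
      | zero =>
        intro P hn hP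
        have h1 := step P hP
        rw [Polynomial.eq_C_of_natDegree_le_zero hn, h1.1, Polynomial.C_0]
      | succ n ih =>
        intro P hn hP
        have h1 := step P hP
        have h2 := ih P.divX (by rw [Polynomial.natDegree_divX_eq_natDegree_tsub_one]; omega) h1.2
        rw [← Polynomial.divX_mul_X_add P, h1.1, h2]
        simp
    rw [injective_iff_map_eq_zero]
    intro F hF
    have h1 : ∀ G : MvPolynomial (Option σ) k, aeval (fun o : Option σ => o.elim c x) G =
        Polynomial.eval₂ ((aeval x : MvPolynomial σ k →ₐ[k] A) : MvPolynomial σ k →+* A) c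
          (optionEquivLeft k σ G) := by
      intro G
      induction G using MvPolynomial.induction_on with
      | C a =>
        simp [optionEquivLeft_C]
      | add p q hp hq =>
        rw [map_add, map_add, Polynomial.eval₂_add, hp, hq]
      | mul_X p i hp =>
        rw [map_mul, map_mul, Polynomial.eval₂_mul, hp]
        congr 1
        cases i with
        | none => simp [optionEquivLeft_X_none]
        | some i => simp [optionEquivLeft_X_some]
    rw [h1] at hF
    have h2 := key _ _ le_rfl hF
    exact (map_eq_zero_iff _ (optionEquivLeft k σ).injective).1 h2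
  · -- surjectivity
    have hsome : ∀ F : MvPolynomial σ k,
        aeval (fun o : Option σ => o.elim c x) (rename some F) = aeval x F := by
      intro F
      rw [aeval_rename]
      rfl
    have hmem : ∀ n : ℕ, ∀ a ∈ 𝒜 n,
        a ∈ (aeval (fun o : Option σ => o.elim c x) : MvPolynomial (Option σ) k →ₐ[k] A).range := by
      have hcr : c ∈ (aeval (fun o : Option σ => o.elim c x) :
          MvPolynomial (Option σ) k →ₐ[k] A).range := ⟨X none, by simp⟩
      have hxr : ∀ F : MvPolynomial σ k, aeval x F ∈ (aeval (fun o : Option σ => o.elim c x) :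
          MvPolynomial (Option σ) k →ₐ[k] A).range := fun F => ⟨rename some F, hsome F⟩
      have base : ∀ a : A, ∃ (F : MvPolynomial σ k) (b : A), a = aeval x F + c * b := by
        intro a
        obtain ⟨F, hF⟩ := hb.2 (f a)
        obtain ⟨b, hb'⟩ := hker (a - aeval x F) (by
          rw [map_sub, hfx, hF, sub_self])
        exact ⟨F, b, by rw [← hb']; ring⟩
      intro n
      induction n with
      | zero =>
        intro a ha
        obtain ⟨F, b, hab⟩ := base a
        have h1 : a = aeval x (homogeneousComponent 0 F) := by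
          have h2 : (DirectSum.decompose 𝒜 a 0 : A) = a := DirectSum.decompose_of_mem_same 𝒜 ha
          rw [← h2, ← polys_proj 𝒜 x hx 0 F]
          conv_lhs => rw [hab]
          rw [DirectSum.decompose_add]
          push_cast
          rw [DirectSum.add_apply]
          push_cast
          rw [DirectSum.coe_decompose_mul_of_left_mem_of_not_le 𝒜 hc (by omega), add_zero]
        rw [h1]
        exact hxr _
      | succ n ih =>
        intro a ha
        obtain ⟨F, b, hab⟩ := base a
        have h1 : a = aeval x (homogeneousComponent (n + 1) F) +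
            c * (DirectSum.decompose 𝒜 b n : A) := by
          have h2 : (DirectSum.decompose 𝒜 a (n + 1) : A) = a :=
            DirectSum.decompose_of_mem_same 𝒜 ha
          rw [← polys_proj 𝒜 x hx (n + 1) F]
          conv_lhs => rw [← h2, hab]
          rw [DirectSum.decompose_add, DirectSum.add_apply]
          push_cast
          rw [add_comm n 1, DirectSum.coe_decompose_mul_add_of_left_mem 𝒜 hc]
        rw [h1]
        exact add_mem (hxr _) (mul_mem hcr (ih _ (SetLike.coe_mem _)))
    intro a
    have h : a ∈ (aeval (fun o : Option σ => o.elim c x) :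
        MvPolynomial (Option σ) k →ₐ[k] A).range := by
      rw [← DirectSum.sum_support_decompose 𝒜 a]
      exact sum_mem fun i _ => hmem i _ (SetLike.coe_mem _)
    exact h

/-- degrees are preserved and detected -/
theorem poly_deg {k A σ : Type} [CommRing k] [CommRing A] [Algebra k A]
    (𝒜 : ℕ → Submodule k A) [GradedAlgebra 𝒜] (x : σ → A) (hx : ∀ i, x i ∈ 𝒜 1)
    (hb : Function.Injective (aeval x : MvPolynomial σ k →ₐ[k] A)) (n : ℕ)
    (F : MvPolynomial σ k) : F.IsHomogeneous n ↔ aeval x F ∈ 𝒜 n := by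
  classical
  constructor
  · exact polys_mem 𝒜 x hx n F
  · intro h
    have h1 : aeval x F = aeval x (homogeneousComponent n F) := by
      rw [← polys_proj 𝒜 x hx n F, DirectSum.decompose_of_mem_same 𝒜 h]
    rw [hb h1]
    exact homogeneousComponent_isHomogeneous n F

end VSQR

end S_POLYS

section S_POLYI

/-!
# POLYI: the cohomology ring of an elementary abelian subgroup is a polynomial ring

`Finite.induction_empty_option` on `ι` (for all `H`, `θ`).
* Equivalence `α ≃ β`: `MvPolynomial.rename`.
* `ι = PEmpty`: `H` has one element, `H = ⊥`; `coh_bot`, `algebraMap_inj`.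
* `Option σ`: let `H'` be the subgroup of the `h ∈ H` with `θ none h = 0`.  The `θ (some i)` satisfy
  the hypotheses for `H'`.  So `resC : Coh k H → Coh k H'` is onto, since the generators
  `chi k H' (θ (some i))` are restrictions (`resC_chi`, `resC_smul`, `resA`).  In `gysin`:
  `tr = 0` as `tr (resC a) = 0`, so `c = chi k H (θ none)` is a nonzerodivisor, and the kernel of
  `resC` is `c * Coh k H`; `resC c = 0` since `θ none` vanishes on `H'`: `th k (θ none)` is
  `H'`-invariant, so `d (th …)` is a coboundary for `H'`.  Apply `poly_step` with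
  `𝒜 = Hgr k H` (`Hgr_chi`).
-/

set_option autoImplicit false

namespace VSQR

open MvPolynomial

variable {G : Type} [Group G] {k : Type} [CommRing k] [CharP k 2]

/-- the statement for a fixed index type -/
def PolyiP (G : Type) [Group G] (k : Type) [CommRing k] [CharP k 2] (ι : Type) : Prop :=
  ∀ (H : Subgroup G) (θ : ι → G → ZMod 2)
    (hθ : ∀ i, Addi H (θ i)) (_ : Function.Bijective fun (h : H) (i : ι) => θ i (h : G)),
    Function.Bijective
      (aeval (fun i => chi k H (θ i) (hθ i)) : MvPolynomial ι k →ₐ[k] Coh k H)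

theorem polyi_equiv {α β : Type} (e : α ≃ β) (h : PolyiP G k α) : PolyiP G k β := by
  intro H θ hθ hb
  have h1 := h H (fun i => θ (e i)) (fun i => hθ (e i)) (by
    have h2 : (fun (h : H) (i : α) => θ (e i) (h : G)) =
        (Equiv.arrowCongr e.symm (Equiv.refl (ZMod 2))) ∘ fun (h : H) (i : β) => θ i (h : G) := by
      funext h i
      simp
    rw [h2]
    exact (Equiv.bijective _).comp hb)
  have hcast : ∀ j j' : β, j = j' → chi k H (θ j) (hθ j) = chi k H (θ j') (hθ j') := by
    rintro j _ rfl
    rfl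
  have h3 : (aeval (fun i => chi k H (θ i) (hθ i)) : MvPolynomial β k →ₐ[k] Coh k H) =
      (aeval (fun i => chi k H (θ (e i)) (hθ (e i))) : MvPolynomial α k →ₐ[k] Coh k H).comp
        (rename e.symm) := by
    apply MvPolynomial.algHom_ext
    intro j
    rw [AlgHom.comp_apply, rename_X, aeval_X, aeval_X]
    exact hcast _ _ (e.apply_symm_apply j).symm
  rw [h3]
  have h4 : Function.Bijective (rename e.symm : MvPolynomial β k →ₐ[k] MvPolynomial α k) :=
    (renameEquiv k e.symm).bijective
  exact h1.comp h4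

theorem polyi_empty : PolyiP G k PEmpty := by
  intro H θ hθ hb
  have hbot : H = ⊥ := by
    rw [Subgroup.eq_bot_iff_forall]
    intro x hx
    have h1 : (⟨x, hx⟩ : H) = 1 := hb.1 (funext fun i => i.elim)
    exact congrArg Subtype.val h1
  subst hbot
  constructor
  · intro p q hpq
    obtain ⟨a, rfl⟩ := C_surjective PEmpty p
    obtain ⟨b, rfl⟩ := C_surjective PEmpty q
    rw [aeval_C, aeval_C] at hpq
    rw [algebraMap_inj _ hpq]
  · intro a
    obtain ⟨c, rfl⟩ := coh_bot a
    exact ⟨C c, aeval_C _ _⟩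

/-- the kernel of a coordinate -/
def polyiKer (H : Subgroup G) (θ : G → ZMod 2) (h : Addi H θ) : Subgroup G where
  carrier := {x | x ∈ H ∧ θ x = 0}
  mul_mem' := by
    rintro a b ⟨ha, ha0⟩ ⟨hb, hb0⟩
    exact ⟨H.mul_mem ha hb, by rw [h a ha, ha0, hb0, add_zero]⟩
  one_mem' := ⟨H.one_mem, h.one⟩
  inv_mem' := by
    rintro a ⟨ha, ha0⟩
    exact ⟨H.inv_mem ha, by rw [h.inv ha, ha0]⟩

theorem polyi_option {α : Type} (h : PolyiP G k α) : PolyiP G k (Option α) := by
  intro H θ hθ hb
  let H' := polyiKer H (θ none) (hθ none)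
  have hle : H' ≤ H := fun x hx => hx.1
  have hb' : Function.Bijective fun (h : H') (i : α) => θ (some i) (h : G) := by
    constructor
    · intro a b hab
      have h1 : (⟨a.1, hle a.2⟩ : H) = ⟨b.1, hle b.2⟩ := by
        apply hb.1
        funext o
        cases o with
        | none => exact a.2.2.trans b.2.2.symm
        | some i => exact congrFun hab i
      have h2 : (a : G) = b := congrArg (fun x : H => (x : G)) h1
      exact Subtype.ext h2
    · intro v
      obtain ⟨x, hx⟩ := hb.2 (fun o => o.elim 0 v)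
      refine ⟨⟨x.1, x.2, congrFun hx none⟩, ?_⟩
      funext i
      exact congrFun hx (some i)
  have IH := h H' (fun i => θ (some i)) (fun i => (hθ (some i)).mono hle) hb'
  have hmem : ∀ x ∈ H, x ∈ H' ↔ θ none x = 0 := fun x hx => ⟨fun h => h.2, fun h => ⟨hx, h⟩⟩
  have hex : ∃ g ∈ H, θ none g = 1 := by
    obtain ⟨x, hx⟩ := hb.2 (fun _ => 1)
    exact ⟨x.1, x.2, congrFun hx none⟩
  obtain ⟨tr, -, h2, -, h4, h5⟩ := gysin (k := k) hle (θ none) (hθ none) hmem hex
  have hsurj : ∀ s : Coh k H', ∃ a : Coh k H, s = resC hle a := by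
    intro s
    obtain ⟨F, rfl⟩ := IH.2 s
    refine ⟨aeval (fun i => chi k H (θ (some i)) (hθ (some i))) F, ?_⟩
    rw [← resA_apply]
    have e1 : (resA k hle).comp
        (aeval (fun i => chi k H (θ (some i)) (hθ (some i))) : MvPolynomial α k →ₐ[k] Coh k H) =
        aeval (fun i => chi k H' (θ (some i)) ((hθ (some i)).mono hle)) := by
      apply MvPolynomial.algHom_ext
      intro j
      rw [AlgHom.comp_apply, aeval_X, aeval_X]
      rfl
    exact (AlgHom.congr_fun e1 F).symm
  have htr : ∀ s, tr s = 0 := by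
    intro s
    obtain ⟨a, rfl⟩ := hsurj s
    exact h2 a
  have hfc : resA k hle (chi k H (θ none) (hθ none)) = 0 := by
    rw [resA_apply, resC_chi]
    refine (cls_eq_zero H' _).2 ⟨th k (θ none), fun g hg => ?_, rfl⟩
    rw [act_th_of_mem (hθ none) hg.1, hg.2, map_zero, zero_smul, add_zero]
  have hres := poly_step (Hgr k H) (resA k hle) (chi k H (θ none) (hθ none)) (Hgr_chi k H _ _)
    (fun a ha => by
      obtain ⟨s, rfl⟩ := h4 a ha
      exact htr s)
    (fun a ha => h5 a ha) hfc (fun i => chi k H (θ (some i)) (hθ (some i)))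
    (fun i => Hgr_chi k H _ _) IH
  have hfun : (fun o : Option α => o.elim (chi k H (θ none) (hθ none))
      (fun i => chi k H (θ (some i)) (hθ (some i)))) = fun o => chi k H (θ o) (hθ o) := by
    funext o
    cases o <;> rfl
  rw [hfun] at hres
  exact hres

theorem poly_bij (ι : Type) [Finite ι] (H : Subgroup G) (θ : ι → G → ZMod 2)
    (hθ : ∀ i, Addi H (θ i)) (hb : Function.Bijective fun (h : H) (i : ι) => θ i (h : G)) :
    Function.Bijective
      (aeval (fun i => chi k H (θ i) (hθ i)) : MvPolynomial ι k →ₐ[k] Coh k H) :=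
  Finite.induction_empty_option (P := PolyiP G k) (fun e h => polyi_equiv e h) polyi_empty
    (fun h => polyi_option h) ι H θ hθ hb

end VSQR

end S_POLYI

section S_GRP

/-!
# GRP: the group `GG`, its subgroups `V` and `U`, coordinates, representatives, finiteness

Everything is a finite check with the formulas `mul_t, mul_r, mul_c, inv_c` (`F_2`-arithmetic:
`x + x = 0`).  `VV = {r = 0}`, `UU = {t = 0}`, `gr r = (0, r, 0)`.
`sum_act_mem`: for `x ∈ GG`, `x * gr r = gr (r + x.r) * v` with `v ∈ VV`, so
`act x (∑ act (gr r) b) = ∑ act (gr (r + x.r)) b`.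
`finV`: `fin_chain` with `n = 3`, `H i = {x | x.r j = 0 for all j < i}`, `θ i x = x.r i`
(`H i` for `i ≥ 3` constant).  `finU`: `n = 2`, the same with `t`.
-/

set_option autoImplicit false

namespace VSQR

open Finset

/-- `V = {r = 0}` -/
def VV : Subgroup GG where
  carrier := {x | x.r = 0}
  mul_mem' := by
    intro x y hx hy
    change x.r + y.r = 0
    rw [show x.r = 0 from hx, show y.r = 0 from hy, add_zero]
  one_mem' := rfl
  inv_mem' := fun h => h

/-- `U = {t = 0}` -/
def UU : Subgroup GG where
  carrier := {x | x.t = 0}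
  mul_mem' := by
    intro x y hx hy
    change x.t + y.t = 0
    rw [show x.t = 0 from hx, show y.t = 0 from hy, add_zero]
  one_mem' := rfl
  inv_mem' := fun h => h

instance normalVV : VV.Normal := by
  refine ⟨fun x hx g => ?_⟩
  have hx' : x.r = 0 := hx
  change g.r + x.r + g.r = 0
  rw [hx', add_zero]
  funext i
  exact GG.tw (g.r i)

/-- representatives -/
def gr (r : Fin 3 → ZMod 2) : GG := ⟨0, r, fun _ _ => 0⟩

/-- the coordinates of `V` -/
def thV : I → GG → ZMod 2 :=
  Sum.elim (fun i x => x.t i) (fun p x => x.c p.1 p.2 + x.t p.1 * x.r p.2)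

/-- the coordinates of `U` -/
def thU : I' → GG → ZMod 2 := Sum.elim (fun j x => x.r j) (fun p x => x.c p.1 p.2)

theorem addi_thV (i : I) : Addi VV (thV i) := by
  intro h hh x
  have hr : h.r = 0 := hh
  rcases i with i | p
  · rfl
  · change (h.c p.1 p.2 + x.c p.1 p.2 + h.t p.1 * x.r p.2) + (h.t p.1 + x.t p.1) *
      (h.r p.2 + x.r p.2) = (h.c p.1 p.2 + h.t p.1 * h.r p.2) + (x.c p.1 p.2 + x.t p.1 * x.r p.2)
    have h0 : h.r p.2 = 0 := by rw [hr]; rfl
    rw [h0]
    have h1 := GG.tw (h.t p.1 * x.r p.2)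
    linear_combination h1

theorem addi_thU (i : I') : Addi UU (thU i) := by
  intro h hh x
  have ht : h.t = 0 := hh
  rcases i with j | p
  · rfl
  · change h.c p.1 p.2 + x.c p.1 p.2 + h.t p.1 * x.r p.2 = h.c p.1 p.2 + x.c p.1 p.2
    have h0 : h.t p.1 = 0 := by rw [ht]; rfl
    rw [h0]
    ring

theorem bij_thV : Function.Bijective fun (h : VV) (i : I) => thV i (h : GG) := by
  constructor
  · intro h h' he
    have hr : (h : GG).r = 0 := h.2
    have hr' : (h' : GG).r = 0 := h'.2
    apply Subtype.ext
    have ht : (h : GG).t = (h' : GG).t := by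
      funext i
      exact congrFun he (Sum.inl i)
    apply GG.ext ht (hr.trans hr'.symm)
    funext i j
    have h1 : (h : GG).c i j + (h : GG).t i * (h : GG).r j =
        (h' : GG).c i j + (h' : GG).t i * (h' : GG).r j := congrFun he (Sum.inr (i, j))
    rw [hr, hr'] at h1
    simpa using h1
  · intro f
    refine ⟨⟨⟨fun i => f (Sum.inl i), 0, fun i j => f (Sum.inr (i, j))⟩, rfl⟩, ?_⟩
    funext i
    rcases i with i | p
    · rfl
    · change f (Sum.inr (p.1, p.2)) + f (Sum.inl p.1) * 0 = f (Sum.inr p)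
      rw [mul_zero, add_zero]

theorem bij_thU : Function.Bijective fun (h : UU) (i : I') => thU i (h : GG) := by
  constructor
  · intro h h' he
    have ht : (h : GG).t = 0 := h.2
    have ht' : (h' : GG).t = 0 := h'.2
    apply Subtype.ext
    apply GG.ext (ht.trans ht'.symm)
    · funext j
      exact congrFun he (Sum.inl j)
    · funext i j
      exact congrFun he (Sum.inr (i, j))
  · intro f
    refine ⟨⟨⟨0, fun i => f (Sum.inl i), fun i j => f (Sum.inr (i, j))⟩, rfl⟩, ?_⟩
    funext i
    rcases i with i | p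
    · rfl
    · rfl

theorem thV_inl (r : Fin 3 → ZMod 2) (i : Fin 2) (x : GG) :
    thV (Sum.inl i) ((gr r)⁻¹ * x) = thV (Sum.inl i) x := by
  change (0 : ZMod 2) + x.t i = x.t i
  rw [zero_add]

theorem thV_inr (r : Fin 3 → ZMod 2) (p : Fin 2 × Fin 3) (x : GG) :
    thV (Sum.inr p) ((gr r)⁻¹ * x) = thV (Sum.inr p) x + r p.2 * thV (Sum.inl p.1) x := by
  change ((0 : ZMod 2) + 0 * r p.2 + x.c p.1 p.2 + 0 * x.r p.2) + (0 + x.t p.1) *
    (r p.2 + x.r p.2) = (x.c p.1 p.2 + x.t p.1 * x.r p.2) + r p.2 * x.t p.1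
  ring

theorem gr_inj : Function.Injective gr := fun _ _ h => congrArg GG.r h

variable {k : Type} [CommRing k] [CharP k 2]

theorem sum_act_mem (b : Coch GG k) (hb : b ∈ Inv k VV) :
    ∑ g ∈ univ.map ⟨gr, gr_inj⟩, act g b ∈ Inv k (⊤ : Subgroup GG) := by
  intro h _
  rw [Finset.sum_map, map_sum]
  have key : ∀ r : Fin 3 → ZMod 2, act h (act (gr r) b) = act (gr (r + h.r)) b := by
    intro r
    rw [← act_mul]
    have hv : (gr (r + h.r))⁻¹ * (h * gr r) ∈ VV := by
      change (r + h.r) + (h.r + r) = 0
      funext i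
      have h1 := GG.tw (r i)
      have h2 := GG.tw (h.r i)
      change (r i + h.r i) + (h.r i + r i) = 0
      linear_combination h1 + h2
    have h3 : h * gr r = gr (r + h.r) * ((gr (r + h.r))⁻¹ * (h * gr r)) := by group
    rw [h3, act_mul, hb _ hv]
  change ∑ r : Fin 3 → ZMod 2, act h (act (gr r) b) = ∑ r : Fin 3 → ZMod 2, act (gr r) b
  rw [Finset.sum_congr rfl fun r _ => key r]
  exact Fintype.sum_equiv (Equiv.addRight h.r) _ _ fun r => rfl

omit [CharP k 2] in
/-- the subgroup of the elements whose first `i` coordinates `r` vanish -/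
def grpHr (i : ℕ) : Subgroup GG where
  carrier := {x | ∀ j : Fin 3, (j : ℕ) < i → x.r j = 0}
  mul_mem' := by
    intro x y hx hy j hj
    change x.r j + y.r j = 0
    rw [hx j hj, hy j hj, add_zero]
  one_mem' := fun _ _ => rfl
  inv_mem' := fun h => h

/-- the subgroup of the elements whose first `i` coordinates `t` vanish -/
def grpHt (i : ℕ) : Subgroup GG where
  carrier := {x | ∀ j : Fin 2, (j : ℕ) < i → x.t j = 0}
  mul_mem' := by
    intro x y hx hy j hj
    change x.t j + y.t j = 0
    rw [hx j hj, hy j hj, add_zero]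
  one_mem' := fun _ _ => rfl
  inv_mem' := fun h => h

theorem grp_fin_aux {G : Type} [Group G] {A B A' B' : Subgroup G} (hA : A = A') (hB : B = B')
    (h : B ≤ A) (h' : B' ≤ A') (hf : (resC h : Coh k A →+* Coh k B).Finite) :
    (resC h' : Coh k A' →+* Coh k B').Finite := by
  subst hA hB
  exact hf

theorem grp_noeth_aux {G : Type} [Group G] {A A' : Subgroup G} (hA : A' = A)
    (hN : IsNoetherianRing (Coh k A)) : IsNoetherianRing (Coh k A') := by
  subst hA
  exact hN

theorem finV (hN : IsNoetherianRing (Coh k (⊤ : Subgroup GG))) :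
    (resC (le_top : VV ≤ ⊤) : Coh k (⊤ : Subgroup GG) →+* Coh k VV).Finite := by
  have e0 : grpHr 0 = ⊤ := by
    ext x
    simp only [Subgroup.mem_top, iff_true]
    exact fun j hj => absurd hj (Nat.not_lt_zero _)
  have e3 : grpHr 3 = VV := by
    ext x
    constructor
    · intro hx
      change x.r = 0
      funext j
      exact hx j j.2
    · intro hx j _
      have : x.r = 0 := hx
      rw [this]
      rfl
  have hle : ∀ i, grpHr (i + 1) ≤ grpHr i := fun i x hx j hj => hx j (by omega)
  have h30 : grpHr 3 ≤ grpHr 0 := by rw [e0]; exact le_top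
  refine grp_fin_aux e0 e3 h30 le_top ?_
  refine fin_chain 3 grpHr hle (fun i x => if h : i < 3 then x.r ⟨i, h⟩ else 0) ?_ ?_ ?_
    (grp_noeth_aux e0 hN) h30
  · intro i hi h _ x
    simp only [dif_pos hi]
    rfl
  · intro i hi h hh
    simp only [dif_pos hi]
    constructor
    · intro h1
      exact h1 ⟨i, hi⟩ (Nat.lt_succ_self i)
    · intro h1 j hj
      rcases Nat.lt_succ_iff_lt_or_eq.mp hj with h2 | h2
      · exact hh j h2
      · have : j = ⟨i, hi⟩ := Fin.ext h2
        rw [this]
        exact h1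
  · intro i hi
    refine ⟨gr (Pi.single ⟨i, hi⟩ 1), ?_, ?_⟩
    · intro j hj
      change (Pi.single (⟨i, hi⟩ : Fin 3) (1 : ZMod 2) : Fin 3 → ZMod 2) j = 0
      apply Pi.single_eq_of_ne
      intro h
      rw [h] at hj
      exact lt_irrefl _ hj
    · simp only [dif_pos hi]
      change (Pi.single (⟨i, hi⟩ : Fin 3) (1 : ZMod 2) : Fin 3 → ZMod 2) ⟨i, hi⟩ = 1
      exact Pi.single_eq_same _ _

theorem finU (hN : IsNoetherianRing (Coh k (⊤ : Subgroup GG))) :
    (resC (le_top : UU ≤ ⊤) : Coh k (⊤ : Subgroup GG) →+* Coh k UU).Finite := by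
  have e0 : grpHt 0 = ⊤ := by
    ext x
    simp only [Subgroup.mem_top, iff_true]
    exact fun j hj => absurd hj (Nat.not_lt_zero _)
  have e3 : grpHt 2 = UU := by
    ext x
    constructor
    · intro hx
      change x.t = 0
      funext j
      exact hx j j.2
    · intro hx j _
      have : x.t = 0 := hx
      rw [this]
      rfl
  have hle : ∀ i, grpHt (i + 1) ≤ grpHt i := fun i x hx j hj => hx j (by omega)
  have h30 : grpHt 2 ≤ grpHt 0 := by rw [e0]; exact le_top
  refine grp_fin_aux e0 e3 h30 le_top ?_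
  refine fin_chain 2 grpHt hle (fun i x => if h : i < 2 then x.t ⟨i, h⟩ else 0) ?_ ?_ ?_
    (grp_noeth_aux e0 hN) h30
  · intro i hi h _ x
    simp only [dif_pos hi]
    rfl
  · intro i hi h hh
    simp only [dif_pos hi]
    constructor
    · intro h1
      exact h1 ⟨i, hi⟩ (Nat.lt_succ_self i)
    · intro h1 j hj
      rcases Nat.lt_succ_iff_lt_or_eq.mp hj with h2 | h2
      · exact hh j h2
      · have : j = ⟨i, hi⟩ := Fin.ext h2
        rw [this]
        exact h1
  · intro i hi
    refine ⟨⟨Pi.single ⟨i, hi⟩ 1, 0, fun _ _ => 0⟩, ?_, ?_⟩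
    · intro j hj
      change (Pi.single (⟨i, hi⟩ : Fin 2) (1 : ZMod 2) : Fin 2 → ZMod 2) j = 0
      apply Pi.single_eq_of_ne
      intro h
      rw [h] at hj
      exact lt_irrefl _ hj
    · simp only [dif_pos hi]
      change (Pi.single (⟨i, hi⟩ : Fin 2) (1 : ZMod 2) : Fin 2 → ZMod 2) ⟨i, hi⟩ = 1
      exact Pi.single_eq_same _ _

/-- the elements of `GG` as triples -/
def grpEquiv : GG ≃ (Fin 2 → ZMod 2) × (Fin 3 → ZMod 2) × (Fin 2 → Fin 3 → ZMod 2) where
  toFun x := (x.t, x.r, x.c)
  invFun y := ⟨y.1, y.2.1, y.2.2⟩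
  left_inv _ := rfl
  right_inv _ := rfl

instance finiteGG : Finite GG := Finite.of_equiv _ grpEquiv.symm

theorem card_GG : Nat.card GG = 2 ^ 11 := by
  rw [Nat.card_congr grpEquiv, Nat.card_eq_fintype_card]
  simp [Fintype.card_prod, Fintype.card_fun, ZMod.card]

end VSQR

end S_GRP

section S_PACK

/-!
# PACK: the package of facts on `H^*(GG, k)`

`polyV`, `polyU` = `AlgEquiv.ofBijective` of `poly_bij`.  `rho = polyV.symm ∘ resA`,
`tau s = trC T (polyV s)` with `T = univ.map ⟨gr, gr_inj⟩` (`sum_act_mem`),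
`rho' = polyU.symm ∘ resA`.  Degrees: `poly_deg`, `Hgr_resC`, `Hgr_trC`, `Hgr_chi`.  `proj`: `trC_res_mul`.
`rho_tau`: `res_trC` and `conj_polyV`.  `al_rho`: `conjC_resC` and `conj_polyV`.  `fin`, `fin'`:
`finV`, `finU`.  `zero`: `Hgr_zero`.
`conj_polyV`: both sides are ring homomorphisms in `F`; check on constants and variables, where
`act (gr r) (th k θ) = th k (fun x => θ ((gr r)⁻¹ * x))` (`act_th`), `thV_inl`, `thV_inr`.
-/

set_option autoImplicit false

namespace VSQR

open MvPolynomial

variable (k : Type) [Field k] [CharP k 2]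

noncomputable def polyV : MvPolynomial I k ≃ₐ[k] Coh k VV :=
  AlgEquiv.ofBijective (aeval fun i => chi k VV (thV i) (addi_thV i))
    (poly_bij I VV thV addi_thV bij_thV)

noncomputable def polyU : MvPolynomial I' k ≃ₐ[k] Coh k UU :=
  AlgEquiv.ofBijective (aeval fun i => chi k UU (thU i) (addi_thU i))
    (poly_bij I' UU thU addi_thU bij_thU)

theorem pack_polyV_X (i : I) : polyV k (X i) = chi k VV (thV i) (addi_thV i) := by
  change aeval (fun i => chi k VV (thV i) (addi_thV i)) (X i) = _
  rw [aeval_X]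

theorem conj_polyV (r : Fin 3 → ZMod 2) (F : MvPolynomial I k) :
    conjC VV (gr r) (polyV k F) = polyV k (al r F) := by
  have h1 : ((conjC VV (gr r)).comp ((polyV k : MvPolynomial I k →ₐ[k] Coh k VV) :
      MvPolynomial I k →+* Coh k VV)) =
      (((polyV k : MvPolynomial I k →ₐ[k] Coh k VV).comp (al r) :
        MvPolynomial I k →ₐ[k] Coh k VV) : MvPolynomial I k →+* Coh k VV) := by
    apply MvPolynomial.ringHom_ext
    · intro c
      have h2 : polyV k (C c) = resC (le_top : VV ≤ ⊤) (algebraMap k (Coh k (⊤ : Subgroup GG)) c) := by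
        have h3 : polyV k (C c) = algebraMap k (Coh k VV) c := (polyV k).commutes c
        rw [h3]
        exact ((resA k (le_top : VV ≤ ⊤)).commutes c).symm
      have h4 : al r (C c : MvPolynomial I k) = C c := (al r).commutes c
      change conjC VV (gr r) (polyV k (C c)) = polyV k (al r (C c))
      rw [h4, h2]
      exact conjC_resC _ _ (Subgroup.mem_top _) _
    · intro i
      change conjC VV (gr r) (polyV k (X i)) = polyV k (al r (X i))
      rw [pack_polyV_X]
      rcases i with i | p
      · have h4 : al r (X (Sum.inl i) : MvPolynomial I k) = X (Sum.inl i) := by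
          rw [al, aeval_X, Sum.elim_inl]
        rw [h4, pack_polyV_X]
        have h5 : act (gr r) (d (th k (thV (Sum.inl i)))) = d (th k (thV (Sum.inl i))) := by
          rw [act_d, act_th]
          congr 2
          funext x
          exact thV_inl r i x
        have hz : act (gr r) (d (th k (thV (Sum.inl i)))) ∈ Zc k VV := by
          rw [h5]
          exact d_th_mem (addi_thV _)
        have h6 := conjC_cls VV (gr r) ⟨d (th k (thV (Sum.inl i))), d_th_mem (addi_thV _)⟩ hz
        rw [chi, h6]
        congr 1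
        exact Subtype.ext h5
      · have h4 : al r (X (Sum.inr p) : MvPolynomial I k) =
            X (Sum.inr p) + C (cz k (r p.2)) * X (Sum.inl p.1) := by
          rw [al, aeval_X, Sum.elim_inr]
        have h5 : act (gr r) (d (th k (thV (Sum.inr p)))) =
            d (th k (thV (Sum.inr p))) + cz k (r p.2) • d (th k (thV (Sum.inl p.1))) := by
          rw [act_d, act_th, ← map_smul, ← map_add]
          congr 1
          rw [th, th, th, ← zc_smul, ← zc_add]
          congr 1
          funext x
          rw [thV_inr, map_add, map_mul]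
        have hz : act (gr r) (d (th k (thV (Sum.inr p)))) ∈ Zc k VV := by
          rw [h5]
          exact add_mem (d_th_mem (addi_thV _)) ((Zc k VV).smul_mem (d_th_mem (addi_thV _)) _)
        have h6 := conjC_cls VV (gr r) ⟨d (th k (thV (Sum.inr p))), d_th_mem (addi_thV _)⟩ hz
        have h7 : C (cz k (r p.2)) * X (Sum.inl p.1) =
            (cz k (r p.2)) • (X (Sum.inl p.1) : MvPolynomial I k) := by
          rw [C_mul']
        rw [h4, h7, map_add, map_smul, pack_polyV_X, pack_polyV_X, chi, h6]
        have h8 : (cz k (r p.2)) • chi k VV (thV (Sum.inl p.1)) (addi_thV (Sum.inl p.1)) =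
            cls k VV ((cz k (r p.2)) • ⟨d (th k (thV (Sum.inl p.1))), d_th_mem (addi_thV _)⟩) := rfl
        rw [h8, ← map_add]
        congr 1
        exact Subtype.ext h5
  exact congrArg (fun f : MvPolynomial I k →+* Coh k VV => f F) h1

theorem pack : Nonempty (Pack k (Coh k (⊤ : Subgroup GG)) (Hgr k (⊤ : Subgroup GG))) := by
  classical
  have hT := fun (b : Coch GG k) (hb : b ∈ Inv k VV) => sum_act_mem b hb
  have hinjV : Function.Injective (aeval (fun i => chi k VV (thV i) (addi_thV i)) :
      MvPolynomial I k →ₐ[k] Coh k VV) := (poly_bij I VV thV addi_thV bij_thV).1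
  have hV : ∀ (n : ℕ) (F : MvPolynomial I k), F.IsHomogeneous n ↔ polyV k F ∈ Hgr k VV n :=
    fun n F => poly_deg (Hgr k VV) (fun i => chi k VV (thV i) (addi_thV i))
      (fun i => Hgr_chi k VV (thV i) (addi_thV i)) hinjV n F
  refine ⟨{
    rho := ((polyV k).symm : Coh k VV →ₐ[k] MvPolynomial I k).comp (resA k (le_top : VV ≤ ⊤))
    tau := (trC (Finset.univ.map ⟨gr, gr_inj⟩) hT).comp (polyV k : MvPolynomial I k →+ Coh k VV)
    rho' := ((polyU k).symm : Coh k UU →ₐ[k] MvPolynomial I' k).comp (resA k (le_top : UU ≤ ⊤))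
    rho_deg := ?_
    tau_deg := ?_
    proj := ?_
    rho_tau := ?_
    al_rho := ?_
    fin := ?_
    fin' := ?_
    zero := fun a ha => Hgr_zero k _ a ha }⟩
  · intro n a ha
    rw [hV]
    change polyV k ((polyV k).symm (resC (le_top : VV ≤ ⊤) a)) ∈ _
    rw [AlgEquiv.apply_symm_apply]
    exact Hgr_resC _ ha
  · intro n s hs
    exact Hgr_trC _ hT ((hV n s).1 hs)
  · intro a s
    change trC _ hT (polyV k ((polyV k).symm (resC (le_top : VV ≤ ⊤) a) * s)) =
      a * trC _ hT (polyV k s)
    rw [map_mul, AlgEquiv.apply_symm_apply]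
    exact trC_res_mul _ _ (fun g _ => Subgroup.mem_top g) hT a _
  · intro s
    change (polyV k).symm (resC (le_top : VV ≤ ⊤) (trC _ hT (polyV k s))) = _
    rw [res_trC, Finset.sum_map, map_sum]
    refine Finset.sum_congr rfl fun r _ => ?_
    change (polyV k).symm (conjC VV (gr r) (polyV k s)) = _
    rw [conj_polyV, AlgEquiv.symm_apply_apply]
  · intro r a
    apply (polyV k).injective
    rw [← conj_polyV]
    change conjC VV (gr r) (polyV k ((polyV k).symm (resC (le_top : VV ≤ ⊤) a))) =
      polyV k ((polyV k).symm (resC (le_top : VV ≤ ⊤) a))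
    rw [AlgEquiv.apply_symm_apply]
    exact conjC_resC _ _ (Subgroup.mem_top _) _
  · intro hN
    exact RingHom.Finite.comp (RingHom.Finite.of_surjective _ (polyV k).symm.surjective)
      (finV hN)
  · intro hN
    exact RingHom.Finite.comp (RingHom.Finite.of_surjective _ (polyU k).symm.surjective)
      (finU hN)

end VSQR

end S_PACK
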