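import Mathlib
import Pool.Agent.H41.VSQ.Topo
import Pool.Agent.H41.VSQ.Poly
import Pool.Agent.H41.VSQ.Alg
import Pool.Agent.H41.VSQ.Mid

set_option autoImplicit false

/-! Very strongly quasi-regular parameters, part Final: this file joins several modules to save build time. -/

section S_FIN

/-!
# FIN: the final assembly
-/

set_option autoImplicit false

namespace VSQR

open Finset MvPolynomial

theorem algmain {k A : Type} [Field k] [CharP k 2] [CommRing A] [Algebra k A]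
    (𝒜 : ℕ → Submodule k A) [GradedAlgebra 𝒜] (P : Pack k A 𝒜) (r : ℕ) (h : ℕ → A)
    (e : ℕ → ℕ) : ¬ IsVSQR k 𝒜 r h e := by
  rintro ⟨⟨hdim, hpos, hfin⟩, -, -, -, htype⟩
  have hN : IsNoetherianRing A := noeth 𝒜 r h e hpos hfin
  have hr : 9 ≤ r := by
    have h1 := dimr P.rho'.toRingHom (P.fin' hN).to_isIntegral r hdim
    have h2 : Fintype.card I' = 9 := by
      simp [I']
    omega
  have hty : ∀ i < 9, ∀ n, ∀ a ∈ 𝒜 n, h i * a ∈ sp h i → a ∉ sp h i →
      n + (i + 1) ≤ ∑ j ∈ range i, e j := by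
    intro i hi n a ha h1 h2
    have h3 := htype i (by omega) n a ha
    rw [if_pos (by omega)] at h3
    have h4 := h3 h1 h2
    simp only [if_pos (show i < r by omega)] at h4
    have h5 : ((∑ j ∈ range i, e j : ℕ) : ℤ) = ∑ j ∈ range i, (e j : ℤ) := by
      push_cast
      rfl
    rw [← h5] at h4
    omega
  have hB : ∀ i < 8, ∀ n, ∀ a ∈ 𝒜 n, h i * a ∈ sp h i → a ∉ sp h i →
      n < ∑ j ∈ range 8, e j := by
    intro i hi n a ha h1 h2
    have h3 := hty i (by omega) n a ha h1 h2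
    have h4 : ∑ j ∈ range i, e j ≤ ∑ j ∈ range 8, e j :=
      Finset.sum_le_sum_of_subset (Finset.range_subset_range.2 hi.le)
    omega
  obtain ⟨N, hNle⟩ := irr 𝒜 P h e (fun i hi => hpos i (by omega)) _ hB
  obtain ⟨N', hN', hX⟩ := parb 𝒜 P.rho (P.fin hN) P.rho_deg (sp h 8) N hNle
  have hcard : Fintype.card I = Fintype.card (Fin 8) := by simp [I]
  let eI : I ≃ Fin 8 := Fintype.equivOfCardEq hcard
  obtain ⟨m, u, hm, hu, htr⟩ := mainA 𝒜 P eI h e (fun i hi => hpos i (by omega))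
    (fun n a ha h1 h2 => by have := hty 8 (by omega) n a ha h1 h2; omega)
  refine mainB (fun i => P.rho (h (eI i))) (fun r i => P.al_rho r _) m hm u hu htr N' hN' ?_
  intro i
  have h1 := hX i
  refine (Ideal.map_le_iff_le_comap.2 ?_ : (sp h 8).map P.rho ≤ _) h1
  refine Ideal.span_le.2 ?_
  rintro x ⟨j, hj, rfl⟩
  refine Ideal.subset_span ⟨eI.symm ⟨j, hj⟩, ?_⟩
  simp

end VSQR

end S_FIN

section S_Model

/-!
# Models of the cohomology ring
-/

set_option autoImplicit false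

namespace VSQR

open Finset

section

variable {G k : Type} [Group G] [Field k] [CharP k 2]

theorem isCocycle_iff (f : List G → k) :
    IsCocycle f ↔ ∃ z : Zc k (⊤ : Subgroup G), ((z : Coch G k) : List G → k) = f := by
  constructor
  · rintro ⟨⟨h0, h1, h2⟩, h3⟩
    refine ⟨⟨⟨f, h0, h1⟩, ?_, ?_⟩, rfl⟩
    · intro g _
      apply Subtype.ext
      funext l
      exact h2 _ l
    · exact Subtype.ext h3
  · rintro ⟨z, rfl⟩
    refine ⟨⟨(z : Coch G k).2.1, (z : Coch G k).2.2, ?_⟩, ?_⟩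
    · intro g l
      have h := z.2.1 g⁻¹ (Subgroup.mem_top _)
      have h' := congrArg (fun w : Coch G k => (w : List G → k) l) h
      beta_reduce at h'
      rw [coe_act, inv_inv] at h'
      exact h'
    · exact congrArg Subtype.val z.2.2

theorem isCochain_iff (f : List G → k) :
    IsCochain f ↔ ∃ z : Coch G k, z ∈ Inv k (⊤ : Subgroup G) ∧ (z : List G → k) = f := by
  constructor
  · rintro ⟨h0, h1, h2⟩
    refine ⟨⟨f, h0, h1⟩, ?_, rfl⟩
    intro g _
    apply Subtype.ext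
    funext l
    exact h2 _ l
  · rintro ⟨z, hz, rfl⟩
    refine ⟨z.2.1, z.2.2, ?_⟩
    intro g l
    have h := hz g⁻¹ (Subgroup.mem_top _)
    have h' := congrArg (fun w : Coch G k => (w : List G → k) l) h
    beta_reduce at h'
    rw [coe_act, inv_inv] at h'
    exact h'

/-- the cohomology ring `Coh k ⊤` is a model -/
theorem model_exists : ∃ cl : (List G → k) → Coh k (⊤ : Subgroup G),
    IsCohomologyRing k G (Hgr k (⊤ : Subgroup G)) cl := by
  classical
  refine ⟨fun f => if h : ∃ z : Zc k (⊤ : Subgroup G), ((z : Coch G k) : List G → k) = f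
    then cls k ⊤ h.choose else 0, ?_⟩
  set cl : (List G → k) → Coh k (⊤ : Subgroup G) :=
    fun f => if h : ∃ z : Zc k (⊤ : Subgroup G), ((z : Coch G k) : List G → k) = f
    then cls k ⊤ h.choose else 0 with hcl
  have key : ∀ z : Zc k (⊤ : Subgroup G), cl ((z : Coch G k) : List G → k) = cls k ⊤ z := by
    intro z
    have h : ∃ z' : Zc k (⊤ : Subgroup G), ((z' : Coch G k) : List G → k) =
      ((z : Coch G k) : List G → k) := ⟨z, rfl⟩
    rw [hcl]
    beta_reduce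
    rw [dif_pos h]
    congr 1
    exact Subtype.ext (Subtype.ext h.choose_spec)
  refine ⟨?_, ?_, ?_, ?_, ?_, ?_⟩
  · intro f g hf hg
    obtain ⟨z, rfl⟩ := (isCocycle_iff f).1 hf
    obtain ⟨z', rfl⟩ := (isCocycle_iff g).1 hg
    rw [key, key]
    refine ⟨?_, ?_⟩
    · rw [← map_add]
      exact key (z + z')
    · rw [← map_mul]
      exact key (z * z')
  · intro c f hf
    obtain ⟨z, rfl⟩ := (isCocycle_iff f).1 hf
    rw [key]
    exact key (c • z)
  · exact (key 1).trans (map_one _)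
  · intro f hf
    obtain ⟨z, rfl⟩ := (isCocycle_iff f).1 hf
    rw [key, cls_eq_zero]
    constructor
    · rintro ⟨b, hb, hz⟩
      exact ⟨b, (isCochain_iff _).2 ⟨b, hb, rfl⟩, congrArg Subtype.val hz⟩
    · rintro ⟨b, hb, hz⟩
      obtain ⟨b, hb', rfl⟩ := (isCochain_iff _).1 hb
      exact ⟨b, hb', Subtype.ext hz⟩
  · intro a
    obtain ⟨z, rfl⟩ := cls_surj _ a
    exact ⟨_, (isCocycle_iff _).2 ⟨z, rfl⟩, key z⟩
  · intro n a
    constructor
    · rintro ⟨z, hz, rfl⟩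
      exact ⟨_, (isCocycle_iff _).2 ⟨z, rfl⟩, hz, key z⟩
    · rintro ⟨f, hf, hl, rfl⟩
      obtain ⟨z, rfl⟩ := (isCocycle_iff f).1 hf
      exact ⟨z, hl, (key z).symm⟩

variable {A : Type} [CommRing A] [Algebra k A]

/-- every model is isomorphic to `Coh k ⊤` -/
theorem model_equiv (𝒜 : ℕ → Submodule k A) (cl : (List G → k) → A)
    (h : IsCohomologyRing k G 𝒜 cl) :
    ∃ φ : Coh k (⊤ : Subgroup G) ≃ₐ[k] A, ∀ n a, φ a ∈ 𝒜 n ↔ a ∈ Hgr k (⊤ : Subgroup G) n := by
  obtain ⟨h1, h2, h3, h4, h5, h6⟩ := h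
  have hc : ∀ z : Zc k (⊤ : Subgroup G), IsCocycle ((z : Coch G k) : List G → k) :=
    fun z => (isCocycle_iff _).2 ⟨z, rfl⟩
  have hz : cl (fun _ => 0) = 0 := by
    have h7 := h2 0 _ (hc 0)
    rw [zero_smul] at h7
    rw [← h7]
    congr 1
    funext l
    rw [zero_mul]
  let ψ : Zc k (⊤ : Subgroup G) →+* A :=
    { toFun := fun z => cl ((z : Coch G k) : List G → k)
      map_one' := h3
      map_mul' := fun z z' => (h1 _ _ (hc z) (hc z')).2
      map_zero' := hz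
      map_add' := fun z z' => (h1 _ _ (hc z) (hc z')).1 }
  have hψ : ∀ z : Zc k (⊤ : Subgroup G), ψ z = 0 ↔ cls k ⊤ z = 0 := by
    intro z
    rw [cls_eq_zero]
    refine (h4 _ (hc z)).trans ?_
    constructor
    · rintro ⟨b, hb, hz⟩
      obtain ⟨b, hb', rfl⟩ := (isCochain_iff _).1 hb
      exact ⟨b, hb', Subtype.ext hz⟩
    · rintro ⟨b, hb, hz⟩
      exact ⟨b, (isCochain_iff _).2 ⟨b, hb, rfl⟩, congrArg Subtype.val hz⟩
  let φ₀ : Coh k (⊤ : Subgroup G) →+* A := Ideal.Quotient.lift (Bc k ⊤) ψ (by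
    intro z hz
    exact (hψ z).2 (Ideal.Quotient.eq_zero_iff_mem.2 hz))
  have hφ₀ : ∀ z, φ₀ (cls k ⊤ z) = ψ z := fun z => rfl
  have hinj : Function.Injective φ₀ := by
    rw [injective_iff_map_eq_zero]
    intro a ha
    obtain ⟨z, rfl⟩ := cls_surj _ a
    rw [hφ₀, hψ] at ha
    exact ha
  have hsurj : Function.Surjective φ₀ := by
    intro a
    obtain ⟨f, hf, rfl⟩ := h5 a
    obtain ⟨z, rfl⟩ := (isCocycle_iff f).1 hf
    exact ⟨cls k ⊤ z, rfl⟩
  have hsmul : ∀ (c : k) (a : Coh k (⊤ : Subgroup G)), φ₀ (c • a) = c • φ₀ a := by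
    intro c a
    obtain ⟨z, rfl⟩ := cls_surj _ a
    exact h2 c _ (hc z)
  let φ₁ : Coh k (⊤ : Subgroup G) →ₐ[k] A :=
    { φ₀ with
      commutes' := fun c => by
        change φ₀ (algebraMap k _ c) = _
        rw [Algebra.algebraMap_eq_smul_one, hsmul, map_one, Algebra.algebraMap_eq_smul_one] }
  refine ⟨AlgEquiv.ofBijective φ₁ ⟨hinj, hsurj⟩, fun n a => ?_⟩
  rw [AlgEquiv.coe_ofBijective, h6]
  constructor
  · rintro ⟨f, hf, hl, hfa⟩
    obtain ⟨z, rfl⟩ := (isCocycle_iff f).1 hf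
    have h8 : φ₀ (cls k ⊤ z) = φ₀ a := hfa
    exact ⟨z, hl, hinj h8⟩
  · rintro ⟨z, hl, rfl⟩
    exact ⟨_, hc z, hl, rfl⟩

end

section

variable {A B k : Type} [Field k] [CharP k 2] [CommRing A] [Algebra k A] [CommRing B]
  [Algebra k B]

/-- transport of the package along an isomorphism -/
theorem pack_transport (𝒜 : ℕ → Submodule k A) (ℬ : ℕ → Submodule k B) (φ : A ≃ₐ[k] B)
    (hφ : ∀ n a, φ a ∈ ℬ n ↔ a ∈ 𝒜 n) (P : Pack k A 𝒜) : Nonempty (Pack k B ℬ) := by
  have hφ' : ∀ n b, b ∈ ℬ n ↔ φ.symm b ∈ 𝒜 n := by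
    intro n b
    rw [← hφ, AlgEquiv.apply_symm_apply]
  have hfin : φ.symm.toAlgHom.toRingHom.Finite :=
    RingHom.Finite.of_surjective _ φ.symm.surjective
  have hN : IsNoetherianRing B → IsNoetherianRing A := fun h =>
    isNoetherianRing_of_ringEquiv B φ.symm.toRingEquiv
  exact ⟨{
    rho := P.rho.comp φ.symm.toAlgHom
    tau := φ.toRingEquiv.toAddMonoidHom.comp P.tau
    rho' := P.rho'.comp φ.symm.toAlgHom
    rho_deg := fun n b hb => P.rho_deg n _ ((hφ' n b).1 hb)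
    tau_deg := fun n s hs => (hφ n _).2 (P.tau_deg n s hs)
    proj := fun b s => by
      change φ (P.tau (P.rho (φ.symm b) * s)) = b * φ (P.tau s)
      rw [P.proj, map_mul, AlgEquiv.apply_symm_apply]
    rho_tau := fun s => by
      change P.rho (φ.symm (φ (P.tau s))) = _
      rw [AlgEquiv.symm_apply_apply, P.rho_tau]
    al_rho := fun r b => P.al_rho r _
    fin := fun h => (P.fin (hN h)).comp hfin
    fin' := fun h => (P.fin' (hN h)).comp hfin
    zero := fun b hb => by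
      obtain ⟨c, hc⟩ := P.zero _ ((hφ' 0 b).1 hb)
      refine ⟨c, ?_⟩
      rw [← AlgEquiv.apply_symm_apply φ b, hc, AlgEquiv.commutes] }⟩

theorem internal_transport (𝒜 : ℕ → Submodule k A) (ℬ : ℕ → Submodule k B) (φ : A ≃ₐ[k] B)
    (hφ : ∀ n a, φ a ∈ ℬ n ↔ a ∈ 𝒜 n) (h : DirectSum.IsInternal 𝒜) : DirectSum.IsInternal ℬ := by
  have hmap : ℬ = fun n => (Submodule.orderIsoMapComap φ.toLinearEquiv) (𝒜 n) := by
    funext n
    ext b
    change b ∈ ℬ n ↔ b ∈ (𝒜 n).map (φ.toLinearEquiv : A →ₗ[k] B)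
    constructor
    · intro hb
      refine ⟨φ.symm b, ?_, φ.apply_symm_apply b⟩
      change φ.symm b ∈ 𝒜 n
      rw [← hφ, AlgEquiv.apply_symm_apply]
      exact hb
    · rintro ⟨a, ha, rfl⟩
      exact (hφ n a).2 ha
  rw [DirectSum.isInternal_submodule_iff_iSupIndep_and_iSup_eq_top] at h ⊢
  rw [hmap]
  refine ⟨h.1.map_orderIso (Submodule.orderIsoMapComap φ.toLinearEquiv), ?_⟩
  rw [← OrderIso.map_iSup, h.2, OrderIso.map_top]

end

/-- no model of the cohomology ring of `GG` has a very strongly quasi-regular system of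
parameters -/
theorem model_main {A k : Type} [Field k] [CharP k 2] [CommRing A] [Algebra k A]
    (𝒜 : ℕ → Submodule k A) (cl : (List GG → k) → A) (h : IsCohomologyRing k GG 𝒜 cl) (r : ℕ)
    (hh : ℕ → A) (e : ℕ → ℕ) : ¬ IsVSQR k 𝒜 r hh e := by
  obtain ⟨φ, hφ⟩ := model_equiv 𝒜 cl h
  obtain ⟨P⟩ := pack k
  obtain ⟨P'⟩ := pack_transport _ 𝒜 φ hφ P
  have hint := internal_transport _ 𝒜 φ hφ (Hgr_internal k (⊤ : Subgroup GG))
  have hone : (1 : A) ∈ 𝒜 0 := by
    have h1 := (hφ 0 1).2 (Hgr_one k _)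
    rwa [map_one] at h1
  have hmul : ∀ {m n : ℕ} {a b : A}, a ∈ 𝒜 m → b ∈ 𝒜 n → a * b ∈ 𝒜 (m + n) := by
    intro m n a b ha hb
    obtain ⟨a, rfl⟩ := φ.surjective a
    obtain ⟨b, rfl⟩ := φ.surjective b
    rw [← map_mul, hφ]
    exact Hgr_mul k _ ((hφ _ _).1 ha) ((hφ _ _).1 hb)
  letI : GradedAlgebra 𝒜 :=
    { hint.chooseDecomposition with
      one_mem := hone
      mul_mem := fun _ _ _ _ ha hb => hmul ha hb }
  exact algmain 𝒜 P' r hh e

end VSQR

end S_Model
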